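import Pool.Agent.H815.TW.Art

/-!
# Special subgroups, and graphs with infinitely many vertices
-/

set_option autoImplicit false
set_option linter.unusedSectionVars false

namespace Pool.Agent.H815.TW

open Pool.Agent.W907.SG Pool.Agent.W907.SM Pool.Agent.R703.MO

/-- the restriction of slopes to a full subgraph -/
def pull {V U X : Type} {G : SimpleGraph V} (D : Slope G X) (j : U → V) : Slope (G.comap j) X where
  a v := D.a (j v)
  dir v := D.dir (j v)
  inv v := D.inv (j v)
  comm _ _ h := D.comm _ _ h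
  odd v := D.odd (j v)
  par _ _ h := D.par _ _ h

section

variable {n m : ℕ}

/-- exactness for a copy of a full subgraph -/
theorem ex_comap {G : SimpleGraph (Fin n)} (j : Fin m → Fin n) (hj : Function.Injective j) {A : Finset (Fin m)} {i : ℕ}
    (h : Ex G (A.image j) i) : Ex (G.comap j) A i := by
  classical
  intro z hz hb
  have hCh : Ch G (A.image j) i (pc j z) := by
    intro σ hσ
    obtain ⟨S, _, hS⟩ := Finset.exists_ne_zero_of_sum_ne_zero hσ
    split_ifs at hS with h1
    · obtain ⟨h2, h3, h4⟩ := hz S hS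
      subst h1
      refine ⟨?_, Finset.image_subset_image h3, by rw [Finset.card_image_of_injective _ hj, h4]⟩
      intro a ha b hb' hab
      rw [Finset.mem_coe, Finset.mem_image] at ha hb'
      obtain ⟨a', ha', rfl⟩ := ha
      obtain ⟨b', hb'', rfl⟩ := hb'
      exact h2 ha' hb'' fun e => hab (by rw [e])
    · exact absurd rfl hS
  obtain ⟨w, hw, hwz⟩ := h (pc j z) hCh (by rw [b1_pc hj, hb, pc_zero])
  · refine ⟨fun σ => w (σ.image j), ?_, ?_⟩
    · intro σ hσ
      obtain ⟨h1, h2, h3⟩ := hw _ hσ
      refine ⟨?_, ?_, ?_⟩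
      · intro a ha b hb' hab
        exact h1 (Finset.mem_coe.2 (Finset.mem_image_of_mem j ha)) (Finset.mem_coe.2 (Finset.mem_image_of_mem j hb'))
          fun e => hab (hj e)
      · intro a ha
        obtain ⟨b, hb', e⟩ := Finset.mem_image.1 (h2 (Finset.mem_image_of_mem j ha))
        exact hj e ▸ hb'
      · rw [← h3, Finset.card_image_of_injective _ hj]
    · funext ρ
      have h1 : pc j z (ρ.image j) = z ρ := by
        unfold pc
        rw [Finset.sum_eq_single ρ]
        · exact if_pos rfl
        · intro S _ hS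
          exact if_neg fun e => hS (Finset.image_injective hj e)
        · intro h; exact absurd (Finset.mem_univ _) h
      rw [← h1, ← hwz]
      show ∑ v ∈ ρᶜ, w ((insert v ρ).image j) = ∑ x ∈ (ρ.image j)ᶜ, w (insert x (ρ.image j))
      have h2 : ∑ v ∈ ρᶜ, w ((insert v ρ).image j) = ∑ x ∈ ρᶜ.image j, w (insert x (ρ.image j)) := by
        rw [Finset.sum_image fun a _ b _ e => hj e]
        exact Finset.sum_congr rfl fun v _ => by rw [Finset.image_insert]
      rw [h2]
      refine Finset.sum_subset ?_ fun x hx hx' => ?_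
      · intro x hx
        obtain ⟨v, hv, rfl⟩ := Finset.mem_image.1 hx
        rw [Finset.mem_compl] at hv ⊢
        intro h3
        obtain ⟨u, hu, e⟩ := Finset.mem_image.1 h3
        exact hv (hj e ▸ hu)
      · by_contra h3
        obtain ⟨_, h4, _⟩ := hw _ h3
        obtain ⟨v, _, rfl⟩ := Finset.mem_image.1 (h4 (Finset.mem_insert_self _ _))
        refine hx' (Finset.mem_image_of_mem j ?_)
        rw [Finset.mem_compl] at hx ⊢
        exact fun h5 => hx (Finset.mem_image_of_mem j h5)

/-- vanishing for full subgraphs from the exactness of doubled full subgraphs -/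
theorem van_sub_of_ex (G : SimpleGraph (Fin n)) (h : Dom G) (i : ℕ) (j : Fin m → Fin n) (hj : Function.Injective j)
    (hex : ∀ (A : Finset (Fin n)) (f : Fin n → Fin n), Dbl G f A → Ex G A i) : L2Van (G.comap j) i := by
  classical
  obtain ⟨t, p, ht1, ht2, hp1, hp2, hp3⟩ := exists_classes h
  refine morse_slope (G.comap j) (pull (slo G t ht1) j) i fun x S hS h0 k hk => ?_
  have hSe : S = ∅ := by
    rw [Finset.eq_empty_iff_forall_notMem]
    intro s hs
    have h1 := h0 s hs
    have h2 : (bif up t x (j s) then (1 : ℤ) else -1) = 0 := h1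
    cases h3 : up t x (j s) <;> rw [h3] at h2 <;> simp at h2
  subst hSe
  rw [Finset.card_empty, add_zero] at hk
  subst hk
  have h1 : (pull (slo G t ht1) j).Asc ∅ x =
      ((Finset.univ.filter fun v => up t x (j v) = true : Finset (Fin m)) : Set (Fin m)) := by
    ext v
    rw [Finset.mem_coe, Finset.mem_filter]
    show (0 < (bif up t x (j v) then (1 : ℤ) else -1) ∧ _) ↔ _
    constructor
    · rintro ⟨h2, _⟩
      cases h3 : up t x (j v)
      · rw [h3] at h2
        simp at h2
      · exact ⟨Finset.mem_univ _, rfl⟩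
    · rintro ⟨_, h2⟩
      rw [h2]
      exact ⟨by simp, fun s hs => absurd hs (Finset.notMem_empty s)⟩
  rw [h1]
  have hadj : ∀ u v, G.Adj u v → G.Adj u (p v) := fun u v huv => ((hp1 v) u huv.symm).symm
  refine beta_of_ex (G.comap j) _ (ex_comap j hj (hex _ p ⟨?_, ?_, ?_⟩))
  · intro v hv hfv
    obtain ⟨v', hv', rfl⟩ := Finset.mem_image.1 hv
    obtain ⟨w, hw, hwv⟩ := Finset.mem_image.1 hfv
    rw [Finset.mem_filter] at hv' hw
    have h2 := hv'.2
    have h3 := hw.2
    rw [hwv] at h3
    unfold up at h2 h3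
    rw [hp2] at h3
    have h4 := hp3 (j v')
    by_cases h5 : j v' = t (j v')
    · rw [if_pos h5] at h2
      rw [if_neg (fun h6 => (h4.1 h6) h5)] at h3
      rw [h3] at h2
      simp at h2
    · rw [if_neg h5] at h2
      rw [if_pos (h4.2 h5)] at h3
      rw [h2] at h3
      simp at h3
  · intro u _ v _ huv
    exact hadj u v huv
  · intro u _ v _ huv
    exact (hadj _ _ (hadj _ _ huv).symm).symm

end

/-- The vanishing theorem for special subgroups. -/
theorem van_sub_of_bd {V : Type} (G : SimpleGraph V) (hd : Dom G) {N : ℕ} (e : V ≃ Fin N) {n i : ℕ}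
    (hb : Bd n (tr G e)) (hi : n < 2 * i) (A : Set V) [Fintype A] [LinearOrder A] : L2Van (G.induce A) i := by
  obtain ⟨e'⟩ : Nonempty (A ≃ Fin (Fintype.card A)) := ⟨Fintype.equivFin A⟩
  have h1 : L2Van ((tr G e).comap fun k => e (e'.symm k : V)) i :=
    van_sub_of_ex _ (tr_dom e hd) i _ (fun a b h => e'.symm.injective (Subtype.ext (e.injective h)))
      fun _ _ hf => ex_of_bd hb hf hi
  have h2 : LV (G.induce A) i := by
    refine liso _ _ _ (G.induce A) i ⟨⟨e'.symm, ?_⟩⟩ (lv_of h1)
    intro a b
    show G.Adj _ _ ↔ G.Adj (e.symm (e _)) (e.symm (e _))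
    rw [e.symm_apply_apply, e.symm_apply_apply]
    rfl
  exact h2 _ _

/-- **The vanishing theorem for all special subgroups.** -/
theorem vanishing_sub {V : Type} [Fintype V] (G : SimpleGraph V) (hd : Dom G) {n i : ℕ} (H : Subgroup (W G))
    (hH : H.FiniteIndex) (Γ : Type) [Group Γ] (φ : H →* Γ) (hφ : Function.Injective φ) (ha : Acts n Γ)
    (hi : n < 2 * i) (A : Set V) [Fintype A] [LinearOrder A] : L2Van (G.induce A) i := by
  obtain ⟨e⟩ : Nonempty (V ≃ Fin (Fintype.card V)) := ⟨Fintype.equivFin V⟩
  exact van_sub_of_bd G hd e (bd_of_acts e hd H (ha.of_hom φ hφ)) hi A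

/-- restriction to a full subgraph -/
def Tori.sub {V : Type} {L : SimpleGraph V} {Γ : Type} [Group Γ] (T : Tori L Γ) (A : Set V) : Tori (L.induce A) Γ where
  g v := T.g v
  comm _ _ h := T.comm _ _ h
  φ v := T.φ v
  self v := T.self v
  other _ _ h := T.other _ _ fun e => h (Subtype.ext e)

/-- graphs with finitely or infinitely many vertices -/
theorem artin_sub {V : Type} {L : SimpleGraph V} {Γ : Type} [Group Γ] (T : Tori L Γ) {n i : ℕ} (ha : Acts n Γ)
    (hi : n < 2 * i) (A : Set V) [Fintype A] [DecidableEq A] :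
    Acy (L.induce A) i ∧ ∀ _ : LinearOrder (A × Bool), L2Van (oct (L.induce A)) i :=
  artin (T.sub A) ha hi

end Pool.Agent.H815.TW
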