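import Mathlib

/-!
# Definitions
-/

set_option autoImplicit false

namespace Pool.Agent.H815.TW

/-- every neighbour of `v` is a neighbour of `v'` -/
def Le {V : Type} (G : SimpleGraph V) (v v' : V) : Prop := ∀ w, G.Adj v w → G.Adj v' w

/-- For every vertex `v` there is another vertex `v'` such that all the neighbours of `v` are neighbours of `v'`. -/
def Dom {V : Type} (G : SimpleGraph V) : Prop := ∀ v, ∃ v', v' ≠ v ∧ Le G v v'

/-- Only finitely many translates of a compact set meet it. -/
def Proper (Γ M : Type) [Group Γ] [TopologicalSpace M] [MulAction Γ M] : Prop :=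
  ∀ C : Set M, IsCompact C → {g : Γ | ∃ m ∈ C, g • m ∈ C}.Finite

/-- The group `Γ` acts properly, by homeomorphisms, on a contractible space `M` such that there is a continuous
injective map from `M × M` to the euclidean space of dimension `2 n`. -/
def Acts (n : ℕ) (Γ : Type) [Group Γ] : Prop :=
  ∃ (M : Type) (_ : TopologicalSpace M) (_ : MulAction Γ M), ContinuousConstSMul Γ M ∧ ContractibleSpace M ∧
    Proper Γ M ∧ ∃ ι : M × M → (Fin (2 * n) → ℝ), Continuous ι ∧ Function.Injective ι

/-- the octahedralization: every vertex is replaced by two non-adjacent vertices -/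
def oct {V : Type} (L : SimpleGraph V) : SimpleGraph (V × Bool) := L.comap Prod.fst

/-- Elements `g v` of the group `Γ`, which commute for adjacent `v`, and homomorphisms to the integers for which the
matrix of the values is a diagonal matrix with nonzero entries. -/
structure Tori {V : Type} (L : SimpleGraph V) (Γ : Type) [Group Γ] where
  g : V → Γ
  comm : ∀ u v, L.Adj u v → Commute (g u) (g v)
  φ : V → Γ →* Multiplicative ℤ
  self : ∀ v, φ v (g v) ≠ 1
  other : ∀ u v, u ≠ v → φ u (g v) = 1

/-- the relators of the right-angled Artin group of `L` -/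
def rel {V : Type} (L : SimpleGraph V) : Set (FreeGroup V) :=
  {r | ∃ u v, L.Adj u v ∧ r = FreeGroup.of u * FreeGroup.of v * (FreeGroup.of u)⁻¹ * (FreeGroup.of v)⁻¹}

/-- the right-angled Artin group of `L` -/
abbrev Raag {V : Type} (L : SimpleGraph V) : Type := PresentedGroup (rel L)

/-- The flag complex of `L` has no reduced homology modulo 2 in the degree `i - 1`: every cycle on the cliques with
`i` elements is a boundary. -/
def Acy {V : Type} [Fintype V] [DecidableEq V] (L : SimpleGraph V) (i : ℕ) : Prop :=
  ∀ z : Finset V → ZMod 2, (∀ σ, z σ ≠ 0 → L.IsClique (σ : Set V) ∧ σ.card = i) →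
    (∀ ρ, ∑ v ∈ ρᶜ, z (insert v ρ) = 0) →
    ∃ w : Finset V → ZMod 2, (∀ σ, w σ ≠ 0 → L.IsClique (σ : Set V) ∧ σ.card = i + 1) ∧
      ∀ ρ, ∑ v ∈ ρᶜ, w (insert v ρ) = z ρ

end Pool.Agent.H815.TW
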