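import Pool.Agent.H815.TW.Real
import Pool.Agent.H815.TW.Defs
import Pool.Graph.R_seed8.R703.MO.SlopeC

/-!
# Graphs in which every vertex is dominated by another vertex: slopes
-/

set_option autoImplicit false

namespace Pool.Agent.H815.TW

open Pool.Agent.W907.SG Pool.Agent.R703.MO

theorem Le.refl {V : Type} (G : SimpleGraph V) (v : V) : Le G v v := fun _ h => h

theorem Le.trans {V : Type} {G : SimpleGraph V} {u v w : V} (h : Le G u v) (h' : Le G v w) : Le G u w :=
  fun x hx => h' x (h x hx)

/-- vertices dominated by the same vertex are not adjacent -/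
theorem Le.not_adj {V : Type} {G : SimpleGraph V} {u v w : V} (h : Le G u w) (h' : Le G v w) : ¬ G.Adj u v := by
  intro h1
  exact (h' w (h v h1).symm).ne rfl

section

variable {V : Type} {G : SimpleGraph V}

/-- the classes of the vertices: `t v` is a representative of the class of `v`, it dominates `v`, and it has a
twin `p v` in its class -/
theorem exists_classes [Finite V] (h : Dom G) : ∃ (t p : V → V), (∀ v, Le G v (t v)) ∧ (∀ v, t (t v) = t v) ∧
    (∀ v, Le G v (p v)) ∧ (∀ v, t (p v) = t v) ∧ (∀ v, (p v = t v ↔ ¬ v = t v)) := by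
  classical
  have h1 : ∀ v, ∃ w, Le G v w ∧ ∀ u, Le G w u → Le G u w := by
    intro v
    obtain ⟨w, hw, hmax⟩ := Set.exists_max_image {w | Le G v w} (fun w => (G.neighborSet w).ncard)
      (Set.toFinite _) ⟨v, Le.refl G v⟩
    refine ⟨w, hw, fun u hu x hx => ?_⟩
    have h2 : G.neighborSet w ⊆ G.neighborSet u := fun y hy => hu y hy
    have h3 := hmax u (hw.trans hu)
    have h4 := Set.eq_of_subset_of_ncard_le h2 h3 (Set.toFinite _)
    have h5 : x ∈ G.neighborSet u := hx
    rw [← h4] at h5
    exact h5
  choose m hm1 hm2 using h1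
  let s : Setoid V := ⟨fun u v => Le G u v ∧ Le G v u, ⟨fun u => ⟨Le.refl G u, Le.refl G u⟩, fun h => ⟨h.2, h.1⟩,
    fun h h' => ⟨h.1.trans h'.1, h'.2.trans h.2⟩⟩⟩
  let r : V → V := fun v => (Quotient.mk s v).out
  have hr1 : ∀ v, Le G (r v) v ∧ Le G v (r v) := fun v => Quotient.mk_out v
  have hr2 : ∀ v w, Le G v w → Le G w v → r v = r w := fun v w h h' =>
    congrArg Quotient.out (Quotient.sound (s := s) ⟨h, h'⟩)
  have hrm : ∀ v u, Le G (r (m v)) u → Le G u (r (m v)) := fun v u hu =>
    (hm2 v u ((hr1 (m v)).2.trans hu)).trans (hr1 (m v)).2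
  have ht1 : ∀ v, Le G v (r (m v)) := fun v => (hm1 v).trans (hr1 (m v)).2
  -- on the maximal vertices `r ∘ m` is `r`
  have hmax : ∀ w, (∀ u, Le G w u → Le G u w) → r (m w) = r w := by
    intro w hw
    exact hr2 _ _ (hw _ (hm1 w)) (hm1 w)
  have ht2 : ∀ v, r (m (r (m v))) = r (m v) := by
    intro v
    rw [hmax _ (hrm v)]
    exact hr2 _ _ (hr1 _).1 (hr1 _).2
  choose q hq1 hq2 using h
  refine ⟨fun v => r (m v), fun v => if v = r (m v) then q v else r (m v), ht1, ht2, fun v => ?_, fun v => ?_,
    fun v => ?_⟩
  · show Le G v (if v = r (m v) then q v else r (m v))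
    split_ifs
    · exact hq2 v
    · exact ht1 v
  · show r (m (if v = r (m v) then q v else r (m v))) = r (m v)
    split_ifs with h3
    · have h4 : ∀ u, Le G v u → Le G u v := by
        intro u hu
        rw [h3] at hu ⊢
        exact hrm v u hu
      have h5 : Le G (q v) v := h4 _ (hq2 v)
      have h6 : ∀ u, Le G (q v) u → Le G u (q v) := fun u hu => (h4 u ((hq2 v).trans hu)).trans (hq2 v)
      rw [hmax _ h6, hmax v h4]
      exact hr2 _ _ h5 (hq2 v)
    · exact ht2 v
  · show (if v = r (m v) then q v else r (m v)) = r (m v) ↔ ¬ v = r (m v)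
    split_ifs with h3
    · rw [← h3]
      exact ⟨fun h4 => absurd h4 (hq1 v), fun h4 => absurd rfl h4⟩
    · exact ⟨fun _ => h3, fun _ => rfl⟩

variable (G)

open Classical in
/-- the ascending directions -/
noncomputable def up (t : V → V) (x : V → Bool) (v : V) : Bool := if v = t v then !(x (t v)) else x (t v)

open Classical in
/-- the slopes -/
noncomputable def slo (t : V → V) (ht : ∀ v, Le G v (t v)) : Slope G (V → Bool) where
  a v x := Function.update x (t v) (!(x (t v)))
  dir v x := bif up t x v then 1 else -1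
  inv v x := by
    funext w
    by_cases h : w = t v
    · rw [h]; simp
    · simp [Function.update_of_ne h]
  comm u v _ x := by
    funext w
    by_cases h1 : t u = t v
    · rw [h1]
    · by_cases hu : w = t u
      · subst hu
        simp [Function.update_of_ne h1]
      · by_cases hv : w = t v
        · subst hv
          simp [Function.update_of_ne hu]
        · simp [Function.update_of_ne hu, Function.update_of_ne hv]
  odd v x := by
    unfold up
    rw [Function.update_self]
    split_ifs <;> cases x (t v) <;> rfl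
  par u v h x := by
    have h1 : t u ≠ t v := by
      intro e
      have h2 := ht v
      rw [← e] at h2
      exact (ht u).not_adj h2 h
    unfold up
    rw [Function.update_of_ne h1]

end

/-- vanishing from the exactness of doubled full subgraphs -/
theorem van_of_ex {n : ℕ} (G : SimpleGraph (Fin n)) (h : Dom G) (i : ℕ)
    (hex : ∀ (A : Finset (Fin n)) (f : Fin n → Fin n), Dbl G f A → Ex G A i) : L2Van G i := by
  classical
  obtain ⟨t, p, ht1, ht2, hp1, hp2, hp3⟩ := exists_classes h
  refine morse_slope G (slo G t ht1) i fun x S hS h0 j hj => ?_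
  have hSe : S = ∅ := by
    rw [Finset.eq_empty_iff_forall_notMem]
    intro s hs
    have h1 := h0 s hs
    have h2 : (bif up t x s then (1 : ℤ) else -1) = 0 := h1
    cases h3 : up t x s <;> rw [h3] at h2 <;> simp at h2
  subst hSe
  rw [Finset.card_empty, add_zero] at hj
  subst hj
  have h1 : (slo G t ht1).Asc ∅ x = ((Finset.univ.filter fun v => up t x v = true : Finset (Fin n)) : Set (Fin n)) := by
    ext v
    rw [Finset.mem_coe, Finset.mem_filter]
    show (0 < (bif up t x v then (1 : ℤ) else -1) ∧ _) ↔ _
    constructor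
    · rintro ⟨h2, _⟩
      cases h3 : up t x v
      · rw [h3] at h2
        simp at h2
      · exact ⟨Finset.mem_univ _, rfl⟩
    · rintro ⟨_, h2⟩
      rw [h2]
      exact ⟨by simp, fun s hs => absurd hs (Finset.notMem_empty s)⟩
  rw [h1]
  have hadj : ∀ u v, G.Adj u v → G.Adj u (p v) := fun u v huv => ((hp1 v) u huv.symm).symm
  refine beta_of_ex G _ (hex _ p ⟨?_, ?_, ?_⟩)
  · intro v hv hfv
    rw [Finset.mem_filter] at hv hfv
    have h2 := hv.2
    have h3 := hfv.2
    unfold up at h2 h3
    rw [hp2] at h3
    have h4 := hp3 v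
    by_cases h5 : v = t v
    · rw [if_pos h5] at h2
      rw [if_neg (fun h6 => (h4.1 h6) h5)] at h3
      rw [h3] at h2
      simp at h2
    · rw [if_neg h5] at h2
      rw [if_pos (h4.2 h5)] at h3
      rw [h2] at h3
      simp at h3
  · intro u _ v _ huv
    exact hadj u v huv
  · intro u _ v _ huv
    exact (hadj _ _ (hadj _ _ huv).symm).symm

end Pool.Agent.H815.TW
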