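import Pool.Agent.H815.TW.Ray
import Pool.Agent.H815.TW.Van
import Pool.Graph.R_seed8.R782.Bal.Ex

/-!
# Rays in right-angled Coxeter groups
-/

set_option autoImplicit false
set_option linter.unusedSectionVars false

namespace Pool.Agent.H815.TW

open Pool.Agent.W907.SG Pool.Agent.R782.Bal Pool.Agent.W555.KS

/-- alternating products `a b a b ...` -/
def alt {Γ : Type} [Group Γ] (a b : Γ) : ℕ → Γ
  | 0 => 1
  | k + 1 => alt a b k * if Even k then a else b

theorem alt_map {Γ Δ : Type} [Group Γ] [Group Δ] (φ : Γ →* Δ) (a b : Γ) (k : ℕ) :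
    φ (alt a b k) = alt (φ a) (φ b) k := by
  induction k with
  | zero => exact map_one φ
  | succ k ih =>
    show φ (alt a b k * if Even k then a else b) = alt (φ a) (φ b) k * if Even k then φ a else φ b
    rw [map_mul, ih]
    split_ifs <;> rfl

theorem alt_commute {Γ : Type} [Group Γ] {a b x : Γ} (ha : Commute a x) (hb : Commute b x) (k : ℕ) :
    Commute (alt a b k) x := by
  induction k with
  | zero => exact Commute.one_left _
  | succ k ih =>
    show Commute (alt a b k * if Even k then a else b) x
    split_ifs
    · exact ih.mul_left ha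
    · exact ih.mul_left hb

theorem alt_one_one {Γ : Type} [Group Γ] (k : ℕ) : alt (1 : Γ) 1 k = 1 := by
  induction k with
  | zero => rfl
  | succ k ih =>
    show alt (1 : Γ) 1 k * (if Even k then 1 else 1) = 1
    rw [ih]
    simp

/-- one of the two letters is trivial and the other one is an involution -/
theorem alt_one_left {Γ : Type} [Group Γ] {b : Γ} (hb : b * b = 1) (k : ℕ) : alt 1 b k = 1 ∨ alt 1 b k = b := by
  induction k with
  | zero => exact Or.inl rfl
  | succ k ih =>
    show (alt 1 b k * if Even k then 1 else b) = 1 ∨ (alt 1 b k * if Even k then 1 else b) = b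
    split_ifs
    · rw [mul_one]; exact ih
    · rcases ih with h | h
      · right; rw [h, one_mul]
      · left; rw [h, hb]

theorem alt_one_right {Γ : Type} [Group Γ] {a : Γ} (ha : a * a = 1) (k : ℕ) : alt a 1 k = 1 ∨ alt a 1 k = a := by
  induction k with
  | zero => exact Or.inl rfl
  | succ k ih =>
    show (alt a 1 k * if Even k then a else 1) = 1 ∨ (alt a 1 k * if Even k then a else 1) = a
    split_ifs
    · rcases ih with h | h
      · right; rw [h, one_mul]
      · left; rw [h, ha]
    · rw [mul_one]; exact ih

/-- the reflection `x ↦ 1 - x` -/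
def ra : Equiv.Perm ℤ := ⟨fun x => 1 - x, fun x => 1 - x, fun x => by ring, fun x => by ring⟩

/-- the reflection `x ↦ -1 - x` -/
def rb : Equiv.Perm ℤ := ⟨fun x => -1 - x, fun x => -1 - x, fun x => by ring, fun x => by ring⟩

theorem ra_apply (x : ℤ) : ra x = 1 - x := rfl

theorem rb_apply (x : ℤ) : rb x = -1 - x := rfl

theorem ra_ra : ra * ra = 1 := by
  ext x
  rw [Equiv.Perm.mul_apply, ra_apply, ra_apply, Equiv.Perm.one_apply]
  ring

theorem rb_rb : rb * rb = 1 := by
  ext x
  rw [Equiv.Perm.mul_apply, rb_apply, rb_apply, Equiv.Perm.one_apply]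
  ring

theorem alt_ra_rb (k : ℕ) (x : ℤ) : alt ra rb k x = k + (-1) ^ k * x := by
  induction k generalizing x with
  | zero => simp [alt]
  | succ k ih =>
    show (alt ra rb k * if Even k then ra else rb) x = _
    rw [Equiv.Perm.mul_apply, ih]
    split_ifs with h
    · rw [ra_apply, pow_succ, h.neg_one_pow]
      push_cast
      ring
    · rw [rb_apply, pow_succ, (Nat.not_even_iff_odd.1 h).neg_one_pow]
      push_cast
      ring

theorem alt_rb_ra (k : ℕ) (x : ℤ) : alt rb ra k x = -k + (-1) ^ k * x := by
  induction k generalizing x with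
  | zero => simp [alt]
  | succ k ih =>
    show (alt rb ra k * if Even k then rb else ra) x = _
    rw [Equiv.Perm.mul_apply, ih]
    split_ifs with h
    · rw [rb_apply, pow_succ, h.neg_one_pow]
      push_cast
      ring
    · rw [ra_apply, pow_succ, (Nat.not_even_iff_odd.1 h).neg_one_pow]
      push_cast
      ring

section

variable {V : Type} (G : SimpleGraph V)

theorem simple_comm {u v : V} (h : G.Adj u v) : Commute ((cox G).simple u) ((cox G).simple v) := by
  have h1 := (cox G).toCoxeterSystem.simple_mul_simple_pow u v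
  have h2 : cox G u v = 2 := by
    classical
    have hM : cox G u v = if u = v then 1 else if G.Adj u v then 2 else 0 := by
      show (if u = v then 1 else if G.Adj u v then 2 else 0) = _
      congr
    rw [hM, if_neg h.ne, if_pos h]
  rw [h2] at h1
  have hu := (cox G).toCoxeterSystem.simple_mul_simple_self u
  have hv := (cox G).toCoxeterSystem.simple_mul_simple_self v
  have h3 : (cox G).simple u * (cox G).simple v * ((cox G).simple u * (cox G).simple v) = 1 := by
    rw [← pow_two]; exact h1
  have hu' : (cox G).simple u * (cox G).simple u = 1 := hu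
  have hv' : (cox G).simple v * (cox G).simple v = 1 := hv
  show (cox G).simple u * (cox G).simple v = (cox G).simple v * (cox G).simple u
  have h4 : (cox G).simple u * (cox G).simple v = ((cox G).simple u * (cox G).simple v)⁻¹ := eq_inv_of_mul_eq_one_left h3
  rw [h4, mul_inv_rev, inv_eq_of_mul_eq_one_left hu', inv_eq_of_mul_eq_one_left hv']

open Classical in
/-- the images of the generators -/
noncomputable def img (v v' u : V) : Equiv.Perm ℤ := if u = v then ra else if u = v' then rb else 1

theorem img_lift {v v' : V} (h : ¬ G.Adj v v') : (cox G).IsLiftable (img v v') := by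
  classical
  have hsq : ∀ u, img v v' u * img v v' u = 1 := by
    intro u
    unfold img
    split_ifs
    · exact ra_ra
    · exact rb_rb
    · exact mul_one 1
  intro u w
  have hM : cox G u w = if u = w then 1 else if G.Adj u w then 2 else 0 := by
    show (if u = w then 1 else if G.Adj u w then 2 else 0) = _
    congr
  rw [hM]
  by_cases h1 : u = w
  · rw [if_pos h1, h1, pow_one, hsq]
  · rw [if_neg h1]
    by_cases h2 : G.Adj u w
    · rw [if_pos h2]
      have h3 : img v v' u = 1 ∨ img v v' w = 1 := by
        by_contra h4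
        push Not at h4
        obtain ⟨h4, h5⟩ := h4
        unfold img at h4 h5
        by_cases a1 : u = v
        · by_cases a2 : w = v
          · exact h1 (a1.trans a2.symm)
          · rw [if_neg a2] at h5
            by_cases a3 : w = v'
            · exact h (a1 ▸ a3 ▸ h2)
            · rw [if_neg a3] at h5
              exact h5 rfl
        · rw [if_neg a1] at h4
          by_cases a4 : u = v'
          · by_cases a2 : w = v
            · exact h (a2 ▸ a4 ▸ h2.symm)
            · rw [if_neg a2] at h5
              by_cases a3 : w = v'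
              · exact h1 (a4.trans a3.symm)
              · rw [if_neg a3] at h5
                exact h5 rfl
          · rw [if_neg a4] at h4
            exact h4 rfl
      rcases h3 with h3 | h3
      · rw [h3, one_mul, pow_two, hsq]
      · rw [h3, mul_one, pow_two, hsq]
    · rw [if_neg h2, pow_zero]

/-- the homomorphism to the group of the permutations of the integers -/
noncomputable def line {v v' : V} (h : ¬ G.Adj v v') : W G →* Equiv.Perm ℤ :=
  (cox G).toCoxeterSystem.lift ⟨img v v', img_lift G h⟩

theorem line_simple {v v' : V} (h : ¬ G.Adj v v') (u : V) : line G h ((cox G).simple u) = img v v' u :=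
  (cox G).toCoxeterSystem.lift_apply_simple (img_lift G h) u

end

/-- an ordered product with at most one nontrivial factor -/
theorem prod_single {Δ : Type} [Group Δ] {n : ℕ} (a : Fin n → Δ) (w : Fin n) (h : ∀ i, i ≠ w → a i = 1) :
    (List.ofFn a).prod = a w := by
  induction n with
  | zero => exact w.elim0
  | succ n ih =>
    rw [List.ofFn_succ, List.prod_cons]
    refine Fin.cases (motive := fun w => (∀ i, i ≠ w → a i = 1) → a 0 * (List.ofFn fun i => a i.succ).prod = a w)
      ?_ ?_ w h
    · intro h
      have h1 : (List.ofFn fun i : Fin n => a i.succ).prod = 1 := by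
        refine List.prod_eq_one fun x hx => ?_
        obtain ⟨i, rfl⟩ := List.mem_ofFn.1 hx
        exact h _ (Fin.succ_ne_zero i)
      rw [h1, mul_one]
    · intro w h
      rw [h 0 (Fin.succ_ne_zero w).symm, one_mul]
      exact ih (fun i => a i.succ) w fun i hi => h _ fun e => hi (Fin.succ_injective _ e)

theorem pr_map {Γ Δ : Type} [Group Γ] [Group Δ] (φ : Γ →* Δ) {N : ℕ} (r : Fin N → ℕ → Γ) (k : Fin N → ℕ) :
    φ (pr r k) = (List.ofFn fun v => φ (r v (k v))).prod := by
  unfold pr
  rw [map_list_prod, List.map_ofFn]
  rfl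

section

variable {V : Type} {G : SimpleGraph V} {N : ℕ} (e : V ≃ Fin N) {p : V → V}

/-- the rays: alternating products of a generator and a generator dominating it -/
noncomputable def ry (G : SimpleGraph V) (e : V ≃ Fin N) (p : V → V) (i : Fin N) (k : ℕ) : W G :=
  alt ((cox G).simple (e.symm i)) ((cox G).simple (p (e.symm i))) k

theorem adj_of_mem {σ : Finset (Fin N)} (hσ : σ ∈ clF G e) {i j : Fin N} (hi : i ∈ σ) (hj : j ∈ σ) (hij : i ≠ j) :
    G.Adj (e.symm i) (e.symm j) := by
  rw [mem_clF] at hσ
  exact hσ (by simp [hi]) (by simp [hj]) fun h => hij (e.symm.injective h)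

/-- all the generators of the rays of adjacent vertices are adjacent -/
theorem four (hp : ∀ v, Le G v (p v)) {u w : V} (h : G.Adj u w) :
    G.Adj u (p w) ∧ G.Adj (p u) w ∧ G.Adj (p u) (p w) := by
  have h1 : G.Adj u (p w) := (hp w u h.symm).symm
  have h2 : G.Adj (p u) w := hp u w h
  exact ⟨h1, h2, (hp w (p u) h2.symm).symm⟩

/-- the coordinates of a product on a simplex containing the vertex -/
theorem coord_mem (hp : ∀ v, Le G v (p v)) {σ : Finset (Fin N)} (hσ : σ ∈ clF G e) {k : Fin N → ℕ}
    (hk : ∀ v ∉ σ, k v = 0) {i : Fin N} (hi : i ∈ σ) (hne : p (e.symm i) ≠ e.symm i)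
    (hna : ¬ G.Adj (e.symm i) (p (e.symm i))) (x : ℤ) :
    line G hna (pr (ry G e p) k) x = k i + (-1) ^ k i * x := by
  rw [pr_map, prod_single _ i]
  · unfold ry
    rw [alt_map, line_simple, line_simple]
    have e1 : img (e.symm i) (p (e.symm i)) (e.symm i) = ra := if_pos rfl
    have e2 : img (e.symm i) (p (e.symm i)) (p (e.symm i)) = rb := by
      unfold img
      rw [if_neg hne, if_pos rfl]
    rw [e1, e2, alt_ra_rb]
  · intro j hj
    by_cases hjσ : j ∈ σ
    · have h1 := adj_of_mem e hσ hi hjσ hj.symm
      obtain ⟨h2, h3, h4⟩ := four hp h1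
      unfold ry
      rw [alt_map, line_simple, line_simple]
      have e1 : img (e.symm i) (p (e.symm i)) (e.symm j) = 1 := by
        unfold img
        rw [if_neg h1.ne.symm, if_neg h3.ne.symm]
      have e2 : img (e.symm i) (p (e.symm i)) (p (e.symm j)) = 1 := by
        unfold img
        rw [if_neg h2.ne.symm, if_neg h4.ne.symm]
      rw [e1, e2, alt_one_one]
    · rw [hk j hjσ]
      exact map_one _

/-- the coordinates of a product on a simplex which does not contain the vertex -/
theorem coord_notMem (hp : ∀ v, Le G v (p v)) (hpne : ∀ v, p v ≠ v) {τ : Finset (Fin N)} (hτ : τ ∈ clF G e)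
    {k : Fin N → ℕ} (hk : ∀ v ∉ τ, k v = 0) {i : Fin N} (hi : i ∉ τ)
    (hna : ¬ G.Adj (e.symm i) (p (e.symm i))) :
    line G hna (pr (ry G e p) k) 0 ≤ 1 := by
  obtain ⟨v, hv⟩ : ∃ v, v = e.symm i := ⟨_, rfl⟩
  have hval : ∀ j : Fin N, line G hna (ry G e p j (k j)) = alt (img v (p v) (e.symm j)) (img v (p v) (p (e.symm j))) (k j) := by
    intro j
    unfold ry
    rw [alt_map, line_simple, line_simple, hv]
  have hsq : ∀ u, img v (p v) u * img v (p v) u = 1 := by
    intro u
    unfold img
    split_ifs
    · exact ra_ra
    · exact rb_rb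
    · exact mul_one 1
  -- the single factor
  have hone : ∀ j : Fin N, line G hna (ry G e p j (k j)) 0 ≤ 1 := by
    intro j
    by_cases hj : j ∈ τ
    · have hji : e.symm j ≠ v := fun h => hi (by
        rw [hv] at h
        exact e.symm.injective h ▸ hj)
      rw [hval]
      have hsmall : ∀ f : Equiv.Perm ℤ, (f = 1 ∨ ∃ u, f = img v (p v) u) → f 0 ≤ 1 := by
        intro f hf
        rcases hf with rfl | ⟨u, rfl⟩
        · exact zero_le_one
        · unfold img
          split_ifs
          · rw [ra_apply]; norm_num
          · rw [rb_apply]; norm_num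
          · exact zero_le_one
      by_cases h1 : e.symm j = p v
      · have e1 : img v (p v) (e.symm j) = rb := by
          unfold img
          rw [if_neg hji, if_pos h1]
        by_cases h2 : p (e.symm j) = v
        · have e2 : img v (p v) (p (e.symm j)) = ra := by
            unfold img
            rw [if_pos h2]
          rw [e1, e2, alt_rb_ra, mul_zero, add_zero]
          have : (0 : ℤ) ≤ (k j : ℤ) := Int.natCast_nonneg _
          omega
        · have e2 : img v (p v) (p (e.symm j)) = 1 := by
            unfold img
            rw [if_neg h2, if_neg]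
            rw [← h1]
            exact hpne _
          rw [e2]
          refine hsmall _ ?_
          rcases alt_one_right (hsq (e.symm j)) (k j) with h | h
          · exact Or.inl h
          · exact Or.inr ⟨_, h⟩
      · have e1 : img v (p v) (e.symm j) = 1 := by
          unfold img
          rw [if_neg hji, if_neg h1]
        rw [e1]
        refine hsmall _ ?_
        rcases alt_one_left (hsq (p (e.symm j))) (k j) with h | h
        · exact Or.inl h
        · exact Or.inr ⟨_, h⟩
    · rw [hk j hj]
      show line G hna 1 0 ≤ 1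
      rw [map_one]
      exact zero_le_one
  rw [pr_map]
  by_cases hex : ∃ j, line G hna (ry G e p j (k j)) ≠ 1
  · obtain ⟨j, hj⟩ := hex
    rw [prod_single _ j]
    · exact hone j
    · intro l hl
      by_contra hl2
      have hmem : ∀ m, line G hna (ry G e p m (k m)) ≠ 1 → m ∈ τ ∧
          ∃ x, (x = e.symm m ∨ x = p (e.symm m)) ∧ (x = v ∨ x = p v) := by
        intro m hm
        refine ⟨?_, ?_⟩
        · by_contra h1
          rw [hk m h1] at hm
          exact hm (map_one _)
        · by_contra h1
          push Not at h1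
          have a1 := h1 _ (Or.inl rfl)
          have a2 := h1 _ (Or.inr rfl)
          rw [hval] at hm
          have e1 : img v (p v) (e.symm m) = 1 := by
            unfold img
            rw [if_neg a1.1, if_neg a1.2]
          have e2 : img v (p v) (p (e.symm m)) = 1 := by
            unfold img
            rw [if_neg a2.1, if_neg a2.2]
          rw [e1, e2, alt_one_one] at hm
          exact hm rfl
      obtain ⟨h1, x, hx, hx'⟩ := hmem j hj
      obtain ⟨h2, y, hy, hy'⟩ := hmem l hl2
      have h3 := adj_of_mem e hτ h1 h2 hl.symm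
      obtain ⟨h4, h5, h6⟩ := four hp h3
      have hxy : G.Adj x y := by
        rcases hx with rfl | rfl <;> rcases hy with rfl | rfl
        · exact h3
        · exact h4
        · exact h5
        · exact h6
      rw [← hv] at hna
      rcases hx' with rfl | rfl <;> rcases hy' with rfl | rfl
      · exact hxy.ne rfl
      · exact hna hxy
      · exact hna hxy.symm
      · exact hxy.ne rfl
  · push Not at hex
    have h1 : (List.ofFn fun v => line G hna (ry G e p v (k v))).prod = 1 := by
      refine List.prod_eq_one fun x hx => ?_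
      obtain ⟨j, rfl⟩ := List.mem_ofFn.1 hx
      exact hex j
    rw [h1]
    exact zero_le_one

/-- the rays in the right-angled Coxeter group of a graph in which every vertex is dominated by another vertex -/
theorem rays_cox [Finite V] (hp : ∀ v, Le G v (p v)) (hpne : ∀ v, p v ≠ v) : Rays (clF G e) (ry G e p) := by
  classical
  have hna : ∀ v, ¬ G.Adj v (p v) := fun v => (hp v).not_adj (Le.refl G (p v))
  refine ⟨fun v => rfl, ?_, ?_, ?_⟩
  · refine ⟨Set.range (cox G).simple, Set.finite_range _, fun v k => ?_⟩
    show (alt _ _ k)⁻¹ * (alt _ _ k * if Even k then _ else _) ∈ _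
    rw [inv_mul_cancel_left]
    split_ifs
    · exact ⟨_, rfl⟩
    · exact ⟨_, rfl⟩
  · intro σ hσ u hu v hv huv k l
    have h1 := adj_of_mem e hσ hu hv huv
    obtain ⟨h2, h3, h4⟩ := four hp h1
    refine (alt_commute ?_ ?_ k)
    · exact (alt_commute (simple_comm G h1).symm (simple_comm G h2).symm l).symm
    · exact (alt_commute (simple_comm G h3).symm (simple_comm G h4).symm l).symm
  · intro F hF
    obtain ⟨R, hR⟩ : ∃ R : ℕ, ∀ g ∈ F ∪ F⁻¹, ∀ v, |line G (hna v) g 0| ≤ R := by
      have hfin : (Set.image2 (fun g v => |line G (hna v) g 0|) (F ∪ F⁻¹) (Set.univ : Set V)).Finite :=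
        Set.Finite.image2 _ (hF.union hF.inv) (Set.toFinite _)
      obtain ⟨b, hb⟩ := hfin.bddAbove
      refine ⟨b.toNat, fun g hg v => ?_⟩
      have h1 : |line G (hna v) g 0| ≤ b := hb ⟨g, hg, v, Set.mem_univ _, rfl⟩
      exact h1.trans (Int.self_le_toNat b)
    have key : ∀ σ ∈ clF G e, ∀ τ ∈ clF G e, Disjoint σ τ → ∀ k k' : Fin N → ℕ, (∀ v ∉ σ, k v = 0) →
        (∀ v ∉ τ, k' v = 0) → (pr (ry G e p) k)⁻¹ * pr (ry G e p) k' ∈ F ∪ F⁻¹ → ∀ v, k v ≤ R + 1 := by
      intro σ hσ τ hτ hd k k' hk hk' hmem i
      by_cases hi : i ∈ σ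
      · have hiτ : i ∉ τ := Finset.disjoint_left.1 hd hi
        have h1 := hR _ hmem (e.symm i)
        rw [map_mul, map_inv, Equiv.Perm.mul_apply] at h1
        have h2 := coord_notMem e hp hpne hτ hk' hiτ (hna (e.symm i))
        obtain ⟨y, hy⟩ : ∃ y, y = line G (hna (e.symm i)) (pr (ry G e p) k') 0 := ⟨_, rfl⟩
        rw [← hy] at h1 h2
        obtain ⟨z, hz⟩ : ∃ z, z = (line G (hna (e.symm i)) (pr (ry G e p) k))⁻¹ y := ⟨_, rfl⟩
        rw [← hz] at h1
        have h3 : line G (hna (e.symm i)) (pr (ry G e p) k) z = y := by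
          rw [hz, ← Equiv.Perm.mul_apply, mul_inv_cancel, Equiv.Perm.one_apply]
        rw [coord_mem e hp hσ hk hi (hpne _) (hna _)] at h3
        have h4 : |(-1) ^ k i * z| ≤ R := by
          rw [abs_mul, abs_pow, abs_neg, abs_one, one_pow, one_mul]
          exact h1
        rw [abs_le] at h4
        omega
      · rw [hk i hi]
        omega
    refine ⟨R + 1, fun σ hσ τ hτ hd k k' hk hk' hmem v => ⟨?_, ?_⟩⟩
    · exact key σ hσ τ hτ hd k k' hk hk' (Or.inl hmem) v
    · refine key τ hτ σ hσ hd.symm k' k hk' hk (Or.inr ?_) v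
      rw [Set.mem_inv, mul_inv_rev, inv_inv]
      exact hmem

end

end Pool.Agent.H815.TW
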