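import Pool.Agent.H815.TW.UniEv

/-!
# Homology of a doubled full subcomplex gives a symmetric cycle, in all degrees
-/

set_option autoImplicit false

namespace Pool.Agent.H815.TW

open Finset Pool.Agent.W555.KS Pool.Agent.Y131.KS

variable {n : ℕ}

/-- the projection to the vertices of the doubled graph -/
def gg (f : Fin n → Fin n) (x : Fin (2 * n)) : Fin n :=
  if (x : ℕ) % 2 = 0 then ⟨(x : ℕ) / 2, by omega⟩ else f ⟨(x : ℕ) / 2, by omega⟩

theorem gg_lv (f : Fin n → Fin n) (S : Finset (Fin n)) (v : Fin n) : gg f (lv S v) = if v ∈ S then f v else v := by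
  unfold gg
  by_cases h : v ∈ S
  · have h1 : (lv S v : ℕ) = 2 * v + 1 := by rw [lv_val, if_pos h]
    rw [if_pos h, if_neg (by omega)]
    congr 1
    refine Fin.ext ?_
    show (lv S v : ℕ) / 2 = v
    omega
  · have h1 : (lv S v : ℕ) = 2 * v := by rw [lv_val, if_neg h, add_zero]
    rw [if_neg h, if_pos (by omega)]
    refine Fin.ext ?_
    show (lv S v : ℕ) / 2 = v
    omega

/-- a chain and a cocycle -/
theorem exists_phi {G : SimpleGraph (Fin n)} {A : Finset (Fin n)} {i : ℕ} (h : ¬ Ex G A i) :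
    ∃ z φ : Finset (Fin n) → ZMod 2, Ch G A i z ∧ b1 z = 0 ∧ (∀ F, φ F ≠ 0 → F.card = i) ∧
      (∀ X : Finset (Fin n), X ⊆ A → G.IsClique (X : Set (Fin n)) → X.card = i + 1 → ∑ v ∈ X, φ (X.erase v) = 0) ∧
      ∑ F, φ F * z F = 1 := by
  classical
  unfold Ex at h
  push Not at h
  obtain ⟨z, hz, hb, hne⟩ := h
  obtain ⟨B, hB⟩ : ∃ B : Submodule (ZMod 2) (Finset (Fin n) → ZMod 2), ∀ y, y ∈ B ↔ ∃ w, Ch G A (i + 1) w ∧ b1 w = y := by
    refine ⟨{ carrier := {y | ∃ w, Ch G A (i + 1) w ∧ b1 w = y}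
              add_mem' := ?_
              zero_mem' := ?_
              smul_mem' := ?_ }, fun y => Iff.rfl⟩
    · rintro a b ⟨w, hw, rfl⟩ ⟨w', hw', rfl⟩
      exact ⟨w + w', hw.add hw', b1_add w w'⟩
    · exact ⟨0, Ch.zero _ _ _, b1_zero⟩
    · rintro c y ⟨w, hw, rfl⟩
      rcases (by decide : ∀ c : ZMod 2, c = 0 ∨ c = 1) c with rfl | rfl
      · exact ⟨0, Ch.zero _ _ _, by rw [b1_zero, zero_smul]⟩
      · exact ⟨w, hw, by rw [one_smul]⟩
  have hzB : z ∉ B := by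
    rw [hB]
    rintro ⟨w, hw, h1⟩
    exact hne w hw h1
  obtain ⟨ℓ, hℓ, hℓB⟩ := Submodule.exists_le_ker_of_notMem hzB
  have hℓ1 : ℓ z = 1 := (by decide : ∀ c : ZMod 2, c ≠ 0 → c = 1) _ hℓ
  obtain ⟨φ, hφ⟩ : ∃ φ : Finset (Fin n) → ZMod 2, φ = fun (F : Finset (Fin n)) =>
      if G.IsClique (F : Set (Fin n)) ∧ F ⊆ A ∧ F.card = i then ℓ (Pi.single F 1) else 0 := ⟨_, rfl⟩
  refine ⟨z, φ, hz, hb, ?_, ?_, ?_⟩
  · intro F hF
    rw [hφ] at hF
    simp only at hF
    split_ifs at hF with h1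
    · exact h1.2.2
    · exact absurd rfl hF
  · intro X hX hc hcard
    have e1 : ∀ v ∈ X, φ (X.erase v) = ℓ (Pi.single (X.erase v) 1) := by
      intro v hv
      rw [hφ]
      simp only
      rw [if_pos]
      refine ⟨hc.subset (by exact_mod_cast erase_subset v X), (erase_subset v X).trans hX, ?_⟩
      rw [card_erase_of_mem hv, hcard]
      rfl
    rw [sum_congr rfl e1, ← map_sum]
    have e2 : ∑ v ∈ X, (Pi.single (X.erase v) 1 : Finset (Fin n) → ZMod 2) = b1 (Pi.single X 1) := by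
      funext ρ
      rw [Finset.sum_apply]
      show _ = ∑ v ∈ ρᶜ, (Pi.single X 1 : Finset (Fin n) → ZMod 2) (insert v ρ)
      simp only [Pi.single_apply]
      rw [← sum_filter, ← sum_filter]
      refine sum_congr ?_ fun _ _ => rfl
      ext v
      rw [mem_filter, mem_filter, mem_compl]
      constructor
      · rintro ⟨h1, rfl⟩
        exact ⟨notMem_erase _ _, insert_erase h1⟩
      · rintro ⟨h1, rfl⟩
        exact ⟨mem_insert_self _ _, (erase_insert h1).symm⟩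
    rw [e2]
    refine LinearMap.mem_ker.1 (hℓB ((hB _).2 ⟨_, ?_, rfl⟩))
    intro σ hσ
    rw [Pi.single_apply] at hσ
    split_ifs at hσ with h1
    · subst h1
      exact ⟨hc, hX, hcard⟩
    · exact absurd rfl hσ
  · rw [← hℓ1]
    have e1 : z = ∑ F, z F • (Pi.single F 1 : Finset (Fin n) → ZMod 2) := by
      funext F
      rw [Finset.sum_apply, sum_eq_single F]
      · rw [Pi.smul_apply, Pi.single_eq_same, smul_eq_mul, mul_one]
      · intro F' _ hF'
        rw [Pi.smul_apply, Pi.single_eq_of_ne hF'.symm, smul_zero]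
      · intro h; exact absurd (mem_univ _) h
    conv_rhs => rw [e1]
    rw [map_sum]
    refine sum_congr rfl fun F _ => ?_
    rw [map_smul, smul_eq_mul, mul_comm]
    by_cases hF : z F = 0
    · rw [hF, zero_mul, zero_mul]
    · rw [hφ]
      simp only
      rw [if_pos (hz F hF)]

/-- **A symmetric cycle.** -/
theorem core_full {G : SimpleGraph (Fin n)} {f : Fin n → Fin n} {A : Finset (Fin n)} (hf : Dbl G f A) {i : ℕ}
    (h : ¬ Ex G A i) : Has G f A (2 * i) := by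
  obtain ⟨z, φ, hz, hb, hφ, hc, h1⟩ := exists_phi h
  obtain ⟨ψ, hψ0, hψ1, hψ2⟩ := exists_psi G A i φ hφ hc
  have h0 : ∀ K, ψ K ≠ 0 → G.IsClique (K : Set (Fin n)) := fun K hK => (hψ0 K hK).2.1
  have hsy : Sy (2 * i) (uZ G ψ z) := uZ_sy h0 hψ2 hz hb
  have hev : ev (2 * i) (uZ G ψ z) = 1 := by
    rw [ev_uZ hz fun K hK => (hψ0 K hK).2.2, ← h1]
    refine sum_congr rfl fun K _ => ?_
    by_cases hK : z K = 0
    · rw [hK, mul_zero, mul_zero]
    · rw [hψ1 K (hz K hK).2.1 (hz K hK).1 (hz K hK).2.2]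
  -- the images of the sets of the support
  have key : ∀ (σ S : Finset (Fin n)), G.IsClique (σ : Set (Fin n)) → σ ⊆ A →
      G.IsClique (((σ.image (lv S)).image (gg f) : Finset (Fin n)) : Set (Fin n)) ∧
      (σ.image (lv S)).image (gg f) ⊆ A ∪ A.image f := by
    intro σ S hσ hA
    constructor
    · intro x hx y hy hxy
      rw [mem_coe, mem_image] at hx hy
      obtain ⟨x', hx', rfl⟩ := hx
      obtain ⟨y', hy', rfl⟩ := hy
      obtain ⟨u, hu, rfl⟩ := mem_image.1 hx'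
      obtain ⟨v, hv, rfl⟩ := mem_image.1 hy'
      have huv : u ≠ v := fun e => hxy (by rw [e])
      have hadj : G.Adj u v := hσ hu hv huv
      rw [gg_lv, gg_lv]
      split_ifs
      · exact hf.adj2 u (hA hu) v (hA hv) hadj
      · exact (hf.adj v (hA hv) u (hA hu) hadj.symm).symm
      · exact hf.adj u (hA hu) v (hA hv) hadj
      · exact hadj
    · intro x hx
      obtain ⟨x', hx', rfl⟩ := mem_image.1 hx
      obtain ⟨u, hu, rfl⟩ := mem_image.1 hx'
      rw [gg_lv]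
      split_ifs
      · exact mem_union_right _ (mem_image_of_mem f (hA hu))
      · exact mem_union_left _ (hA hu)
  have hgs : Gs (gg f) (uZ G ψ z) := by
    intro σ' τ' hne
    refine ⟨uZ_disj h0 hz hne, ?_⟩
    obtain ⟨σ, τ, K, S, hσ, hτ, hK, hKs, hS, rfl, rfl⟩ := uZ_ne h0 hne
    have hσ' := hz σ hσ
    have hτ' := hz τ hτ
    obtain ⟨T, hT⟩ : ∃ T, T = K \ S ∪ nK G K := ⟨_, rfl⟩
    rw [← hT]
    -- the elements of the two sets
    have hel : ∀ x ∈ σ.image (lv S) ∪ τ.image (lv T), ∃ u ∈ A, (x = lv ∅ u ∧ gg f x = u) ∨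
        (x = lv univ u ∧ gg f x = f u ∧ ((u ∈ σ ∧ u ∈ S) ∨ (u ∈ τ ∧ u ∈ T))) := by
      intro x hx
      rcases mem_union.1 hx with hx | hx
      · obtain ⟨u, hu, rfl⟩ := mem_image.1 hx
        refine ⟨u, hσ'.2.1 hu, ?_⟩
        rw [gg_lv]
        by_cases h2 : u ∈ S
        · right
          rw [if_pos h2]
          exact ⟨lv_eq.2 ⟨rfl, by simp [h2]⟩, rfl, Or.inl ⟨hu, h2⟩⟩
        · left
          rw [if_neg h2]
          exact ⟨lv_eq.2 ⟨rfl, by simp [h2]⟩, rfl⟩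
      · obtain ⟨u, hu, rfl⟩ := mem_image.1 hx
        refine ⟨u, hτ'.2.1 hu, ?_⟩
        rw [gg_lv]
        by_cases h2 : u ∈ T
        · right
          rw [if_pos h2]
          exact ⟨lv_eq.2 ⟨rfl, by simp [h2]⟩, rfl, Or.inr ⟨hu, h2⟩⟩
        · left
          rw [if_neg h2]
          exact ⟨lv_eq.2 ⟨rfl, by simp [h2]⟩, rfl⟩
    have hmix : ∀ u v, u ∈ S → v ∈ T → u ≠ v → G.Adj u v := by
      intro u v hu hv huv
      rw [hT, mem_union, mem_sdiff] at hv
      rcases hv with hv | hv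
      · exact hK (hS hu) hv.1 huv
      · exact (mem_nK.1 hv u (hS hu)).symm
    intro x hx y hy hxy
    rw [mem_coe] at hx hy
    obtain ⟨u, huA, hu⟩ := hel x hx
    obtain ⟨v, hvA, hv⟩ := hel y hy
    rcases hu with ⟨hu1, hu2⟩ | ⟨hu1, hu2, hu3⟩ <;> rcases hv with ⟨hv1, hv2⟩ | ⟨hv1, hv2, hv3⟩
    · rw [hu1, hv1, ← hu2, ← hv2, hxy]
    · rw [hu2, hv2] at hxy
      exact absurd (hxy ▸ huA) (hf.out v hvA)
    · rw [hu2, hv2] at hxy
      exact absurd (hxy ▸ hvA) (hf.out u huA)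
    · rw [hu2, hv2] at hxy
      by_cases huv : u = v
      · rw [hu1, hv1, huv]
      · have hadj : G.Adj u v := by
          rcases hu3 with hu3 | hu3 <;> rcases hv3 with hv3 | hv3
          · exact hσ'.1 hu3.1 hv3.1 huv
          · exact hmix u v hu3.2 hv3.2 huv
          · exact (hmix v u hv3.2 hu3.2 (Ne.symm huv)).symm
          · exact hτ'.1 hu3.1 hv3.1 huv
        exact absurd hxy (hf.adj2 u huA v hvA hadj).ne
  refine ⟨pf (gg f) (uZ G ψ z), ⟨?_, ?_, ?_, ?_, ?_, ?_⟩, ?_⟩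
  · rw [sw_pf, hsy.sym]
  · rw [dd_pf hgs, hsy.cyc, pf_zero]
  · intro σ τ hne
    obtain ⟨σ', τ', h2, rfl, rfl⟩ := pf_ne hne
    have h3 := hgs _ _ h2
    rw [disjoint_left]
    intro x hx hx'
    obtain ⟨a, ha, rfl⟩ := mem_image.1 hx
    obtain ⟨b, hb', hab⟩ := mem_image.1 hx'
    have h4 : b = a := h3.2 (by exact_mod_cast mem_union_right _ hb') (by exact_mod_cast mem_union_left _ ha) hab
    exact disjoint_left.1 h3.1 ha (h4 ▸ hb')
  · intro σ τ hne
    obtain ⟨σ', τ', h2, rfl, rfl⟩ := pf_ne hne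
    have h3 := (hgs _ _ h2).2
    rw [card_image_of_injOn, card_image_of_injOn]
    · exact hsy.deg _ _ h2
    · exact h3.mono (by exact_mod_cast subset_union_right)
    · exact h3.mono (by exact_mod_cast subset_union_left)
  · intro σ' τ' hne
    obtain ⟨σ'', τ'', h2, rfl, rfl⟩ := pf_ne hne
    obtain ⟨σ, τ, K, S, hσ, hτ, hK, hKs, hS, rfl, rfl⟩ := uZ_ne h0 h2
    exact (key σ S (hz σ hσ).1 (hz σ hσ).2.1).1
  · intro σ' τ' hne
    obtain ⟨σ'', τ'', h2, rfl, rfl⟩ := pf_ne hne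
    obtain ⟨σ, τ, K, S, hσ, hτ, hK, hKs, hS, rfl, rfl⟩ := uZ_ne h0 h2
    exact (key σ S (hz σ hσ).1 (hz σ hσ).2.1).2
  · rw [ev_pf (2 * i) _ hsy hgs, hev]

end Pool.Agent.H815.TW
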