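import Pool.Agent.H815.TW.Odd2
import Pool.Agent.H815.TW.Cox
import Pool.Agent.H815.TW.Full
import Pool.Graph.R_seed8.R782.Bal.Emb

/-!
# The vanishing theorem
-/

set_option autoImplicit false
set_option linter.unusedSectionVars false

namespace Pool.Agent.H815.TW

open Finset Pool.Agent.W907.SG Pool.Agent.W907.SM Pool.Agent.R782.Bal Pool.Agent.W555.KS Pool.Agent.Y131.KS
  Pool.Agent.R703.MO

/-- The flag complex of `G` is almost embedded in a sphere of dimension `n - 1` in one of the following two ways. -/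
inductive Nerve (n : ℕ) {V : Type} (G : SimpleGraph V) : Prop
  /-- The flag complex of `G` is isomorphic to a subcomplex of a simplicial complex `K` of dimension `m - 1 ≤ n - 1`
  which is a homology manifold over the field with two elements with the homology of the `(m-1)`-sphere. -/
  | sphere {N m : ℕ} (K : Finset (Finset (Fin N))) (f : V ↪ Fin N) : m ≤ n → Pool.Agent.Y131.KS.HSph K m →
      (∀ T : Finset V, G.IsClique (T : Set V) → T.map f ∈ K) → Nerve n G
  /-- There is a continuous map from the geometric realization of the flag complex of `G` to the unit sphere of the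
  euclidean space of dimension `n` for which disjoint simplices have disjoint images. -/
  | unit (F : (V → ℝ) → EuclideanSpace ℝ (Fin n)) : ContinuousOn F (Rea G) → (∀ x ∈ Rea G, ‖F x‖ = 1) →
      (∀ x ∈ Rea G, ∀ y ∈ Rea G, (∀ v, x v = 0 ∨ y v = 0) → F x ≠ F y) → Nerve n G

theorem Nerve.vk2 {n : ℕ} {V : Type} {G : SimpleGraph V} (h : Nerve n G) {N : ℕ} (e : V ≃ Fin N) :
    VK2 (clF G e) (n + 1) := by
  classical
  cases h with
  | @sphere N' m K f hn hK hf =>
    refine vk2_le (clF_cx G e) (D := m + 1) (by omega) ?_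
    refine vk2_of_sphere hK (e.symm.toEmbedding.trans f) fun σ hσ => ?_
    rw [← map_map]
    exact hf _ (mem_clF.mp hσ)
  | unit F hF hn hinj =>
    have hmem : ∀ x ∈ Pool.Agent.W289.KS.rea (clF G e), (fun v => x (e v)) ∈ Rea G := by
      rintro x ⟨h1, h2, σ, hσ, h3⟩
      refine ⟨fun v => h1 _, ?_, ?_⟩
      · have : Fintype V := Fintype.ofEquiv _ e.symm
        rw [finsum_eq_sum_of_fintype, ← h2]
        exact Fintype.sum_equiv e _ _ fun v => rfl
      · have h4 := mem_clF.mp hσ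
        refine h4.subset ?_
        intro v hv
        rw [mem_coe, mem_map]
        refine ⟨e v, ?_, e.symm_apply_apply v⟩
        by_contra h5
        exact hv (h3 _ h5)
    have hC : ConeEmb (clF G e) n := by
      refine cone_of_almost _ (fun x => F fun v => x (e v)) ?_ ?_ ?_
      · refine hF.comp (Continuous.continuousOn ?_) hmem
        exact continuous_pi fun v => continuous_apply _
      · intro x hx
        exact hn _ (hmem x hx)
      · intro x hx y hy hxy
        exact hinj _ (hmem x hx) _ (hmem y hy) (fun v => hxy (e v))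
    exact vk2_of_odd (clF_cx G e) (odd_of_coneEmb (clF_cx G e) hC)

/-- all symmetric cycles with nonzero evaluation have at most `n` vertices -/
def Bd {N : ℕ} (n : ℕ) (H : SimpleGraph (Fin N)) : Prop :=
  ∀ (D : ℕ) (B : Finset (Fin N)) (Z : PC N), SC H B D Z → ev D Z = 1 → D ≤ n

theorem bd_of_vk2 {N n : ℕ} {H : SimpleGraph (Fin N)} {L : Finset (Finset (Fin N))} (hL : IsCx L)
    (hc : ∀ σ : Finset (Fin N), H.IsClique (σ : Set (Fin N)) → σ ∈ L) (h : VK2 L (n + 1)) : Bd n H := by
  intro D B Z hZ he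
  by_contra h1
  have h2 := vk2_le hL (D' := D) (by omega) h Z (fun σ τ => congrFun (congrFun hZ.sym τ) σ)
    (fun σ τ hne => ⟨hc _ (hZ.cl _ _ hne), hc _ (hZ.cl' _ _ hne)⟩)
    (fun ρ τ _ _ => congrFun (congrFun hZ.cyc ρ) τ)
  have h3 : ev D Z = 0 := h2
  rw [he] at h3
  exact one_ne_zero h3

theorem bd_of_vk2_jn {N n : ℕ} {H : SimpleGraph (Fin N)} {L : Finset (Finset (Fin N))} (hL : IsCx L)
    (hc : ∀ σ : Finset (Fin N), H.IsClique (σ : Set (Fin N)) → σ ∈ L) (h : VK2 (jn L) (2 * n + 1)) : Bd n H := by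
  intro D B Z hZ he
  by_contra h1
  exact not_vk2_jn hc hZ he (vk2_le (jn_cx hL) (D' := D + D) (by omega) h)

/-- exactness of doubled full subcomplexes -/
theorem ex_of_bd {N n : ℕ} {H : SimpleGraph (Fin N)} (hb : Bd n H) {A : Finset (Fin N)} {f : Fin N → Fin N}
    (hf : Dbl H f A) {i : ℕ} (hi : n < 2 * i) : Ex H A i := by
  by_contra hne
  obtain ⟨Z, h1, h2⟩ := core_full hf hne
  have := hb _ _ Z h1 h2
  omega

section

variable {V : Type} {G : SimpleGraph V} {N : ℕ} (e : V ≃ Fin N)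

/-- the graph on `Fin N` -/
def tr (G : SimpleGraph V) (e : V ≃ Fin N) : SimpleGraph (Fin N) := G.comap e.symm

theorem tr_adj {i j : Fin N} : (tr G e).Adj i j ↔ G.Adj (e.symm i) (e.symm j) := Iff.rfl

theorem tr_clique {σ : Finset (Fin N)} : (tr G e).IsClique (σ : Set (Fin N)) ↔ σ ∈ clF G e := by
  rw [mem_clF]
  constructor
  · intro h a ha b hb hab
    rw [mem_coe, mem_map] at ha hb
    obtain ⟨a', ha', rfl⟩ := ha
    obtain ⟨b', hb', rfl⟩ := hb
    exact h ha' hb' fun h1 => hab (by rw [h1])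
  · intro h a ha b hb hab
    exact h (by simpa using ha) (by simpa using hb) fun h1 => hab (e.symm.injective h1)

theorem tr_dom (h : Dom G) : Dom (tr G e) := by
  intro i
  obtain ⟨v', h1, h2⟩ := h (e.symm i)
  refine ⟨e v', fun h3 => h1 ?_, fun j hj => ?_⟩
  · rw [← h3, e.symm_apply_apply]
  · rw [tr_adj, e.symm_apply_apply]
    exact h2 _ hj

theorem alt_even {Γ : Type} [Group Γ] (a b : Γ) (k : ℕ) : alt a b (2 * k) = (a * b) ^ k := by
  induction k with
  | zero => rw [mul_zero, pow_zero]; rfl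
  | succ k ih =>
    have e1 : 2 * (k + 1) = 2 * k + 1 + 1 := by ring
    rw [e1]
    show alt a b (2 * k) * (if Even (2 * k) then a else b) * (if Even (2 * k + 1) then a else b) = _
    rw [ih, if_pos (by simp), if_neg (by simp), pow_succ, mul_assoc]

/-- the rays in a subgroup of finite index -/
theorem rays_sub [Finite V] {p : V → V} (hp : ∀ v, Le G v (p v)) (hpne : ∀ v, p v ≠ v) (H : Subgroup (W G))
    [H.FiniteIndex] : ∃ r : Fin N → ℕ → H, Rays (clF G e) r := by
  obtain ⟨m, hm0, hm⟩ : ∃ m : ℕ, 0 < m ∧ ∀ x : W G, x ^ m ∈ H := by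
    refine ⟨H.index.factorial, Nat.factorial_pos _, fun x => ?_⟩
    exact Subgroup.pow_mem_of_index_ne_zero_of_dvd Subgroup.FiniteIndex.index_ne_zero x
      (fun j hj hj' => Nat.dvd_factorial hj hj')
  have hr := rays_cox e hp hpne
  have hmem : ∀ (i : Fin N) (k : ℕ), ry G e p i (2 * m * k) ∈ H := by
    intro i k
    unfold ry
    rw [mul_assoc, alt_even, pow_mul]
    exact H.pow_mem (hm _) k
  obtain ⟨r, hrdef⟩ : ∃ r : Fin N → ℕ → H, r = fun i k => ⟨ry G e p i (2 * m * k), hmem i k⟩ := ⟨_, rfl⟩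
  have hval : ∀ i k, (r i k : W G) = ry G e p i (2 * m * k) := fun i k => by rw [hrdef]
  have hpr : ∀ k : Fin N → ℕ, ((pr r k : H) : W G) = pr (ry G e p) (fun v => 2 * m * k v) := by
    intro k
    have h1 := pr_map H.subtype r k
    rw [Subgroup.coe_subtype] at h1
    rw [h1]
    unfold pr
    congr 1
    congr 1
    funext v
    exact hval v (k v)
  refine ⟨r, fun v => Subtype.ext ?_, ?_, ?_, ?_⟩
  · rw [hval, mul_zero]
    exact hr.zero v
  · refine ⟨Set.range fun i : Fin N => r i 1, Set.finite_range _, fun i k => ⟨i, Subtype.ext ?_⟩⟩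
    show (r i 1 : W G) = ((r i k : W G))⁻¹ * (r i (k + 1) : W G)
    rw [hval, hval, hval]
    unfold ry
    rw [eq_inv_mul_iff_mul_eq, mul_assoc 2 m 1, mul_assoc 2 m k, mul_assoc 2 m (k + 1), alt_even, alt_even, alt_even,
      ← pow_add]
    congr 1
    ring
  · intro σ hσ u hu v hv huv k l
    refine Subtype.ext ?_
    show (r u k : W G) * (r v l : W G) = (r v l : W G) * (r u k : W G)
    rw [hval, hval]
    exact hr.comm σ hσ u hu v hv huv _ _
  · intro F hF
    obtain ⟨R, hR⟩ := hr.div ((fun h : H => (h : W G)) '' F) (hF.image _)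
    refine ⟨R, fun σ hσ τ hτ hd k k' hk hk' hmem v => ?_⟩
    have h1 := hR σ hσ τ hτ hd (fun v => 2 * m * k v) (fun v => 2 * m * k' v)
      (fun v hv => by simp [hk v hv]) (fun v hv => by simp [hk' v hv]) ⟨_, hmem, by
        show (((pr r k)⁻¹ * pr r k' : H) : W G) = _
        rw [Subgroup.coe_mul, Subgroup.coe_inv, hpr, hpr]⟩ v
    have h2 : ∀ a : ℕ, 2 * m * a ≤ R → a ≤ R := by
      intro a ha
      have h3 : 1 * a ≤ 2 * m * a := Nat.mul_le_mul_right a (by omega)
      omega
    exact ⟨h2 _ h1.1, h2 _ h1.2⟩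

/-- the obstruction for proper actions of a subgroup of finite index of the right-angled Coxeter group -/
theorem bd_of_acts [Finite V] (h : Dom G) {n : ℕ} (H : Subgroup (W G)) [H.FiniteIndex] (ha : Acts n H) :
    Bd n (tr G e) := by
  obtain ⟨M, _, _, _, _, hP, ι, hι, hι2⟩ := ha
  choose p hp1 hp2 using h
  obtain ⟨r, hr⟩ := rays_sub e hp2 hp1 H
  exact bd_of_vk2_jn (clF_cx G e) (fun σ hσ => (tr_clique e).1 hσ) (vk2_of_rays hP (clF_cx G e) hr ι hι hι2)

theorem bd_of_nerve {n : ℕ} (ha : Nerve n G) : Bd n (tr G e) :=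
  bd_of_vk2 (clF_cx G e) (fun σ hσ => (tr_clique e).1 hσ) (ha.vk2 e)

end

theorem van_of_bd {V : Type} [Fintype V] [LinearOrder V] (G : SimpleGraph V) (hd : Dom G) {N : ℕ} (e : V ≃ Fin N)
    {n i : ℕ} (hb : Bd n (tr G e)) (hi : n < 2 * i) : L2Van G i := by
  have h1 : L2Van (tr G e) i := van_of_ex _ (tr_dom e hd) i fun _ _ hf => ex_of_bd hb hf hi
  have h2 : LV G i := liso _ _ (tr G e) G i ⟨⟨e.symm, Iff.rfl⟩⟩ (lv_of h1)
  exact h2 _ _

/-- **The vanishing theorem.** -/
theorem vanishing {V : Type} [Fintype V] [LinearOrder V] (G : SimpleGraph V) (hd : Dom G) {n i : ℕ}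
    (ha : Nerve n G ∨ ∃ H : Subgroup (W G), H.FiniteIndex ∧ Acts n H) (hi : n < 2 * i) : L2Van G i := by
  obtain ⟨e⟩ : Nonempty (V ≃ Fin (Fintype.card V)) := ⟨Fintype.equivFin V⟩
  refine van_of_bd G hd e ?_ hi
  rcases ha with ha | ⟨H, _, ha⟩
  · exact bd_of_nerve e ha
  · exact bd_of_acts e hd H ha

/-- restriction of an action to a subgroup -/
theorem Acts.of_hom {n : ℕ} {Γ Γ' : Type} [Group Γ] [Group Γ'] (φ : Γ' →* Γ) (hφ : Function.Injective φ)
    (h : Acts n Γ) : Acts n Γ' := by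
  obtain ⟨M, tM, aM, hc, hM, hP, hι⟩ := h
  let a' : MulAction Γ' M := MulAction.compHom M φ
  refine ⟨M, tM, a', ⟨fun g => hc.continuous_const_smul (φ g)⟩, hM, fun C hC => ?_, hι⟩
  have h1 : (φ ⁻¹' {g : Γ | ∃ m ∈ C, g • m ∈ C}).Finite := (hP C hC).preimage hφ.injOn
  exact h1

/-- The vanishing theorem for the groups which contain a subgroup of finite index of the Coxeter group. -/
theorem vanishing_hom {V : Type} [Fintype V] [LinearOrder V] (G : SimpleGraph V) (hd : Dom G) {n i : ℕ}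
    (H : Subgroup (W G)) (hH : H.FiniteIndex) (Γ : Type) [Group Γ] (φ : H →* Γ) (hφ : Function.Injective φ)
    (ha : Acts n Γ) (hi : n < 2 * i) : L2Van G i :=
  vanishing G hd (Or.inr ⟨H, hH, ha.of_hom φ hφ⟩) hi

end Pool.Agent.H815.TW
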