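import Pool.Agent.H815.TW.Main

/-!
# Right-angled Artin groups
-/

set_option autoImplicit false
set_option linter.unusedSectionVars false

namespace Pool.Agent.H815.TW

open Pool.Agent.W907.SG Pool.Agent.R782.Bal Pool.Agent.W555.KS Pool.Agent.Y131.KS Pool.Agent.R703.MO

section

variable {V : Type} {L : SimpleGraph V} {Γ : Type} [Group Γ] (T : Tori L Γ) {N : ℕ} (e : V × Bool ≃ Fin N)

/-- the rays -/
def ra2 (i : Fin N) (k : ℕ) : Γ := T.g (e.symm i).1 ^ (if (e.symm i).2 then (k : ℤ) else -(k : ℤ))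

open Classical in
theorem coord (v : V) (k : Fin N → ℕ) :
    Multiplicative.toAdd (T.φ v (pr (ra2 T e) k)) =
      ((k (e (v, true)) : ℤ) - k (e (v, false))) * Multiplicative.toAdd (T.φ v (T.g v)) := by
  rw [pr_map, List.prod_ofFn, toAdd_prod]
  have h1 : ∀ i : Fin N, Multiplicative.toAdd (T.φ v (ra2 T e i (k i))) =
      if (e.symm i).1 = v then (if (e.symm i).2 then (k i : ℤ) else -(k i : ℤ)) * Multiplicative.toAdd (T.φ v (T.g v))
      else 0 := by
    intro i
    unfold ra2
    rw [map_zpow]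
    by_cases h : (e.symm i).1 = v
    · rw [if_pos h, h, toAdd_zpow, smul_eq_mul]
    · rw [if_neg h, T.other _ _ (Ne.symm h), one_zpow, toAdd_one]
  rw [Finset.sum_congr rfl fun i _ => h1 i]
  rw [← Finset.sum_filter]
  have h2 : (Finset.univ.filter fun i => (e.symm i).1 = v) = {e (v, true), e (v, false)} := by
    ext i
    rw [Finset.mem_filter, Finset.mem_insert, Finset.mem_singleton]
    constructor
    · rintro ⟨_, h⟩
      rcases h3 : (e.symm i).2 with _ | _
      · right
        rw [← h, ← h3, Prod.mk.eta, e.apply_symm_apply]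
      · left
        rw [← h, ← h3, Prod.mk.eta, e.apply_symm_apply]
    · rintro (rfl | rfl)
      · exact ⟨Finset.mem_univ _, by rw [e.symm_apply_apply]⟩
      · exact ⟨Finset.mem_univ _, by rw [e.symm_apply_apply]⟩
  have h3 : e (v, true) ≠ e (v, false) := fun h => by
    have := e.injective h
    simp at this
  rw [h2, Finset.sum_pair h3, e.symm_apply_apply, e.symm_apply_apply]
  simp
  ring

theorem rays_oct [Finite V] : Rays (clF (oct L) e) (ra2 T e) := by
  classical
  refine ⟨fun v => ?_, ?_, ?_, ?_⟩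
  · unfold ra2
    split_ifs <;> simp
  · refine ⟨Set.range (fun v => T.g v) ∪ Set.range (fun v => (T.g v)⁻¹), (Set.finite_range _).union (Set.finite_range _),
      fun i k => ?_⟩
    unfold ra2
    split_ifs
    · left
      refine ⟨(e.symm i).1, ?_⟩
      rw [← zpow_neg, ← zpow_add]
      have : -(k : ℤ) + ((k + 1 : ℕ) : ℤ) = 1 := by push_cast; ring
      rw [this, zpow_one]
    · right
      refine ⟨(e.symm i).1, ?_⟩
      rw [← zpow_neg, ← zpow_add]
      have : -(-(k : ℤ)) + -((k + 1 : ℕ) : ℤ) = -1 := by push_cast; ring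
      rw [this, zpow_neg_one]
  · intro σ hσ u hu v hv huv k l
    have h1 : L.Adj (e.symm u).1 (e.symm v).1 := adj_of_mem e hσ hu hv huv
    exact (T.comm _ _ h1).zpow_zpow _ _
  · intro F hF
    obtain ⟨R, hR⟩ : ∃ R : ℕ, ∀ g ∈ F, ∀ v, |Multiplicative.toAdd (T.φ v g)| ≤ R := by
      have hfin : (Set.image2 (fun g v => |Multiplicative.toAdd (T.φ v g)|) F (Set.univ : Set V)).Finite :=
        Set.Finite.image2 _ hF (Set.toFinite _)
      obtain ⟨b, hb⟩ := hfin.bddAbove
      refine ⟨b.toNat, fun g hg v => ?_⟩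
      have h1 : |Multiplicative.toAdd (T.φ v g)| ≤ b := hb ⟨g, hg, v, Set.mem_univ _, rfl⟩
      exact h1.trans (Int.self_le_toNat b)
    refine ⟨R, fun σ hσ τ hτ hd k k' hk hk' hmem i => ?_⟩
    obtain ⟨v, ε, hi⟩ : ∃ v ε, i = e (v, ε) := ⟨(e.symm i).1, (e.symm i).2, by simp⟩
    have h1 := hR _ hmem v
    rw [map_mul, map_inv, toAdd_mul, toAdd_inv, coord, coord, ← neg_mul, ← add_mul, abs_mul] at h1
    have h1' : 1 ≤ |Multiplicative.toAdd (T.φ v (T.g v))| := by
      refine Int.one_le_abs fun h2 => T.self v ?_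
      exact Multiplicative.toAdd.injective h2
    replace h1 : |-((k (e (v, true)) : ℤ) - k (e (v, false))) + ((k' (e (v, true)) : ℤ) - k' (e (v, false)))| ≤ R :=
      le_trans (le_mul_of_one_le_right (abs_nonneg _) h1') h1
    -- the two vertices over `v`
    have hone : ∀ ρ ∈ clF (oct L) e, e (v, true) ∈ ρ → e (v, false) ∈ ρ → False := by
      intro ρ hρ ha hb
      have hne : e (v, true) ≠ e (v, false) := fun h => by
        have := e.injective h
        simp at this
      have h2 := adj_of_mem e hρ ha hb hne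
      rw [e.symm_apply_apply, e.symm_apply_apply] at h2
      exact L.loopless.irrefl v h2
    have hz : ∀ j : Fin N, j ∈ σ → k' j = 0 := fun j hj => hk' j (Finset.disjoint_left.1 hd hj)
    have hz' : ∀ j : Fin N, j ∈ τ → k j = 0 := fun j hj => hk j (Finset.disjoint_right.1 hd hj)
    obtain ⟨a, ha⟩ : ∃ a, a = k (e (v, true)) := ⟨_, rfl⟩
    obtain ⟨b, hb⟩ : ∃ b, b = k (e (v, false)) := ⟨_, rfl⟩
    obtain ⟨a', ha'⟩ : ∃ a', a' = k' (e (v, true)) := ⟨_, rfl⟩
    obtain ⟨b', hb'⟩ : ∃ b', b' = k' (e (v, false)) := ⟨_, rfl⟩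
    rw [← ha, ← hb, ← ha', ← hb'] at h1
    have c1 : a = 0 ∨ b = 0 := by
      by_contra h2
      push Not at h2
      refine hone σ hσ ?_ ?_
      · by_contra h3
        exact h2.1 (by rw [ha]; exact hk _ h3)
      · by_contra h3
        exact h2.2 (by rw [hb]; exact hk _ h3)
    have c2 : a' = 0 ∨ b' = 0 := by
      by_contra h2
      push Not at h2
      refine hone τ hτ ?_ ?_
      · by_contra h3
        exact h2.1 (by rw [ha']; exact hk' _ h3)
      · by_contra h3
        exact h2.2 (by rw [hb']; exact hk' _ h3)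
    have c3 : a = 0 ∨ a' = 0 := by
      by_cases h2 : e (v, true) ∈ σ
      · right; rw [ha']; exact hz _ h2
      · left; rw [ha]; exact hk _ h2
    have c4 : b = 0 ∨ b' = 0 := by
      by_cases h2 : e (v, false) ∈ σ
      · right; rw [hb']; exact hz _ h2
      · left; rw [hb]; exact hk _ h2
    rw [abs_le] at h1
    have c5 : a ≤ R ∧ b ≤ R ∧ a' ≤ R ∧ b' ≤ R := by
      rcases c1 with c1 | c1 <;> rcases c2 with c2 | c2 <;> rcases c3 with c3 | c3 <;> rcases c4 with c4 | c4 <;>
        (subst_vars; omega)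
    rw [hi]
    cases ε
    · rw [← hb, ← hb']
      exact ⟨c5.2.1, c5.2.2.2⟩
    · rw [← ha, ← ha']
      exact ⟨c5.1, c5.2.2.1⟩

theorem bd_of_tori [Finite V] (T : Tori L Γ) {n : ℕ} (ha : Acts n Γ) : Bd n (tr (oct L) e) := by
  obtain ⟨M, _, _, _, _, hP, ι, hι, hι2⟩ := ha
  exact bd_of_vk2_jn (clF_cx _ e) (fun σ hσ => (tr_clique e).1 hσ)
    (vk2_of_rays hP (clF_cx _ e) (rays_oct T e) ι hι hι2)

end

section

open Finset

variable {V : Type} [Fintype V] [DecidableEq V] {L : SimpleGraph V} {N : ℕ} (e : V × Bool ≃ Fin N)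

/-- the positive vertices -/
def em (e : V × Bool ≃ Fin N) : V ↪ Fin N := ⟨fun v => e (v, true), fun u v h => by
  have := e.injective h
  simpa using this⟩

/-- the exchange of the two vertices over a vertex -/
def fl (e : V × Bool ≃ Fin N) (i : Fin N) : Fin N := e ((e.symm i).1, !(e.symm i).2)

theorem dbl_oct : Dbl (tr (oct L) e) (fl e) (univ.map (em e)) := by
  refine ⟨?_, ?_, ?_⟩
  · intro i hi hi'
    rw [mem_map] at hi hi'
    obtain ⟨v, _, rfl⟩ := hi
    obtain ⟨w, _, hw⟩ := hi'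
    have h1 := e.injective hw
    rw [show e.symm ((em e) v) = (v, true) from e.symm_apply_apply _] at h1
    simp at h1
  · intro i _ j _ h
    have h1 : L.Adj (e.symm i).1 (e.symm j).1 := h
    show L.Adj (e.symm i).1 (e.symm (fl e j)).1
    unfold fl
    rw [e.symm_apply_apply]
    exact h1
  · intro i _ j _ h
    have h1 : L.Adj (e.symm i).1 (e.symm j).1 := h
    show L.Adj (e.symm (fl e i)).1 (e.symm (fl e j)).1
    unfold fl
    rw [e.symm_apply_apply, e.symm_apply_apply]
    exact h1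

theorem clique_em {σ : Finset V} (h : (tr (oct L) e).IsClique ((σ.map (em e) : Finset (Fin N)) : Set (Fin N))) :
    L.IsClique (σ : Set V) := by
  intro u hu v hv huv
  have h1 := h (x := em e u) (by simpa using hu) (y := em e v) (by simpa using hv) fun h => huv ((em e).injective h)
  have h2 : L.Adj (e.symm (em e u)).1 (e.symm (em e v)).1 := h1
  rw [show e.symm ((em e) u) = (u, true) from e.symm_apply_apply _,
    show e.symm ((em e) v) = (v, true) from e.symm_apply_apply _] at h2
  exact h2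

theorem clique_em' {σ : Finset V} (h : L.IsClique (σ : Set V)) :
    (tr (oct L) e).IsClique ((σ.map (em e) : Finset (Fin N)) : Set (Fin N)) := by
  intro i hi j hj hij
  rw [mem_coe, mem_map] at hi hj
  obtain ⟨u, hu, rfl⟩ := hi
  obtain ⟨v, hv, rfl⟩ := hj
  have h1 := h hu hv fun h => hij (by rw [h])
  show L.Adj (e.symm (em e u)).1 (e.symm (em e v)).1
  rw [show e.symm ((em e) u) = (u, true) from e.symm_apply_apply _,
    show e.symm ((em e) v) = (v, true) from e.symm_apply_apply _]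
  exact h1

/-- the preimage of a set of vertices -/
def bk (e : V × Bool ≃ Fin N) (σ : Finset (Fin N)) : Finset V := univ.filter fun v => em e v ∈ σ

theorem bk_map (σ : Finset V) : bk e (σ.map (em e)) = σ := by
  ext v
  simp [bk]

theorem map_bk {σ : Finset (Fin N)} (h : σ ⊆ univ.map (em e)) : (bk e σ).map (em e) = σ := by
  ext i
  rw [mem_map]
  constructor
  · rintro ⟨v, hv, rfl⟩
    exact (mem_filter.1 hv).2
  · intro hi
    obtain ⟨v, _, rfl⟩ := mem_map.1 (h hi)
    exact ⟨v, mem_filter.2 ⟨mem_univ _, hi⟩, rfl⟩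

/-- sums over the complement -/
theorem sum_compl_map (ρ : Finset V) (F : Fin N → ZMod 2) (hF : ∀ i ∉ univ.map (em e), F i = 0) :
    ∑ i ∈ (ρ.map (em e))ᶜ, F i = ∑ v ∈ ρᶜ, F (em e v) := by
  rw [← sum_map ρᶜ (em e) F]
  symm
  refine sum_subset ?_ ?_
  · intro i hi
    obtain ⟨v, hv, rfl⟩ := mem_map.1 hi
    rw [mem_compl] at hv ⊢
    exact fun h => hv (by simpa using h)
  · intro i hi hi'
    refine hF i fun h => ?_
    obtain ⟨v, _, rfl⟩ := mem_map.1 h
    rw [mem_compl] at hi
    refine hi' (mem_map_of_mem _ (mem_compl.2 fun h2 => hi (mem_map_of_mem _ h2)))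

theorem acy_of_ex {i : ℕ} (h : Ex (tr (oct L) e) (univ.map (em e)) i) : Acy L i := by
  intro z hz hb
  obtain ⟨z', hz'⟩ : ∃ z' : Finset (Fin N) → ZMod 2,
    z' = fun σ => if σ ⊆ univ.map (em e) then z (bk e σ) else 0 := ⟨_, rfl⟩
  have h1 : Ch (tr (oct L) e) (univ.map (em e)) i z' := by
    intro σ hσ
    rw [hz'] at hσ
    by_cases h2 : σ ⊆ univ.map (em e)
    · simp only [if_pos h2] at hσ
      obtain ⟨h3, h4⟩ := hz _ hσ
      have h5 := map_bk e h2
      refine ⟨?_, h2, ?_⟩
      · rw [← h5]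
        exact clique_em' e h3
      · rw [← h5, card_map, h4]
    · simp only [if_neg h2] at hσ
      exact absurd rfl hσ
  have h2 : b1 z' = 0 := by
    funext ρ
    show ∑ i ∈ ρᶜ, z' (insert i ρ) = 0
    by_cases h3 : ρ ⊆ univ.map (em e)
    · obtain ⟨ρ', rfl⟩ : ∃ ρ' : Finset V, ρ = ρ'.map (em e) := ⟨_, (map_bk e h3).symm⟩
      rw [sum_compl_map e ρ' (fun i => z' (insert i (ρ'.map (em e))))]
      · rw [← hb ρ']
        refine sum_congr rfl fun v _ => ?_
        rw [← map_insert, hz']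
        simp only
        rw [if_pos (map_subset_map.2 (subset_univ _)), bk_map]
      · intro i hi
        rw [hz']
        exact if_neg fun h4 => hi (h4 (mem_insert_self _ _))
    · refine sum_eq_zero fun i _ => ?_
      rw [hz']
      exact if_neg fun h4 => h3 ((subset_insert _ _).trans h4)
  obtain ⟨w', hw', hbw⟩ := h z' h1 h2
  refine ⟨fun σ => w' (σ.map (em e)), fun σ hσ => ?_, fun ρ => ?_⟩
  · obtain ⟨h3, _, h4⟩ := hw' _ hσ
    rw [card_map] at h4
    exact ⟨clique_em e h3, h4⟩
  · have h3 := congrFun hbw (ρ.map (em e))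
    have h4 : z' (ρ.map (em e)) = z ρ := by
      rw [hz']
      simp only
      rw [if_pos (map_subset_map.2 (subset_univ _)), bk_map]
    rw [h4] at h3
    rw [← h3]
    show _ = ∑ i ∈ (ρ.map (em e))ᶜ, w' (insert i (ρ.map (em e)))
    rw [sum_compl_map e ρ (fun i => w' (insert i (ρ.map (em e))))]
    · refine sum_congr rfl fun v _ => ?_
      show w' ((insert v ρ).map (em e)) = _
      rw [map_insert]
    · intro i hi
      by_contra h5
      exact hi ((hw' _ h5).2.1 (mem_insert_self _ _))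

theorem dom_oct (L : SimpleGraph V) : Dom (oct L) := by
  rintro ⟨v, ε⟩
  refine ⟨(v, !ε), fun h => ?_, fun w hw => hw⟩
  have := congrArg Prod.snd h
  simp at this

theorem acy_of_bd {n i : ℕ} (hb : Bd n (tr (oct L) e)) (hi : n < 2 * i) : Acy L i :=
  acy_of_ex e (ex_of_bd hb (dbl_oct e) hi)

/-- **The theorem for right-angled Artin groups.** -/
theorem artin {Γ : Type} [Group Γ] (T : Tori L Γ) {n i : ℕ} (ha : Acts n Γ) (hi : n < 2 * i) :
    Acy L i ∧ ∀ _ : LinearOrder (V × Bool), L2Van (oct L) i := by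
  obtain ⟨e⟩ : Nonempty (V × Bool ≃ Fin (Fintype.card (V × Bool))) := ⟨Fintype.equivFin _⟩
  have hb : Bd n (tr (oct L) e) := bd_of_tori e T ha
  exact ⟨acy_of_bd e hb hi, fun _ => van_of_bd (oct L) (dom_oct L) e hb hi⟩

/-- The homology of the flag complex of `L`. -/
theorem acyclic {n i : ℕ} (ha : Nerve n (oct L) ∨ ∃ H : Subgroup (W (oct L)), H.FiniteIndex ∧ Acts n H)
    (hi : n < 2 * i) : Acy L i := by
  obtain ⟨e⟩ : Nonempty (V × Bool ≃ Fin (Fintype.card (V × Bool))) := ⟨Fintype.equivFin _⟩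
  refine acy_of_bd e ?_ hi
  rcases ha with ha | ⟨H, _, ha⟩
  · exact bd_of_nerve e ha
  · exact bd_of_acts e (dom_oct L) H ha

end

theorem tori_raag {V : Type} (L : SimpleGraph V) (H : Subgroup (Raag L)) [H.FiniteIndex] :
    Nonempty (Tori L H) := by
  classical
  have hrel : ∀ v : V, ∀ r ∈ rel L,
      FreeGroup.lift (fun w => if w = v then Multiplicative.ofAdd (1 : ℤ) else 1) r = 1 := by
    rintro v r ⟨a, b, _, rfl⟩
    rw [map_mul, map_mul, map_mul, map_inv, map_inv, mul_inv_cancel_comm, mul_inv_cancel]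
  obtain ⟨m, hm0, hm⟩ : ∃ m : ℕ, 0 < m ∧ ∀ x : Raag L, x ^ m ∈ H := by
    refine ⟨H.index.factorial, Nat.factorial_pos _, fun x => ?_⟩
    exact Subgroup.pow_mem_of_index_ne_zero_of_dvd Subgroup.FiniteIndex.index_ne_zero x
      (fun j hj hj' => Nat.dvd_factorial hj hj')
  refine ⟨⟨fun v => ⟨(PresentedGroup.of v : Raag L) ^ m, hm _⟩, fun u v huv => ?_,
    fun v => (PresentedGroup.toGroup (hrel v)).comp H.subtype, fun v => ?_, fun u v huv => ?_⟩⟩
  · have h1 : PresentedGroup.mk (rel L) (FreeGroup.of u * FreeGroup.of v * (FreeGroup.of u)⁻¹ * (FreeGroup.of v)⁻¹) = 1 :=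
      PresentedGroup.one_of_mem ⟨u, v, huv, rfl⟩
    rw [map_mul, map_mul, map_mul, map_inv, map_inv, mul_inv_eq_one, mul_inv_eq_iff_eq_mul] at h1
    have h2 : Commute (PresentedGroup.of u : Raag L) (PresentedGroup.of v) := h1
    exact Subtype.ext (h2.pow_pow m m)
  · show (PresentedGroup.toGroup (hrel v)) ((PresentedGroup.of v : Raag L) ^ m) ≠ 1
    rw [map_pow, PresentedGroup.toGroup.of, if_pos rfl]
    intro h1
    have h2 := congrArg Multiplicative.toAdd h1
    rw [toAdd_pow, toAdd_ofAdd, toAdd_one, nsmul_eq_mul, mul_one] at h2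
    have h3 : m = 0 := by exact_mod_cast h2
    omega
  · show (PresentedGroup.toGroup (hrel u)) ((PresentedGroup.of v : Raag L) ^ m) = 1
    rw [map_pow, PresentedGroup.toGroup.of, if_neg huv.symm, one_pow]

end Pool.Agent.H815.TW
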