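import Pool.Graph.R_seed8.Y131.KS.Obs

/-!
# Symmetric cycles of the deleted join and the doubling lemma
-/

set_option autoImplicit false

namespace Pool.Agent.H815.TW

open Finset Pool.Agent.W555.KS Pool.Agent.Y131.KS

variable {n : ℕ}

/-- functions on pairs of sets of vertices -/
abbrev PC (n : ℕ) : Type := Finset (Fin n) → Finset (Fin n) → ZMod 2

/-- exchange of the two sets -/
def sw (Z : PC n) : PC n := fun σ τ => Z τ σ

/-- multiplication by the vertex `v` of the first copy -/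
def mx (v : Fin n) (Z : PC n) : PC n := fun σ τ => if v ∈ σ ∧ v ∉ τ then Z (σ.erase v) τ else 0

/-- multiplication by the vertex `v` of the second copy -/
def my (v : Fin n) (Z : PC n) : PC n := fun σ τ => if v ∈ τ ∧ v ∉ σ then Z σ (τ.erase v) else 0

/-- no vertex `v` in the support -/
def Av (v : Fin n) (Z : PC n) : Prop := ∀ σ τ, v ∈ σ ∪ τ → Z σ τ = 0

theorem two_zero (a : ZMod 2) : a + a = 0 := CharTwo.add_self_eq_zero a

theorem sw_sw (Z : PC n) : sw (sw Z) = Z := rfl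

theorem sw_mx (v : Fin n) (Z : PC n) : sw (mx v Z) = my v (sw Z) := rfl

theorem sw_my (v : Fin n) (Z : PC n) : sw (my v Z) = mx v (sw Z) := rfl

theorem sw_add (Z Z' : PC n) : sw (Z + Z') = sw Z + sw Z' := rfl

theorem mx_add (v : Fin n) (Z Z' : PC n) : mx v (Z + Z') = mx v Z + mx v Z' := by
  funext σ τ
  simp only [mx, Pi.add_apply]
  split_ifs
  · rfl
  · rw [add_zero]

theorem my_add (v : Fin n) (Z Z' : PC n) : my v (Z + Z') = my v Z + my v Z' := by
  funext σ τ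
  simp only [my, Pi.add_apply]
  split_ifs
  · rfl
  · rw [add_zero]

theorem mx_zero (v : Fin n) : mx v (0 : PC n) = 0 := by
  funext σ τ
  show (if _ then _ else _) = _
  split_ifs <;> rfl

theorem my_zero (v : Fin n) : my v (0 : PC n) = 0 := by
  funext σ τ
  show (if _ then _ else _) = _
  split_ifs <;> rfl

theorem mx_my (u v : Fin n) (h : u ≠ v) (Z : PC n) : mx u (my v Z) = my v (mx u Z) := by
  funext σ τ
  unfold mx my
  by_cases h1 : u ∈ σ <;> by_cases h2 : u ∈ τ <;> by_cases h3 : v ∈ σ <;> by_cases h4 : v ∈ τ <;>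
    simp [h1, h2, h3, h4, h, h.symm, mem_erase]

theorem dd_add (Z Z' : PC n) : dd (Z + Z') = dd Z + dd Z' := by
  funext ρ τ
  simp only [dd, Pi.add_apply]
  rw [← sum_add_distrib]
  refine sum_congr rfl fun v _ => ?_
  ring

theorem dd_zero : dd (0 : PC n) = 0 := by
  funext ρ τ
  refine sum_eq_zero fun v _ => ?_
  exact add_zero _

theorem dd_sw (Z : PC n) : dd (sw Z) = sw (dd Z) := by
  funext ρ τ
  show ∑ v ∈ (ρ ∪ τ)ᶜ, _ = ∑ v ∈ (τ ∪ ρ)ᶜ, _
  rw [union_comm ρ τ]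
  refine sum_congr rfl fun v _ => ?_
  exact add_comm _ _

theorem dd_av {v : Fin n} {Z : PC n} (h : Av v Z) : Av v (dd Z) := by
  intro ρ τ hv
  refine sum_eq_zero fun w _ => ?_
  rw [mem_union] at hv
  rw [h _ _ (by rw [mem_union, mem_insert]; tauto), h _ _ (by rw [mem_union, mem_insert]; tauto), add_zero]

theorem dd_mx {v : Fin n} {Z : PC n} (h : Av v Z) : dd (mx v Z) = Z + mx v (dd Z) := by
  funext ρ τ
  show ∑ w ∈ (ρ ∪ τ)ᶜ, (mx v Z (insert w ρ) τ + mx v Z ρ (insert w τ)) = Z ρ τ + mx v (dd Z) ρ τ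
  by_cases hτ : v ∈ τ
  · rw [h ρ τ (mem_union_right _ hτ)]
    have e1 : mx v (dd Z) ρ τ = 0 := if_neg fun h1 => h1.2 hτ
    rw [e1, add_zero]
    refine sum_eq_zero fun w _ => ?_
    have e2 : mx v Z (insert w ρ) τ = 0 := if_neg fun h1 => h1.2 hτ
    have e3 : mx v Z ρ (insert w τ) = 0 := if_neg fun h1 => h1.2 (mem_insert_of_mem hτ)
    rw [e2, e3, add_zero]
  by_cases hρ : v ∈ ρ
  · rw [h ρ τ (mem_union_left _ hρ), zero_add]
    have e1 : mx v (dd Z) ρ τ = dd Z (ρ.erase v) τ := if_pos ⟨hρ, hτ⟩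
    rw [e1]
    show _ = ∑ w ∈ (ρ.erase v ∪ τ)ᶜ, (Z (insert w (ρ.erase v)) τ + Z (ρ.erase v) (insert w τ))
    have e2 : (ρ.erase v ∪ τ)ᶜ = insert v (ρ ∪ τ)ᶜ := by
      ext w
      simp only [mem_compl, mem_union, mem_erase, mem_insert, not_or]
      by_cases hw : w = v
      · simp [hw, hτ]
      · simp [hw]
    have e3 : v ∉ (ρ ∪ τ)ᶜ := by simp [hρ]
    rw [e2, sum_insert e3, insert_erase hρ, h ρ τ (mem_union_left _ hρ),
      h _ (insert v τ) (mem_union_right _ (mem_insert_self _ _)), add_zero, zero_add]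
    refine sum_congr rfl fun w hw => ?_
    simp only [mem_compl, mem_union, not_or] at hw
    have hwv : v ≠ w := fun e => hw.1 (e ▸ hρ)
    have e4 : mx v Z (insert w ρ) τ = Z ((insert w ρ).erase v) τ := if_pos ⟨mem_insert_of_mem hρ, hτ⟩
    have e5 : mx v Z ρ (insert w τ) = Z (ρ.erase v) (insert w τ) :=
      if_pos ⟨hρ, by rw [mem_insert, not_or]; exact ⟨hwv, hτ⟩⟩
    rw [e4, e5, erase_insert_of_ne hwv.symm]
  · have e1 : mx v (dd Z) ρ τ = 0 := if_neg fun h1 => hρ h1.1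
    rw [e1, add_zero, sum_eq_single v]
    · have e2 : mx v Z (insert v ρ) τ = Z ((insert v ρ).erase v) τ := if_pos ⟨mem_insert_self _ _, hτ⟩
      have e3 : mx v Z ρ (insert v τ) = 0 := if_neg fun h1 => hρ h1.1
      rw [e2, e3, add_zero, erase_insert hρ]
    · intro w _ hwv
      have e2 : mx v Z (insert w ρ) τ = 0 := if_neg fun h1 => by
        rcases mem_insert.1 h1.1 with h2 | h2
        · exact hwv h2.symm
        · exact hρ h2
      have e3 : mx v Z ρ (insert w τ) = 0 := if_neg fun h1 => hρ h1.1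
      rw [e2, e3, add_zero]
    · intro h1
      simp [hρ, hτ] at h1

theorem dd_my {v : Fin n} {Z : PC n} (h : Av v Z) : dd (my v Z) = Z + my v (dd Z) := by
  have h1 : Av v (sw Z) := fun σ τ hv => h τ σ (by rw [union_comm]; exact hv)
  have h2 := congrArg sw (dd_mx h1)
  rw [← dd_sw, sw_mx, sw_sw, sw_add, sw_sw, sw_mx, dd_sw, sw_sw] at h2
  exact h2

theorem mx_av {u v : Fin n} (huv : u ≠ v) {Z : PC n} (h : Av u Z) : Av u (mx v Z) := by
  intro σ τ hu
  show (if _ then _ else _) = _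
  split_ifs
  · refine h _ _ ?_
    rw [mem_union, mem_erase]
    rw [mem_union] at hu
    tauto
  · rfl

theorem my_av {u v : Fin n} (huv : u ≠ v) {Z : PC n} (h : Av u Z) : Av u (my v Z) := by
  intro σ τ hu
  show (if _ then _ else _) = _
  split_ifs
  · refine h _ _ ?_
    rw [mem_union, mem_erase]
    rw [mem_union] at hu
    tauto
  · rfl

/-- `Z` is a symmetric cycle with `D` vertices of the deleted join of the flag complex of the full subgraph of `G`
on `B` -/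
structure SC (G : SimpleGraph (Fin n)) (B : Finset (Fin n)) (D : ℕ) (Z : PC n) : Prop where
  sym : sw Z = Z
  cyc : dd Z = 0
  dis : ∀ σ τ, Z σ τ ≠ 0 → Disjoint σ τ
  deg : ∀ σ τ, Z σ τ ≠ 0 → σ.card + τ.card = D
  cl : ∀ σ τ, Z σ τ ≠ 0 → G.IsClique (σ : Set (Fin n))
  sub : ∀ σ τ, Z σ τ ≠ 0 → σ ⊆ B

theorem SC.cl' {G : SimpleGraph (Fin n)} {B : Finset (Fin n)} {D : ℕ} {Z : PC n} (h : SC G B D Z)
    (σ τ : Finset (Fin n)) (h1 : Z σ τ ≠ 0) : G.IsClique (τ : Set (Fin n)) := by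
  refine h.cl τ σ ?_
  have := congrFun (congrFun h.sym σ) τ
  exact fun h2 => h1 (this ▸ h2)

theorem SC.sub' {G : SimpleGraph (Fin n)} {B : Finset (Fin n)} {D : ℕ} {Z : PC n} (h : SC G B D Z)
    (σ τ : Finset (Fin n)) (h1 : Z σ τ ≠ 0) : τ ⊆ B := by
  refine h.sub τ σ ?_
  have := congrFun (congrFun h.sym σ) τ
  exact fun h2 => h1 (this ▸ h2)

/-- in each pair of the support one of the two sets is adjacent to `s` -/
def Good (G : SimpleGraph (Fin n)) (s : Fin n) (Z : PC n) : Prop :=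
  ∀ σ τ, Z σ τ ≠ 0 → (∀ u ∈ σ, G.Adj s u) ∨ (∀ u ∈ τ, G.Adj s u)

theorem mx_ne {v : Fin n} {Z : PC n} {σ τ : Finset (Fin n)} (h : mx v Z σ τ ≠ 0) :
    v ∈ σ ∧ v ∉ τ ∧ Z (σ.erase v) τ ≠ 0 := by
  unfold mx at h
  split_ifs at h with h1
  · exact ⟨h1.1, h1.2, h⟩
  · exact absurd rfl h

theorem my_ne {v : Fin n} {Z : PC n} {σ τ : Finset (Fin n)} (h : my v Z σ τ ≠ 0) :
    v ∈ τ ∧ v ∉ σ ∧ Z σ (τ.erase v) ≠ 0 := by
  unfold my at h
  split_ifs at h with h1
  · exact ⟨h1.1, h1.2, h⟩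
  · exact absurd rfl h

theorem dd_ne {Z : PC n} {ρ τ : Finset (Fin n)} (h : dd Z ρ τ ≠ 0) :
    ∃ v, v ∉ ρ ∧ v ∉ τ ∧ (Z (insert v ρ) τ ≠ 0 ∨ Z ρ (insert v τ) ≠ 0) := by
  obtain ⟨v, hv, h1⟩ := exists_ne_zero_of_sum_ne_zero h
  simp only [mem_compl, mem_union, not_or] at hv
  refine ⟨v, hv.1, hv.2, ?_⟩
  by_contra h2
  push Not at h2
  rw [h2.1, h2.2, add_zero] at h1
  exact h1 rfl

theorem add_ne {Z Z' : PC n} {σ τ : Finset (Fin n)} (h : (Z + Z') σ τ ≠ 0) : Z σ τ ≠ 0 ∨ Z' σ τ ≠ 0 := by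
  by_contra h2
  push Not at h2
  apply h
  show Z σ τ + Z' σ τ = 0
  rw [h2.1, h2.2, add_zero]

/-- a half of a symmetric function, supported on the pairs whose first member satisfies `P` -/
theorem half {Z : PC n} (hs : sw Z = Z) (hne : ∀ σ τ, Z σ τ ≠ 0 → σ ≠ τ) (P : Finset (Fin n) → Prop)
    (hP : ∀ σ τ, Z σ τ ≠ 0 → P σ ∨ P τ) : ∃ A : PC n, A + sw A = Z ∧ (∀ σ τ, A σ τ ≠ 0 → Z σ τ ≠ 0 ∧ P σ) := by
  classical
  obtain ⟨e, he⟩ := Countable.exists_injective_nat (Finset (Fin n))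
  have hs' : ∀ σ τ, Z τ σ = Z σ τ := fun σ τ => congrFun (congrFun hs σ) τ
  refine ⟨fun σ τ => if P σ ∧ (P τ → e σ < e τ) then Z σ τ else 0, ?_, ?_⟩
  · funext σ τ
    simp only [Pi.add_apply, sw]
    rw [hs' σ τ]
    by_cases h0 : Z σ τ = 0
    · rw [h0]
      split_ifs <;> simp
    · have h1 := hP σ τ h0
      have h2 : e σ ≠ e τ := fun h => hne σ τ h0 (he h)
      by_cases h3 : P σ <;> by_cases h4 : P τ
      · rcases lt_or_gt_of_ne h2 with h5 | h5
        · rw [if_pos ⟨h3, fun _ => h5⟩, if_neg fun h => absurd (h.2 h3) (by omega), add_zero]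
        · rw [if_neg fun h => absurd (h.2 h4) (by omega), if_pos ⟨h4, fun _ => h5⟩, zero_add]
      · rw [if_pos ⟨h3, fun h => absurd h h4⟩, if_neg fun h => h4 h.1, add_zero]
      · rw [if_neg fun h => h3 h.1, if_pos ⟨h4, fun h => absurd h h3⟩, zero_add]
      · exact absurd h1 (by tauto)
  · intro σ τ h
    simp only at h
    split_ifs at h with h1
    · exact ⟨h, h1.1⟩
    · exact absurd rfl h

theorem ev_zero (D : ℕ) : ev D (0 : PC n) = 0 := sum_eq_zero fun _ _ => rfl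

/-- the evaluation of a symmetric function is the evaluation of the boundary of a half -/
theorem ev_half (D : ℕ) {Z A : PC n} (h : A + sw A = Z) : ev (D + 1) Z = ev D (dd A) := by
  rw [ev_dd, ← h]
  rfl

/-- **The doubling lemma.** -/
theorem lift {G : SimpleGraph (Fin n)} {B : Finset (Fin n)} {D : ℕ} {Z : PC n} (h : SC G B (D + 1) Z)
    {a b : Fin n} (hne : a ≠ b) (haB : a ∉ B) (hbB : b ∉ B) (hab : ∀ u ∈ B, G.Adj a u → G.Adj b u)
    (hg : Good G a Z) :
    ∃ Z' : PC n, SC G (insert a (insert b B)) (D + 2) Z' ∧ ev (D + 2) Z' = ev (D + 1) Z ∧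
      ∀ s, G.Adj s a → G.Adj s b → Good G s Z → Good G s Z' := by
  classical
  obtain ⟨A, hA, hA2⟩ := half h.sym (fun σ τ h1 e => by
      have h2 := h.dis σ τ h1
      have h3 := h.deg σ τ h1
      rw [e, disjoint_self, bot_eq_empty] at h2
      rw [e, h2] at h3
      simp at h3) (fun σ => ∀ u ∈ σ, G.Adj a u) hg
  have hZa : Av a Z := by
    intro σ τ hv
    by_contra h1
    rcases mem_union.1 hv with h2 | h2
    · exact haB (h.sub σ τ h1 h2)
    · exact haB (h.sub' σ τ h1 h2)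
  have hZb : Av b Z := by
    intro σ τ hv
    by_contra h1
    rcases mem_union.1 hv with h2 | h2
    · exact hbB (h.sub σ τ h1 h2)
    · exact hbB (h.sub' σ τ h1 h2)
  have hAa : Av a A := by
    intro σ τ hv
    by_contra h1
    exact (hA2 σ τ h1).1 (hZa σ τ hv)
  have hAb : Av b A := by
    intro σ τ hv
    by_contra h1
    exact (hA2 σ τ h1).1 (hZb σ τ hv)
  have hsAa : Av a (sw A) := fun σ τ hv => hAa τ σ (by rw [union_comm]; exact hv)
  have hsAb : Av b (sw A) := fun σ τ hv => hAb τ σ (by rw [union_comm]; exact hv)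
  -- the boundary of the half
  obtain ⟨C, hC⟩ : ∃ C, C = dd A := ⟨_, rfl⟩
  have hCa : Av a C := hC ▸ dd_av hAa
  have hCb : Av b C := hC ▸ dd_av hAb
  have hCs : sw C = C := by
    have h1 := congrArg dd hA
    rw [h.cyc, dd_add, dd_sw, ← hC] at h1
    funext σ τ
    have h2 := congrFun (congrFun h1 σ) τ
    have h3 : C σ τ + sw C σ τ = 0 := h2
    exact (CharTwo.add_eq_zero.1 h3).symm
  have hCC : dd C = 0 := by
    rw [hC]
    -- `dd (dd A) = 0`
    have h1 : ∀ W : PC n, dd (dd W) = 0 := by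
      intro W
      funext ρ τ
      show ∑ v ∈ (ρ ∪ τ)ᶜ, (∑ w ∈ (insert v ρ ∪ τ)ᶜ, (W (insert w (insert v ρ)) τ + W (insert v ρ) (insert w τ)) +
        ∑ w ∈ (ρ ∪ insert v τ)ᶜ, (W (insert w ρ) (insert v τ) + W ρ (insert w (insert v τ)))) = 0
      have e1 : ∀ v, (insert v ρ ∪ τ)ᶜ = (ρ ∪ τ)ᶜ.erase v := by
        intro v; ext w; simp only [mem_compl, mem_union, mem_insert, mem_erase]; tauto
      have e2 : ∀ v, (ρ ∪ insert v τ)ᶜ = (ρ ∪ τ)ᶜ.erase v := by
        intro v; ext w; simp only [mem_compl, mem_union, mem_insert, mem_erase]; tauto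
      have e3 : ∀ v ∈ (ρ ∪ τ)ᶜ, (∑ w ∈ (insert v ρ ∪ τ)ᶜ, (W (insert w (insert v ρ)) τ + W (insert v ρ) (insert w τ)) +
        ∑ w ∈ (ρ ∪ insert v τ)ᶜ, (W (insert w ρ) (insert v τ) + W ρ (insert w (insert v τ)))) =
        ∑ w ∈ (ρ ∪ τ)ᶜ.erase v, (W (insert w (insert v ρ)) τ + W (insert v ρ) (insert w τ) +
          (W (insert w ρ) (insert v τ) + W ρ (insert w (insert v τ)))) := by
        intro v _
        rw [e1, e2, ← sum_add_distrib]
      rw [sum_congr rfl e3, sum_sigma']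
      refine sum_involution (fun (x : Σ _ : Fin n, Fin n) _ => ⟨x.2, x.1⟩) ?_ ?_ ?_ ?_
      · rintro ⟨v, w⟩ _
        simp only
        rw [Finset.insert_comm v w ρ, Finset.insert_comm v w τ]
        have h2 : ∀ x y z t : ZMod 2, x + y + (z + t) + (x + z + (y + t)) = 0 := by decide
        exact h2 _ _ _ _
      · rintro ⟨v, w⟩ h2 _ h3
        simp only [mem_sigma, mem_erase] at h2
        simp only [Sigma.mk.injEq, heq_eq_eq] at h3
        exact h2.2.1 h3.1
      · rintro ⟨v, w⟩ h2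
        simp only [mem_sigma, mem_erase] at h2 ⊢
        exact ⟨h2.2.2, fun e => h2.2.1 e.symm, h2.1⟩
      · rintro ⟨v, w⟩ _
        rfl
    exact h1 A
  obtain ⟨B1, hB1⟩ : ∃ B1, B1 = mx a A + mx b A + mx a (my b C) := ⟨_, rfl⟩
  have hsB1 : sw B1 = my a (sw A) + my b (sw A) + my a (mx b C) := by
    rw [hB1, sw_add, sw_add, sw_mx, sw_mx, sw_mx, sw_my, hCs]
  have hdB1 : dd B1 = mx b C + my b C := by
    rw [hB1, dd_add, dd_add, dd_mx hAa, dd_mx hAb, dd_mx (my_av hne hCa), dd_my hCb, hCC, my_zero, add_zero, ← hC]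
    funext σ τ
    show (A σ τ + mx a C σ τ) + (A σ τ + mx b C σ τ) + (my b C σ τ + mx a C σ τ) = mx b C σ τ + my b C σ τ
    have h2 : ∀ x y z t : ZMod 2, (x + y) + (x + z) + (t + y) = z + t := by decide
    exact h2 _ _ _ _
  have hZ0 : dd (B1 + sw B1) = 0 := by
    rw [dd_add, dd_sw, hdB1, sw_add, sw_mx, sw_my, hCs]
    funext σ τ
    show (mx b C σ τ + my b C σ τ) + (my b C σ τ + mx b C σ τ) = 0
    have h2 : ∀ x y : ZMod 2, (x + y) + (y + x) = 0 := by decide
    exact h2 _ _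
  have hsym : sw (B1 + sw B1) = B1 + sw B1 := by
    rw [sw_add, sw_sw, add_comm]
  have hev : ev (D + 2) (B1 + sw B1) = ev (D + 1) Z := by
    rw [ev_half (D + 1) rfl, hdB1]
    have h1 : mx b C + sw (mx b C) = mx b C + my b C := by rw [sw_mx, hCs]
    rw [ev_half D h1, dd_mx hCb, hCC, mx_zero, add_zero, ev_half D hA, hC]
  -- the support of the half of the new cycle
  have hsupC : ∀ σ τ, C σ τ ≠ 0 → Disjoint σ τ ∧ σ.card + τ.card = D ∧ G.IsClique (σ : Set (Fin n)) ∧ σ ⊆ B ∧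
      (∀ u ∈ σ, G.Adj a u) ∧ ∀ s, Good G s Z → (∀ u ∈ σ, G.Adj s u) ∨ (∀ u ∈ τ, G.Adj s u) := by
    have key : ∀ σ τ, C σ τ ≠ 0 → ∃ σ' τ', σ ⊆ σ' ∧ τ ⊆ τ' ∧ A σ' τ' ≠ 0 ∧ σ.card + τ.card + 1 = σ'.card + τ'.card := by
      intro σ τ h1
      rw [hC] at h1
      obtain ⟨v, hv1, hv2, h2 | h2⟩ := dd_ne h1
      · exact ⟨_, _, subset_insert _ _, Subset.refl _, h2, by rw [card_insert_of_notMem hv1]; omega⟩
      · exact ⟨_, _, Subset.refl _, subset_insert _ _, h2, by rw [card_insert_of_notMem hv2]; omega⟩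
    intro σ τ h1
    obtain ⟨σ', τ', h2, h3, h4, h5⟩ := key σ τ h1
    have h6 := hA2 _ _ h4
    refine ⟨disjoint_of_subset_left h2 (disjoint_of_subset_right h3 (h.dis _ _ h6.1)), ?_, ?_, ?_, ?_, ?_⟩
    · have := h.deg _ _ h6.1
      omega
    · exact (h.cl _ _ h6.1).subset (by exact_mod_cast h2)
    · exact h2.trans (h.sub _ _ h6.1)
    · exact fun u hu => h6.2 u (h2 hu)
    · intro s hs
      rcases hs _ _ h6.1 with h7 | h7
      · exact Or.inl fun u hu => h7 u (h2 hu)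
      · exact Or.inr fun u hu => h7 u (h3 hu)
  have hsupC' : ∀ σ τ, C σ τ ≠ 0 → G.IsClique (τ : Set (Fin n)) ∧ τ ⊆ B ∧ (∀ u ∈ τ, G.Adj a u) := by
    intro σ τ h1
    have h2 : C τ σ ≠ 0 := by
      have := congrFun (congrFun hCs τ) σ
      exact fun h3 => h1 (by rw [← h3]; exact this)
    have h3 := hsupC τ σ h2
    exact ⟨h3.2.2.1, h3.2.2.2.1, h3.2.2.2.2.1⟩
  have insc : ∀ (v : Fin n) (σ : Finset (Fin n)), v ∈ σ → G.IsClique ((σ.erase v : Finset (Fin n)) : Set (Fin n)) →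
      (∀ u ∈ σ.erase v, G.Adj v u) → G.IsClique (σ : Set (Fin n)) := by
    intro v σ hv h1 h2
    rw [← insert_erase hv, coe_insert, SimpleGraph.isClique_insert]
    exact ⟨h1, fun u hu _ => h2 u (by exact_mod_cast hu)⟩
  have key : ∀ σ τ, B1 σ τ ≠ 0 → Disjoint σ τ ∧ σ.card + τ.card = D + 2 ∧ G.IsClique (σ : Set (Fin n)) ∧
      G.IsClique (τ : Set (Fin n)) ∧ σ ⊆ insert a (insert b B) ∧ τ ⊆ insert a (insert b B) ∧
      ∀ s, G.Adj s a → G.Adj s b → Good G s Z → (∀ u ∈ σ, G.Adj s u) ∨ (∀ u ∈ τ, G.Adj s u) := by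
    have one : ∀ (v : Fin n) (σ τ : Finset (Fin n)), v ∉ B → v ∈ insert a (insert b B) →
        (∀ u ∈ B, G.Adj a u → G.Adj v u) → mx v A σ τ ≠ 0 →
        Disjoint σ τ ∧ σ.card + τ.card = D + 2 ∧ G.IsClique (σ : Set (Fin n)) ∧
      G.IsClique (τ : Set (Fin n)) ∧ σ ⊆ insert a (insert b B) ∧ τ ⊆ insert a (insert b B) ∧
      ∀ s, G.Adj s v → Good G s Z → (∀ u ∈ σ, G.Adj s u) ∨ (∀ u ∈ τ, G.Adj s u) := by
      intro v σ τ hv hvm hva h1
      obtain ⟨h2, h3, h4⟩ := mx_ne h1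
      have h5 := hA2 _ _ h4
      have h6 := h.dis _ _ h5.1
      have h7 := h.sub _ _ h5.1
      have hBs : B ⊆ insert a (insert b B) := (subset_insert _ _).trans (subset_insert _ _)
      refine ⟨?_, ?_, ?_, h.cl' _ _ h5.1, ?_, (h.sub' _ _ h5.1).trans hBs, ?_⟩
      · rw [← insert_erase h2, disjoint_insert_left]
        exact ⟨h3, h6⟩
      · have h8 := h.deg _ _ h5.1
        rw [card_erase_of_mem h2] at h8
        have := card_pos.2 ⟨v, h2⟩
        omega
      · exact insc v σ h2 (h.cl _ _ h5.1) fun u hu => hva u (h7 hu) (h5.2 u hu)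
      · rw [← insert_erase h2, insert_subset_iff]
        exact ⟨hvm, h7.trans hBs⟩
      · intro s hsv hs
        rcases hs _ _ h5.1 with h8 | h8
        · left
          intro u hu
          by_cases huv : u = v
          · rw [huv]; exact hsv
          · exact h8 u (mem_erase.2 ⟨huv, hu⟩)
        · exact Or.inr h8
    intro σ τ h1
    rw [hB1] at h1
    rcases add_ne h1 with h1 | h1
    · rcases add_ne h1 with h1 | h1
      · obtain ⟨e1, e2, e3, e4, e5, e6, e7⟩ := one a σ τ haB (mem_insert_self _ _) (fun _ _ h2 => h2) h1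
        exact ⟨e1, e2, e3, e4, e5, e6, fun s hs _ => e7 s hs⟩
      · obtain ⟨e1, e2, e3, e4, e5, e6, e7⟩ := one b σ τ hbB (mem_insert_of_mem (mem_insert_self _ _)) hab h1
        exact ⟨e1, e2, e3, e4, e5, e6, fun s _ hs => e7 s hs⟩
    · obtain ⟨h2, h3, h4⟩ := mx_ne h1
      obtain ⟨h5, h6, h7⟩ := my_ne h4
      have h8 := hsupC _ _ h7
      have h9 := hsupC' _ _ h7
      have hBs : B ⊆ insert a (insert b B) := (subset_insert _ _).trans (subset_insert _ _)
      refine ⟨?_, ?_, ?_, ?_, ?_, ?_, ?_⟩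
      · rw [← insert_erase h2, ← insert_erase h5, disjoint_insert_left, disjoint_insert_right, mem_insert, not_or]
        refine ⟨⟨hne, ?_⟩, ?_, h8.1⟩
        · exact fun h10 => h3 (mem_of_mem_erase h10)
        · exact h6
      · have h10 := h8.2.1
        rw [card_erase_of_mem h2, card_erase_of_mem h5] at h10
        have := card_pos.2 ⟨a, h2⟩
        have := card_pos.2 ⟨b, h5⟩
        omega
      · exact insc a σ h2 h8.2.2.1 h8.2.2.2.2.1
      · exact insc b τ h5 h9.1 fun u hu => hab u (h9.2.1 hu) (h9.2.2 u hu)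
      · rw [← insert_erase h2, insert_subset_iff]
        exact ⟨mem_insert_self _ _, h8.2.2.2.1.trans hBs⟩
      · rw [← insert_erase h5, insert_subset_iff]
        exact ⟨mem_insert_of_mem (mem_insert_self _ _), h9.2.1.trans hBs⟩
      · intro s hsa hsb hs
        rcases h8.2.2.2.2.2 s hs with h10 | h10
        · left
          intro u hu
          by_cases huv : u = a
          · rw [huv]; exact hsa
          · exact h10 u (mem_erase.2 ⟨huv, hu⟩)
        · right
          intro u hu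
          by_cases huv : u = b
          · rw [huv]; exact hsb
          · exact h10 u (mem_erase.2 ⟨huv, hu⟩)
  refine ⟨B1 + sw B1, ⟨hsym, hZ0, ?_, ?_, ?_, ?_⟩, hev, ?_⟩
  · intro σ τ h1
    rcases add_ne h1 with h1 | h1
    · exact (key _ _ h1).1
    · exact (key _ _ h1).1.symm
  · intro σ τ h1
    rcases add_ne h1 with h1 | h1
    · exact (key _ _ h1).2.1
    · have := (key _ _ h1).2.1
      omega
  · intro σ τ h1
    rcases add_ne h1 with h1 | h1
    · exact (key _ _ h1).2.2.1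
    · exact (key _ _ h1).2.2.2.1
  · intro σ τ h1
    rcases add_ne h1 with h1 | h1
    · exact (key _ _ h1).2.2.2.2.1
    · exact (key _ _ h1).2.2.2.2.2.1
  · intro s hsa hsb hs σ τ h1
    rcases add_ne h1 with h1 | h1
    · exact (key _ _ h1).2.2.2.2.2.2 s hsa hsb hs
    · exact ((key _ _ h1).2.2.2.2.2.2 s hsa hsb hs).symm

/-- iterated doubling over a clique -/
theorem lifts {G : SimpleGraph (Fin n)} (f : Fin n → Fin n) (S : Finset (Fin n)) :
    ∀ (B : Finset (Fin n)) (D : ℕ) (Z : PC n), SC G B (D + 1) Z →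
      (∀ s ∈ S, s ∉ B ∧ f s ∉ B ∧ s ≠ f s) →
      (∀ s ∈ S, ∀ t ∈ S, s ≠ t → G.Adj s t ∧ G.Adj s (f t) ∧ G.Adj (f s) (f t)) →
      (∀ s ∈ S, ∀ u ∈ B, G.Adj s u → G.Adj (f s) u) → (∀ s ∈ S, Good G s Z) →
      ∃ Z' : PC n, SC G (B ∪ (S ∪ S.image f)) (D + 1 + S.card) Z' ∧ ev (D + 1 + S.card) Z' = ev (D + 1) Z := by
  classical
  induction S using Finset.induction_on with
  | empty =>
    intro B D Z h _ _ _ _
    refine ⟨Z, ?_, ?_⟩
    · rw [card_empty, add_zero, image_empty, union_empty, union_empty]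
      exact h
    · rw [card_empty, add_zero]
  | insert s S hs ih =>
    intro B D Z h h1 h2 h3 h4
    obtain ⟨Z1, hZ1, he1, hg1⟩ := lift h (h1 s (mem_insert_self _ _)).2.2 (h1 s (mem_insert_self _ _)).1
      (h1 s (mem_insert_self _ _)).2.1 (h3 s (mem_insert_self _ _)) (h4 s (mem_insert_self _ _))
    have hts : ∀ t ∈ S, t ≠ s := fun t ht e => hs (e ▸ ht)
    have c1 : ∀ t ∈ S, t ∉ insert s (insert (f s) B) ∧ f t ∉ insert s (insert (f s) B) ∧ t ≠ f t := by
      intro t ht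
      have h5 := h1 t (mem_insert_of_mem ht)
      have h6 := h2 t (mem_insert_of_mem ht) s (mem_insert_self _ _) (hts t ht)
      have h7 := h2 s (mem_insert_self _ _) t (mem_insert_of_mem ht) (hts t ht).symm
      simp only [mem_insert, not_or]
      exact ⟨⟨hts t ht, h6.2.1.ne, h5.1⟩, ⟨h7.2.1.ne.symm, h6.2.2.ne, h5.2.1⟩, h5.2.2⟩
    have c2 : ∀ t ∈ S, ∀ u ∈ insert s (insert (f s) B), G.Adj t u → G.Adj (f t) u := by
      intro t ht u hu
      have h7 := h2 s (mem_insert_self _ _) t (mem_insert_of_mem ht) (hts t ht).symm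
      rcases mem_insert.1 hu with h8 | h8
      · rw [h8]
        exact fun _ => h7.2.1.symm
      · rcases mem_insert.1 h8 with h9 | h9
        · rw [h9]
          exact fun _ => h7.2.2.symm
        · exact h3 t (mem_insert_of_mem ht) u h9
    have c3 : ∀ t ∈ S, Good G t Z1 := by
      intro t ht
      have h6 := h2 t (mem_insert_of_mem ht) s (mem_insert_self _ _) (hts t ht)
      exact hg1 t h6.1 h6.2.1 (h4 t (mem_insert_of_mem ht))
    obtain ⟨Z2, hZ2, he2⟩ := ih _ (D + 1) Z1 hZ1 c1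
      (fun u hu t ht => h2 u (mem_insert_of_mem hu) t (mem_insert_of_mem ht)) c2 c3
    refine ⟨Z2, ?_, ?_⟩
    · have e1 : insert s (insert (f s) B) ∪ (S ∪ S.image f) = B ∪ (insert s S ∪ (insert s S).image f) := by
        rw [image_insert]
        ext w
        simp only [mem_union, mem_insert]
        tauto
      have e2 : D + 1 + 1 + S.card = D + 1 + (insert s S).card := by
        rw [card_insert_of_notMem hs]; omega
      rw [← e1, ← e2]
      exact hZ2
    · have e2 : D + 1 + (insert s S).card = D + 1 + 1 + S.card := by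
        rw [card_insert_of_notMem hs]; omega
      rw [e2, he2, he1]

end Pool.Agent.H815.TW
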