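import Pool.Agent.H815.TW.Hom

/-!
# Doubled full subgraphs
-/

set_option autoImplicit false

namespace Pool.Agent.H815.TW

open Finset Pool.Agent.W555.KS Pool.Agent.Y131.KS

variable {n : ℕ}

/-- `f` doubles the full subgraph of `G` on `A` -/
structure Dbl (G : SimpleGraph (Fin n)) (f : Fin n → Fin n) (A : Finset (Fin n)) : Prop where
  out : ∀ v ∈ A, f v ∉ A
  adj : ∀ u ∈ A, ∀ v ∈ A, G.Adj u v → G.Adj u (f v)
  adj2 : ∀ u ∈ A, ∀ v ∈ A, G.Adj u v → G.Adj (f u) (f v)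

/-- there is a symmetric cycle with `D` vertices with nonzero evaluation -/
def Has (G : SimpleGraph (Fin n)) (f : Fin n → Fin n) (A : Finset (Fin n)) (D : ℕ) : Prop :=
  ∃ Z : PC n, SC G (A ∪ A.image f) D Z ∧ ev D Z = 1

end Pool.Agent.H815.TW
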