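import Mathlib

/-!
# Iterated contractions
-/

set_option autoImplicit false
set_option linter.unusedSectionVars false

namespace Pool.Agent.H815.TW

open Topology

variable {Γ M : Type} [Group Γ] [TopologicalSpace M] [MulAction Γ M] [ContinuousConstSMul Γ M]

/-- a contraction of `M` to the point `o` -/
structure Con (M : Type) [TopologicalSpace M] where
  o : M
  c : M × ℝ → M
  cont : Continuous c
  zero : ∀ m, c (m, 0) = m
  one : ∀ m, c (m, 1) = o

theorem exists_con (M : Type) [TopologicalSpace M] [ContractibleSpace M] : Nonempty (Con M) := by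
  obtain ⟨o, ⟨F⟩⟩ := (contractible_iff_id_nullhomotopic M).1 inferInstance
  refine ⟨⟨o, fun p => F (Set.projIcc 0 1 zero_le_one p.2, p.1), ?_, fun m => ?_, fun m => ?_⟩⟩
  · exact F.continuous.comp ((continuous_projIcc.comp continuous_snd).prodMk continuous_fst)
  · show F (Set.projIcc 0 1 zero_le_one 0, m) = m
    rw [Set.projIcc_left]
    exact F.apply_zero m
  · show F (Set.projIcc 0 1 zero_le_one 1, m) = o
    rw [Set.projIcc_right]
    exact F.apply_one m

variable (K : Con M)

/-- the sum of the weights -/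
def wt (l : List (Γ × ℝ)) : ℝ := (l.map Prod.snd).sum

/-- the iterated contraction -/
noncomputable def fold : List (Γ × ℝ) → M
  | [] => K.o
  | (g, w) :: l => g • K.c (g⁻¹ • fold l, w / (w + wt l))

theorem wt_nonneg {l : List (Γ × ℝ)} (h : ∀ p ∈ l, 0 ≤ p.2) : 0 ≤ wt l := by
  unfold wt
  refine List.sum_nonneg fun x hx => ?_
  obtain ⟨p, hp, rfl⟩ := List.mem_map.1 hx
  exact h p hp

theorem wt_cons (g : Γ) (w : ℝ) (l : List (Γ × ℝ)) : wt ((g, w) :: l) = w + wt l := by
  unfold wt
  rw [List.map_cons, List.sum_cons]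

theorem fold_zero (g : Γ) (l : List (Γ × ℝ)) : fold K ((g, 0) :: l) = fold K l := by
  show g • K.c (g⁻¹ • fold K l, 0 / (0 + wt l)) = _
  rw [zero_div, K.zero, smul_inv_smul]

open Classical in
theorem wt_filter {l : List (Γ × ℝ)} (h : ∀ p ∈ l, 0 ≤ p.2) : wt (l.filter fun p => decide (0 < p.2)) = wt l := by
  induction l with
  | nil => rfl
  | cons p l ih =>
    obtain ⟨g, w⟩ := p
    have h1 := ih fun p hp => h p (List.mem_cons_of_mem _ hp)
    have h2 : 0 ≤ w := h (g, w) List.mem_cons_self
    by_cases h3 : 0 < w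
    · rw [List.filter_cons_of_pos (by simpa using h3), wt_cons, wt_cons, h1]
    · rw [List.filter_cons_of_neg (by simpa using h3), h1, wt_cons]
      have : w = 0 := le_antisymm (not_lt.1 h3) h2
      rw [this, zero_add]

open Classical in
/-- the elements with weight zero can be omitted -/
theorem fold_filter {l : List (Γ × ℝ)} (h : ∀ p ∈ l, 0 ≤ p.2) :
    fold K (l.filter fun p => decide (0 < p.2)) = fold K l := by
  induction l with
  | nil => rfl
  | cons p l ih =>
    obtain ⟨g, w⟩ := p
    have h0 : ∀ p ∈ l, 0 ≤ p.2 := fun p hp => h p (List.mem_cons_of_mem _ hp)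
    have h1 := ih h0
    have h2 : 0 ≤ w := h (g, w) List.mem_cons_self
    by_cases h3 : 0 < w
    · rw [List.filter_cons_of_pos (by simpa using h3)]
      show g • K.c (g⁻¹ • fold K _, w / (w + wt _)) = g • K.c (g⁻¹ • fold K l, w / (w + wt l))
      rw [h1, wt_filter h0]
    · rw [List.filter_cons_of_neg (by simpa using h3), h1]
      have : w = 0 := le_antisymm (not_lt.1 h3) h2
      rw [this, fold_zero]

/-- equivariance -/
theorem fold_smul (h : Γ) {l : List (Γ × ℝ)} (hl : ∀ p ∈ l, 0 ≤ p.2) (hw : 0 < wt l) :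
    fold K (l.map fun p => (h * p.1, p.2)) = h • fold K l := by
  induction l with
  | nil => exact absurd hw (lt_irrefl _)
  | cons p l ih =>
    obtain ⟨g, w⟩ := p
    have h0 : ∀ p ∈ l, 0 ≤ p.2 := fun p hp => hl p (List.mem_cons_of_mem _ hp)
    have hwt : wt (l.map fun p => (h * p.1, p.2)) = wt l := by
      unfold wt
      rw [List.map_map]
      rfl
    rw [List.map_cons]
    show (h * g) • K.c ((h * g)⁻¹ • fold K _, w / (w + wt _)) = h • g • K.c (g⁻¹ • fold K l, w / (w + wt l))
    rw [hwt, mul_smul]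
    rcases (wt_nonneg h0).eq_or_lt with h1 | h1
    · rw [wt_cons, ← h1, add_zero] at hw
      rw [← h1, add_zero, div_self hw.ne', K.one, K.one]
    · rw [ih h0 h1, mul_inv_rev, mul_smul, inv_smul_smul]

/-- compact sets containing the values -/
noncomputable def box : List Γ → Set M
  | [] => {K.o}
  | g :: l => (fun p : M × ℝ => g • K.c (g⁻¹ • p.1, p.2)) '' (box l ×ˢ Set.Icc 0 1)

theorem cg_cont (g : Γ) : Continuous fun p : M × ℝ => g • K.c (g⁻¹ • p.1, p.2) :=
  (continuous_const_smul g).comp (K.cont.comp (((continuous_const_smul g⁻¹).comp continuous_fst).prodMk continuous_snd))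

theorem box_compact (l : List Γ) : IsCompact (box K l) := by
  induction l with
  | nil => exact isCompact_singleton
  | cons g l ih => exact (ih.prod isCompact_Icc).image (cg_cont K g)

theorem ratio_mem {w s : ℝ} (hw : 0 ≤ w) (hs : 0 ≤ s) : w / (w + s) ∈ Set.Icc (0 : ℝ) 1 := by
  refine ⟨div_nonneg hw (add_nonneg hw hs), ?_⟩
  exact div_le_one_of_le₀ (by linarith) (add_nonneg hw hs)

theorem fold_mem {l : List (Γ × ℝ)} (hl : ∀ p ∈ l, 0 ≤ p.2) : fold K l ∈ box K (l.map Prod.fst) := by
  induction l with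
  | nil => exact Set.mem_singleton _
  | cons p l ih =>
    obtain ⟨g, w⟩ := p
    have h0 : ∀ p ∈ l, 0 ≤ p.2 := fun p hp => hl p (List.mem_cons_of_mem _ hp)
    refine ⟨(fold K l, w / (w + wt l)), ⟨ih h0, ratio_mem (hl (g, w) List.mem_cons_self) (wt_nonneg h0)⟩, rfl⟩

/-- the contraction at the time close to one -/
theorem near_one (g : Γ) {C : Set M} (hC : IsCompact C) {U : Set M} (hU : IsOpen U) (ho : g • K.o ∈ U) :
    ∀ᶠ t in 𝓝 (1 : ℝ), ∀ m ∈ C, g • K.c (g⁻¹ • m, t) ∈ U := by
  have h1 : IsOpen ((fun p : M × ℝ => g • K.c (g⁻¹ • p.1, p.2)) ⁻¹' U) := hU.preimage (cg_cont K g)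
  have h2 : C ×ˢ ({1} : Set ℝ) ⊆ (fun p : M × ℝ => g • K.c (g⁻¹ • p.1, p.2)) ⁻¹' U := by
    rintro ⟨m, t⟩ ⟨_, ht⟩
    rw [Set.mem_singleton_iff] at ht
    subst ht
    show g • K.c (g⁻¹ • m, 1) ∈ U
    rw [K.one]
    exact ho
  obtain ⟨u, v, _, hv, hCu, h1v, huv⟩ := generalized_tube_lemma hC isCompact_singleton h1 h2
  filter_upwards [hv.mem_nhds (h1v (Set.mem_singleton 1))] with t ht m hm
  have h3 : ((m, t) : M × ℝ) ∈ u ×ˢ v := ⟨hCu hm, ht⟩
  exact huv h3

/-- continuity -/
theorem fold_cont {Y : Type} [TopologicalSpace Y] (l : List (Γ × (Y → ℝ))) (hl : ∀ p ∈ l, Continuous p.2)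
    (hn : ∀ p ∈ l, ∀ y, 0 ≤ p.2 y) (y0 : Y) (hw : 0 < wt (l.map fun p => (p.1, p.2 y0))) :
    ContinuousAt (fun y => fold K (l.map fun p => (p.1, p.2 y))) y0 := by
  induction l with
  | nil => exact absurd hw (lt_irrefl _)
  | cons p l ih =>
    obtain ⟨g, w⟩ := p
    have h0 : ∀ p ∈ l, Continuous p.2 := fun p hp => hl p (List.mem_cons_of_mem _ hp)
    have h0' : ∀ p ∈ l, ∀ y, 0 ≤ p.2 y := fun p hp => hn p (List.mem_cons_of_mem _ hp)
    have hwc : Continuous w := hl (g, w) List.mem_cons_self
    have hwn : ∀ y, 0 ≤ w y := hn (g, w) List.mem_cons_self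
    have h1n : ∀ y, ∀ p ∈ l.map (fun p => (p.1, p.2 y)), 0 ≤ p.2 := by
      intro y p hp
      obtain ⟨q, hq, rfl⟩ := List.mem_map.1 hp
      exact h0' q hq y
    have hsc : Continuous fun y => wt (l.map fun p => (p.1, p.2 y)) := by
      have h2 : ∀ (l : List (Γ × (Y → ℝ))), (∀ p ∈ l, Continuous p.2) →
          Continuous fun y => wt (l.map fun p => (p.1, p.2 y)) := by
        intro l
        induction l with
        | nil => exact fun _ => continuous_const
        | cons q l ih2 =>
          intro hq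
          have h3 : (fun y => wt ((q :: l).map fun p => (p.1, p.2 y))) =
              fun y => q.2 y + wt (l.map fun p => (p.1, p.2 y)) := by
            funext y
            rw [List.map_cons, wt_cons]
          rw [h3]
          exact (hq q List.mem_cons_self).add (ih2 fun p hp => hq p (List.mem_cons_of_mem _ hp))
      exact h2 l h0
    have hs0 := wt_nonneg (h1n y0)
    have hr : ContinuousAt (fun y => w y / (w y + wt (l.map fun p => (p.1, p.2 y)))) y0 := by
      refine hwc.continuousAt.div (hwc.add hsc).continuousAt ?_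
      rw [List.map_cons, wt_cons] at hw
      exact hw.ne'
    show ContinuousAt (fun y => g • K.c (g⁻¹ • fold K (l.map fun p => (p.1, p.2 y)),
      w y / (w y + wt (l.map fun p => (p.1, p.2 y))))) y0
    rcases hs0.eq_or_lt with h1 | h1
    · -- the ratio tends to one
      have hw0 : 0 < w y0 := by
        rw [List.map_cons, wt_cons, ← h1, add_zero] at hw
        exact hw
      have hr1 : w y0 / (w y0 + wt (l.map fun p => (p.1, p.2 y0))) = 1 := by
        rw [← h1, add_zero, div_self hw0.ne']
      intro U hU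
      have e1 : g • K.c (g⁻¹ • fold K (l.map fun p => (p.1, p.2 y0)),
          w y0 / (w y0 + wt (l.map fun p => (p.1, p.2 y0)))) = g • K.o := by
        rw [hr1, K.one]
      replace hU : U ∈ 𝓝 (g • K.c (g⁻¹ • fold K (l.map fun p => (p.1, p.2 y0)),
          w y0 / (w y0 + wt (l.map fun p => (p.1, p.2 y0))))) := hU
      rw [e1] at hU
      obtain ⟨U', hU', hUo, hoU⟩ := mem_nhds_iff.1 hU
      have h2 := near_one K g (box_compact K (l.map Prod.fst)) hUo hoU
      have h3 : Filter.Tendsto (fun y => w y / (w y + wt (l.map fun p => (p.1, p.2 y)))) (𝓝 y0) (𝓝 1) := by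
        have h4 := hr.tendsto
        rw [hr1] at h4
        exact h4
      rw [Filter.mem_map]
      filter_upwards [h3.eventually h2] with y hy
      refine hU' (hy _ ?_)
      have h5 := fold_mem K (h1n y)
      rw [List.map_map] at h5
      exact h5
    · have h2 := ih h0 h0' h1
      have h3 := ContinuousAt.prodMk h2 hr
      exact ContinuousAt.comp (f := fun y => (fold K (l.map fun p => (p.1, p.2 y)),
        w y / (w y + wt (l.map fun p => (p.1, p.2 y))))) (cg_cont K g).continuousAt h3

end Pool.Agent.H815.TW
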