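import Pool.Agent.H815.TW.Chain

/-!
# Chains modulo 2 on the cliques of a graph
-/

set_option autoImplicit false

namespace Pool.Agent.H815.TW

open Finset Pool.Agent.W555.KS Pool.Agent.Y131.KS

variable {n : ℕ}

/-- chains with `c` vertices of the flag complex of the full subgraph of `H` on `A` -/
def Ch (H : SimpleGraph (Fin n)) (A : Finset (Fin n)) (c : ℕ) (z : Finset (Fin n) → ZMod 2) : Prop :=
  ∀ σ, z σ ≠ 0 → H.IsClique (σ : Set (Fin n)) ∧ σ ⊆ A ∧ σ.card = c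

/-- the boundary -/
def b1 (z : Finset (Fin n) → ZMod 2) : Finset (Fin n) → ZMod 2 := fun ρ => ∑ v ∈ ρᶜ, z (insert v ρ)

/-- exactness -/
def Ex (H : SimpleGraph (Fin n)) (A : Finset (Fin n)) (c : ℕ) : Prop :=
  ∀ z, Ch H A c z → b1 z = 0 → ∃ w, Ch H A (c + 1) w ∧ b1 w = z

theorem b1_add (z w : Finset (Fin n) → ZMod 2) : b1 (z + w) = b1 z + b1 w := by
  funext ρ
  show ∑ v ∈ ρᶜ, (z (insert v ρ) + w (insert v ρ)) = _
  rw [sum_add_distrib]
  rfl

theorem b1_zero : b1 (0 : Finset (Fin n) → ZMod 2) = 0 := by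
  funext ρ
  exact sum_eq_zero fun _ _ => rfl

theorem b1_b1 (z : Finset (Fin n) → ZMod 2) : b1 (b1 z) = 0 := by
  funext ρ
  show ∑ v ∈ ρᶜ, ∑ w ∈ (insert v ρ)ᶜ, z (insert w (insert v ρ)) = 0
  have e1 : ∀ v ∈ ρᶜ, ∑ w ∈ (insert v ρ)ᶜ, z (insert w (insert v ρ)) =
      ∑ w ∈ ρᶜ.erase v, z (insert w (insert v ρ)) := by
    intro v _
    refine sum_congr ?_ fun _ _ => rfl
    ext w; simp only [mem_compl, mem_insert, mem_erase]; tauto
  rw [sum_congr rfl e1, sum_sigma']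
  refine sum_involution (fun (x : Σ _ : Fin n, Fin n) _ => ⟨x.2, x.1⟩) ?_ ?_ ?_ ?_
  · rintro ⟨v, w⟩ _
    simp only
    rw [Finset.insert_comm v w ρ]
    exact two_zero _
  · rintro ⟨v, w⟩ h2 _ h3
    simp only [mem_sigma, mem_erase] at h2
    simp only [Sigma.mk.injEq, heq_eq_eq] at h3
    exact h2.2.1 h3.1
  · rintro ⟨v, w⟩ h2
    simp only [mem_sigma, mem_erase] at h2 ⊢
    exact ⟨h2.2.2, fun e => h2.2.1 e.symm, h2.1⟩
  · rintro ⟨v, w⟩ _
    rfl

theorem fadd_self (z : Finset (Fin n) → ZMod 2) : z + z = 0 := by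
  funext ρ
  exact two_zero _

/-- the cone over `y` with the vertex `a` -/
def cone (a : Fin n) (y : Finset (Fin n) → ZMod 2) : Finset (Fin n) → ZMod 2 :=
  fun σ => if a ∈ σ then y (σ.erase a) else 0

theorem cone_ne {a : Fin n} {y : Finset (Fin n) → ZMod 2} {σ : Finset (Fin n)} (h : cone a y σ ≠ 0) :
    a ∈ σ ∧ y (σ.erase a) ≠ 0 := by
  unfold cone at h
  split_ifs at h with h1
  · exact ⟨h1, h⟩
  · exact absurd rfl h

theorem b1_cone {a : Fin n} {y : Finset (Fin n) → ZMod 2} (hy : b1 y = 0) : b1 (cone a y) = y := by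
  funext ρ
  show ∑ v ∈ ρᶜ, cone a y (insert v ρ) = y ρ
  by_cases ha : a ∈ ρ
  · have h1 : b1 y (ρ.erase a) = 0 := congrFun hy _
    have h2 : (ρ.erase a)ᶜ = insert a ρᶜ := by
      ext w
      simp only [mem_compl, mem_erase, mem_insert]
      tauto
    unfold b1 at h1
    rw [h2, sum_insert (by simp [ha]), insert_erase ha] at h1
    have h3 : ∑ v ∈ ρᶜ, cone a y (insert v ρ) = ∑ v ∈ ρᶜ, y (insert v (ρ.erase a)) := by
      refine sum_congr rfl fun v hv => ?_
      have hva : v ≠ a := fun e => (mem_compl.1 hv) (e ▸ ha)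
      unfold cone
      rw [if_pos (mem_insert_of_mem ha), erase_insert_of_ne hva]
    rw [h3]
    exact (CharTwo.add_eq_zero.1 h1).symm
  · rw [sum_eq_single a]
    · unfold cone
      rw [if_pos (mem_insert_self _ _), erase_insert ha]
    · intro v _ hva
      unfold cone
      rw [if_neg]
      rw [mem_insert, not_or]
      exact ⟨fun e => hva e.symm, ha⟩
    · intro h
      simp [ha] at h

theorem Ch.mono {H H' : SimpleGraph (Fin n)} {A A' : Finset (Fin n)} {c : ℕ} {z : Finset (Fin n) → ZMod 2}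
    (h : Ch H A c z) (hH : H ≤ H') (hA : A ⊆ A') : Ch H' A' c z := by
  intro σ hσ
  obtain ⟨h1, h2, h3⟩ := h σ hσ
  exact ⟨h1.mono hH, h2.trans hA, h3⟩

theorem Ch.add {H : SimpleGraph (Fin n)} {A : Finset (Fin n)} {c : ℕ} {z w : Finset (Fin n) → ZMod 2}
    (h : Ch H A c z) (h' : Ch H A c w) : Ch H A c (z + w) := by
  intro σ hσ
  by_cases h1 : z σ = 0
  · refine h' σ fun h2 => hσ ?_
    show z σ + w σ = 0
    rw [h1, h2, add_zero]
  · exact h σ h1

theorem Ch.zero (H : SimpleGraph (Fin n)) (A : Finset (Fin n)) (c : ℕ) : Ch H A c 0 := by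
  intro σ hσ
  exact absurd rfl hσ

theorem Ch.b1 {H : SimpleGraph (Fin n)} {A : Finset (Fin n)} {c : ℕ} {z : Finset (Fin n) → ZMod 2}
    (h : Ch H A (c + 1) z) : Ch H A c (b1 z) := by
  intro ρ hρ
  obtain ⟨v, hv, h1⟩ := exists_ne_zero_of_sum_ne_zero hρ
  obtain ⟨h2, h3, h4⟩ := h _ h1
  rw [mem_compl] at hv
  refine ⟨h2.subset (by simp), (subset_insert _ _).trans h3, ?_⟩
  rw [card_insert_of_notMem hv] at h4
  omega

/-- exactness in the degrees `≥ 1` for simplices -/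
theorem ex_simplex {H : SimpleGraph (Fin n)} {S : Finset (Fin n)} (hS : H.IsClique (S : Set (Fin n)))
    (hne : S.Nonempty) (c : ℕ) : Ex H S c := by
  obtain ⟨a, ha⟩ := hne
  intro z hz hb
  refine ⟨cone a z, fun σ hσ => ?_, b1_cone hb⟩
  obtain ⟨h1, h2⟩ := cone_ne hσ
  obtain ⟨h3, h4, h5⟩ := hz _ h2
  have h6 : σ ⊆ S := by
    rw [← insert_erase h1, insert_subset_iff]
    exact ⟨ha, h4⟩
  refine ⟨hS.subset (by exact_mod_cast h6), h6, ?_⟩
  rw [card_erase_of_mem h1] at h5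
  have := card_pos.2 ⟨a, h1⟩
  omega

theorem ex_empty {H : SimpleGraph (Fin n)} {A : Finset (Fin n)} {c : ℕ} (h : A.card < c) : Ex H A c := by
  intro z hz _
  refine ⟨0, Ch.zero _ _ _, ?_⟩
  rw [b1_zero]
  funext σ
  by_contra h1
  obtain ⟨_, h2, h3⟩ := hz σ (fun h2 => h1 h2.symm)
  have := card_le_card h2
  omega

/-- the link of a chain at `s` -/
def lkz (s : Fin n) (z : Finset (Fin n) → ZMod 2) : Finset (Fin n) → ZMod 2 :=
  fun ρ => if s ∈ ρ then 0 else z (insert s ρ)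

theorem b1_lkz {s : Fin n} {z : Finset (Fin n) → ZMod 2} (h : b1 z = 0) : b1 (lkz s z) = 0 := by
  funext ρ
  show ∑ v ∈ ρᶜ, lkz s z (insert v ρ) = 0
  by_cases hs : s ∈ ρ
  · refine sum_eq_zero fun v _ => ?_
    unfold lkz
    rw [if_pos (mem_insert_of_mem hs)]
  · have h1 : b1 z (insert s ρ) = 0 := congrFun h _
    unfold b1 at h1
    have h2 : ρᶜ = insert s (insert s ρ)ᶜ := by
      ext w
      simp only [mem_compl, mem_insert, not_or]
      by_cases hw : w = s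
      · simp [hw, hs]
      · simp [hw]
    rw [h2, sum_insert (by simp), ← h1]
    have h3 : lkz s z (insert s ρ) = 0 := by
      unfold lkz
      rw [if_pos (mem_insert_self _ _)]
    rw [h3, zero_add]
    refine sum_congr rfl fun v hv => ?_
    simp only [mem_compl, mem_insert, not_or] at hv
    unfold lkz
    rw [if_neg (by rw [mem_insert, not_or]; exact ⟨fun e => hv.1 e.symm, hs⟩), Finset.insert_comm]

open Classical in
/-- the neighbours of `v` in `A` -/
noncomputable def nb (H : SimpleGraph (Fin n)) (A : Finset (Fin n)) (v : Fin n) : Finset (Fin n) :=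
  A.filter fun u => H.Adj v u

theorem mem_nb {H : SimpleGraph (Fin n)} {A : Finset (Fin n)} {v u : Fin n} :
    u ∈ nb H A v ↔ u ∈ A ∧ H.Adj v u := by
  simp [nb]

/-- a vertex is removed -/
theorem ex_erase {H : SimpleGraph (Fin n)} {A : Finset (Fin n)} {c : ℕ} {v : Fin n} (hv : v ∈ A)
    (h1 : Ex H (A.erase v) (c + 1)) (h2 : Ex H (nb H A v) c) : Ex H A (c + 1) := by
  intro z hz hb
  have h3 : Ch H (nb H A v) c (lkz v z) := by
    intro σ hσ
    unfold lkz at hσ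
    split_ifs at hσ with h4
    · exact absurd rfl hσ
    · obtain ⟨h5, h6, h7⟩ := hz _ hσ
      rw [card_insert_of_notMem h4] at h7
      refine ⟨h5.subset (by simp), fun u hu => mem_nb.2 ⟨h6 (mem_insert_of_mem hu), ?_⟩, by omega⟩
      exact h5 (by simp) (by simp [hu]) fun e => h4 (e ▸ hu)
  obtain ⟨w, hw, hbw⟩ := h2 _ h3 (b1_lkz hb)
  have hwv : ∀ ρ, v ∈ ρ → w ρ = 0 := by
    intro ρ hρ
    by_contra h4
    have h5 := (hw ρ h4).2.1 hρ
    exact (mem_nb.1 h5).2.ne rfl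
  -- the cone
  have hcone : Ch H A (c + 2) (cone v w) := by
    intro σ hσ
    obtain ⟨h4, h5⟩ := cone_ne hσ
    obtain ⟨h6, h7, h8⟩ := hw _ h5
    rw [card_erase_of_mem h4] at h8
    have := card_pos.2 ⟨v, h4⟩
    refine ⟨?_, ?_, by omega⟩
    · rw [← insert_erase h4, coe_insert, SimpleGraph.isClique_insert]
      exact ⟨h6, fun u hu _ => (mem_nb.1 (h7 (by exact_mod_cast hu))).2⟩
    · rw [← insert_erase h4, insert_subset_iff]
      exact ⟨hv, fun u hu => (mem_nb.1 (h7 hu)).1⟩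
  -- the boundary of the cone
  have hbc : ∀ ρ, v ∈ ρ → b1 (cone v w) ρ = z ρ := by
    intro ρ hρ
    have h4 : b1 (cone v w) ρ = b1 w (ρ.erase v) := by
      show ∑ u ∈ ρᶜ, cone v w (insert u ρ) = ∑ u ∈ (ρ.erase v)ᶜ, w (insert u (ρ.erase v))
      have h5 : (ρ.erase v)ᶜ = insert v ρᶜ := by
        ext w
        simp only [mem_compl, mem_erase, mem_insert]
        tauto
      rw [h5, sum_insert (by simp [hρ]), insert_erase hρ, hwv ρ hρ, zero_add]
      refine sum_congr rfl fun u hu => ?_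
      have hua : u ≠ v := fun e => (mem_compl.1 hu) (e ▸ hρ)
      unfold cone
      rw [if_pos (mem_insert_of_mem hρ), erase_insert_of_ne hua]
    rw [h4, hbw]
    unfold lkz
    rw [if_neg (notMem_erase v ρ), insert_erase hρ]
  have h4 : Ch H (A.erase v) (c + 1) (z + b1 (cone v w)) := by
    intro σ hσ
    obtain ⟨h5, h6, h7⟩ := (hz.add hcone.b1) σ hσ
    refine ⟨h5, fun u hu => mem_erase.2 ⟨fun e => hσ ?_, h6 hu⟩, h7⟩
    show z σ + b1 (cone v w) σ = 0
    rw [hbc σ (e ▸ hu)]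
    exact two_zero _
  obtain ⟨x, hx, hbx⟩ := h1 _ h4 (by rw [b1_add, hb, b1_b1, add_zero])
  refine ⟨x + cone v w, (hx.mono le_rfl (erase_subset _ _)).add hcone, ?_⟩
  rw [b1_add, hbx, add_assoc, fadd_self, add_zero]

/-- A set of vertices which is minimal for non-exactness. -/
theorem exists_min {H : SimpleGraph (Fin n)} {A : Finset (Fin n)} {c : ℕ} (h : ¬ Ex H A c) :
    ∃ A' ⊆ A, ¬ Ex H A' c ∧ ∀ v ∈ A', Ex H (A'.erase v) c := by
  induction A using Finset.strongInduction with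
  | H A ih =>
    by_cases h1 : ∀ v ∈ A, Ex H (A.erase v) c
    · exact ⟨A, Subset.refl _, h, h1⟩
    · push Not at h1
      obtain ⟨v, hv, h2⟩ := h1
      obtain ⟨A', h3, h4, h5⟩ := ih (A.erase v) (erase_ssubset hv) h2
      exact ⟨A', h3.trans (erase_subset _ _), h4, h5⟩

/-- a link with homology -/
theorem exists_link {H : SimpleGraph (Fin n)} {A : Finset (Fin n)} {c : ℕ} (h : ¬ Ex H A (c + 1)) :
    ∃ A' ⊆ A, ∃ v ∈ A', ¬ Ex H (nb H A' v) c := by
  obtain ⟨A', h1, h2, h3⟩ := exists_min h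
  have h4 : A'.Nonempty := by
    by_contra h5
    rw [not_nonempty_iff_eq_empty] at h5
    apply h2
    rw [h5]
    exact ex_empty (by simp)
  obtain ⟨v, hv⟩ := h4
  exact ⟨A', h1, v, hv, fun h5 => h2 (ex_erase hv (h3 v hv) h5)⟩

end Pool.Agent.H815.TW
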