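import Pool.Agent.H815.TW.Fold
import Pool.Agent.H815.TW.Defs

/-!
# Maps of cones given by commuting rays in a group
-/

set_option autoImplicit false
set_option linter.unusedSectionVars false

namespace Pool.Agent.H815.TW

open Topology

variable {Γ : Type} [Group Γ] {N : ℕ}

/-- the ordered product of the elements on the rays -/
def pr (r : Fin N → ℕ → Γ) (k : Fin N → ℕ) : Γ := (List.ofFn fun v => r v (k v)).prod

/-- For each vertex `v` of the complex `L` there is a sequence `r v 0 = 1`, `r v 1`, ... of elements of the group;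
the quotients of consecutive elements are in a finite set, the sequences of the vertices of a simplex commute, and
for disjoint simplices the products of elements of the sequences diverge. -/
structure Rays (L : Finset (Finset (Fin N))) (r : Fin N → ℕ → Γ) : Prop where
  zero : ∀ v, r v 0 = 1
  fin : ∃ B : Set Γ, B.Finite ∧ ∀ v k, (r v k)⁻¹ * r v (k + 1) ∈ B
  comm : ∀ σ ∈ L, ∀ u ∈ σ, ∀ v ∈ σ, u ≠ v → ∀ k l, Commute (r u k) (r v l)
  div : ∀ F : Set Γ, F.Finite → ∃ R : ℕ, ∀ σ ∈ L, ∀ τ ∈ L, Disjoint σ τ → ∀ k k' : Fin N → ℕ,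
    (∀ v ∉ σ, k v = 0) → (∀ v ∉ τ, k' v = 0) → (pr r k)⁻¹ * pr r k' ∈ F → ∀ v, k v ≤ R ∧ k' v ≤ R

/-- products of commuting families -/
theorem prod_ofFn_mul {n : ℕ} (a b : Fin n → Γ) (h : ∀ i j, i ≠ j → Commute (a j) (b i)) :
    (List.ofFn a).prod * (List.ofFn b).prod = (List.ofFn fun i => a i * b i).prod := by
  induction n with
  | zero => simp
  | succ n ih =>
    rw [List.ofFn_succ, List.ofFn_succ, List.ofFn_succ, List.prod_cons, List.prod_cons, List.prod_cons,
      ← ih (fun i => a i.succ) (fun i => b i.succ) fun i j hij => h _ _ fun e => hij (Fin.succ_injective _ e)]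
    have h1 : Commute (List.ofFn fun i => a (Fin.succ i)).prod (b 0) := by
      refine Commute.list_prod_left _ _ fun x hx => ?_
      obtain ⟨i, rfl⟩ := List.mem_ofFn.1 hx
      exact h 0 i.succ (Fin.succ_ne_zero i).symm
    rw [mul_assoc, ← mul_assoc _ (b 0), h1.eq]
    group

/-- the weight of the lattice point `k` -/
noncomputable def lam (k : Fin N → ℕ) (x : Fin N → ℝ) : ℝ := ∏ v, max 0 (1 - |x v - k v|)

theorem lam_nonneg (k : Fin N → ℕ) (x : Fin N → ℝ) : 0 ≤ lam k x :=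
  Finset.prod_nonneg fun _ _ => le_max_left _ _

theorem lam_cont (k : Fin N → ℕ) : Continuous (lam k) := by
  unfold lam
  fun_prop

theorem lam_pos {k : Fin N → ℕ} {x : Fin N → ℝ} (h : 0 < lam k x) (v : Fin N) : |x v - k v| < 1 := by
  by_contra h1
  push Not at h1
  have h2 : lam k x = 0 := Finset.prod_eq_zero (Finset.mem_univ v) (max_eq_left (by linarith))
  rw [h2] at h
  exact lt_irrefl _ h

theorem lam_floor (x : Fin N → ℝ) (hx : ∀ v, 0 ≤ x v) : 0 < lam (fun v => ⌊x v⌋₊) x := by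
  refine Finset.prod_pos fun v _ => lt_max_of_lt_right ?_
  have h1 := Nat.floor_le (hx v)
  have h2 := Nat.lt_floor_add_one (x v)
  have h3 : |x v - (⌊x v⌋₊ : ℝ)| < 1 := by
    rw [abs_lt]
    constructor <;> linarith
  linarith

theorem near_floor {x : ℝ} (hx : 0 ≤ x) {k : ℕ} (h : |x - k| < 1) : k = ⌊x⌋₊ ∨ k = ⌊x⌋₊ + 1 := by
  have h1 := Nat.floor_le hx
  have h2 := Nat.lt_floor_add_one x
  rw [abs_lt] at h
  have h3 : (k : ℝ) < (⌊x⌋₊ + 2 : ℕ) := by push_cast; linarith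
  have h4 : (⌊x⌋₊ : ℝ) < (k + 1 : ℕ) := by push_cast; linarith
  have h5 : k < ⌊x⌋₊ + 2 := by exact_mod_cast h3
  have h6 : ⌊x⌋₊ < k + 1 := by exact_mod_cast h4
  omega

/-- lists of bounded length over a finite set -/
theorem lists_finite (E : Set Γ) (hE : E.Finite) (n : ℕ) : {l : List Γ | l.length ≤ n ∧ ∀ g ∈ l, g ∈ E}.Finite := by
  induction n with
  | zero =>
    refine (Set.finite_singleton []).subset ?_
    rintro l ⟨h1, _⟩
    exact List.length_eq_zero_iff.1 (Nat.le_zero.1 h1)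
  | succ n ih =>
    refine ((Set.Finite.image2 (fun g l => g :: l) hE ih).insert []).subset ?_
    rintro l ⟨h1, h2⟩
    cases l with
    | nil => exact Set.mem_insert _ _
    | cons g l =>
      refine Set.mem_insert_of_mem _ ⟨g, h2 g List.mem_cons_self, l, ⟨?_, fun x hx => h2 x (List.mem_cons_of_mem _ hx)⟩, rfl⟩
      rw [List.length_cons] at h1
      omega

variable {M : Type} [TopologicalSpace M] [MulAction Γ M] [ContinuousConstSMul Γ M] (K : Con M)

/-- the list of lattice points -/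
noncomputable def lat (N R : ℕ) : List (Fin N → Fin (R + 2)) := Finset.univ.toList

/-- the map of the cone -/
noncomputable def HH (r : Fin N → ℕ → Γ) (R : ℕ) (x : Fin N → ℝ) : M :=
  fold K ((lat N R).map fun k => (pr r fun v => (k v : ℕ), lam (fun v => (k v : ℕ)) x))

theorem lat_sum (N R : ℕ) (f : (Fin N → Fin (R + 2)) → ℝ) : ((lat N R).map f).sum = ∑ k, f k := by
  unfold lat
  exact Finset.sum_map_toList _ _

theorem lam_sum (R : ℕ) {x : Fin N → ℝ} (hx : ∀ v, 0 ≤ x v) (hR : ∀ v, x v ≤ R) :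
    0 < ∑ k : Fin N → Fin (R + 2), lam (fun v => (k v : ℕ)) x := by
  have hlt : ∀ v, ⌊x v⌋₊ < R + 2 := by
    intro v
    have h1 : ⌊x v⌋₊ ≤ R := Nat.floor_le_of_le (hR v)
    exact Nat.lt_add_right 1 (Nat.lt_succ_of_le h1)
  obtain ⟨k0, hk0⟩ : ∃ k0 : Fin N → Fin (R + 2), ∀ v, (k0 v : ℕ) = ⌊x v⌋₊ := ⟨fun v => ⟨⌊x v⌋₊, hlt v⟩, fun _ => rfl⟩
  have h1 : 0 < lam (fun v => (k0 v : ℕ)) x := by
    have h2 : (fun v => (k0 v : ℕ)) = fun v => ⌊x v⌋₊ := funext hk0
    rw [h2]
    exact lam_floor x hx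
  exact Finset.sum_pos' (fun k _ => lam_nonneg _ x) ⟨k0, Finset.mem_univ _, h1⟩

theorem HH_wt (r : Fin N → ℕ → Γ) (R : ℕ) {x : Fin N → ℝ} (hx : ∀ v, 0 ≤ x v) (hR : ∀ v, x v ≤ R) :
    0 < wt ((lat N R).map fun k => (pr r fun v => (k v : ℕ), lam (fun v => (k v : ℕ)) x)) := by
  have h1 : wt ((lat N R).map fun k => (pr r fun v => (k v : ℕ), lam (fun v => (k v : ℕ)) x)) =
      ((lat N R).map fun k => lam (fun v => (k v : ℕ)) x).sum := by
    unfold wt
    rw [List.map_map]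
    rfl
  rw [h1, lat_sum]
  exact lam_sum R hx hR

theorem HH_cont (r : Fin N → ℕ → Γ) (R : ℕ) {x : Fin N → ℝ} (hx : ∀ v, 0 ≤ x v) (hR : ∀ v, x v ≤ R) :
    ContinuousAt (HH K r R) x := by
  have h1 := fold_cont K ((lat N R).map fun k => (pr r fun v => (k v : ℕ), lam (fun v => (k v : ℕ)))) (by
    intro p hp
    obtain ⟨k, _, rfl⟩ := List.mem_map.1 hp
    exact lam_cont _) (by
    intro p hp y
    obtain ⟨k, _, rfl⟩ := List.mem_map.1 hp
    exact lam_nonneg _ y) x (by
    rw [List.map_map]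
    exact HH_wt r R hx hR)
  simp only [List.map_map] at h1
  exact h1

/-- the values of the map are near the orbit -/
theorem HH_near {L : Finset (Finset (Fin N))} {r : Fin N → ℕ → Γ} (hr : Rays L r) :
    ∃ C : Set M, IsCompact C ∧ ∀ (R : ℕ), ∀ σ ∈ L, ∀ x : Fin N → ℝ, (∀ v, 0 ≤ x v) → (∀ v ∉ σ, x v = 0) →
      (∀ v, x v ≤ R) → ∃ m ∈ C, HH K r R x = pr r (fun v => ⌊x v⌋₊) • m := by
  classical
  obtain ⟨B, hB, hB2⟩ := hr.fin
  obtain ⟨E, hEdef⟩ : ∃ E : Set Γ, E = (fun b : Fin N → Γ => (List.ofFn b).prod) '' {b | ∀ v, b v ∈ insert 1 B} :=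
    ⟨_, rfl⟩
  have hE : E.Finite := by
    rw [hEdef]
    exact (Set.Finite.pi' fun _ => hB.insert 1).image _
  refine ⟨⋃ l ∈ {l : List Γ | l.length ≤ Fintype.card (Fin N → Bool) ∧ ∀ g ∈ l, g ∈ E}, box K l,
    (lists_finite E hE _).isCompact_biUnion fun l _ => box_compact K l, ?_⟩
  intro R σ hσ x hx hxσ hR
  obtain ⟨k0, hk0⟩ : ∃ k0 : Fin N → ℕ, k0 = fun v => ⌊x v⌋₊ := ⟨_, rfl⟩
  rw [← hk0]
  obtain ⟨l, hl⟩ : ∃ l : List (Γ × ℝ), l = (lat N R).map fun k => (pr r fun v => (k v : ℕ), lam (fun v => (k v : ℕ)) x) :=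
    ⟨_, rfl⟩
  have hln : ∀ p ∈ l, 0 ≤ p.2 := by
    intro p hp
    rw [hl] at hp
    obtain ⟨k, _, rfl⟩ := List.mem_map.1 hp
    exact lam_nonneg _ x
  have hlw : 0 < wt l := by
    rw [hl]
    exact HH_wt r R hx hR
  obtain ⟨l1, hl1⟩ : ∃ l1 : List (Γ × ℝ), l1 = l.filter fun p => decide (0 < p.2) := ⟨_, rfl⟩
  have e1 : HH K r R x = fold K l1 := by
    rw [hl1, fold_filter K hln, hl]
    rfl
  have hw1 : 0 < wt l1 := by
    rw [hl1, wt_filter hln]
    exact hlw
  have hn1 : ∀ p ∈ l1, 0 ≤ p.2 := by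
    intro p hp
    rw [hl1, List.mem_filter] at hp
    exact hln p hp.1
  obtain ⟨l2, hl2⟩ : ∃ l2 : List (Γ × ℝ), l2 = l1.map fun p => ((pr r k0)⁻¹ * p.1, p.2) := ⟨_, rfl⟩
  have hn2 : ∀ p ∈ l2, 0 ≤ p.2 := by
    intro p hp
    rw [hl2] at hp
    obtain ⟨q, hq, rfl⟩ := List.mem_map.1 hp
    exact hn1 q hq
  have hw2 : 0 < wt l2 := by
    have : wt l2 = wt l1 := by
      rw [hl2]
      unfold wt
      rw [List.map_map]
      rfl
    rw [this]
    exact hw1
  have e2 : l1 = l2.map fun p => (pr r k0 * p.1, p.2) := by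
    rw [hl2, List.map_map]
    have : ((fun p : Γ × ℝ => (pr r k0 * p.1, p.2)) ∘ fun p : Γ × ℝ => ((pr r k0)⁻¹ * p.1, p.2)) = id := by
      funext p
      simp
    rw [this, List.map_id]
  refine ⟨fold K l2, ?_, ?_⟩
  · refine Set.mem_biUnion (x := l2.map Prod.fst) ⟨?_, ?_⟩ (fold_mem K hn2)
    · rw [List.length_map, hl2, List.length_map, hl1, hl, List.filter_map, List.length_map]
      have hnd : (List.filter ((fun p : Γ × ℝ => decide (0 < p.2)) ∘ fun k : Fin N → Fin (R + 2) =>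
          (pr r fun v => (k v : ℕ), lam (fun v => (k v : ℕ)) x)) (lat N R)).Nodup :=
        (Finset.nodup_toList _).filter _
      rw [← List.toFinset_card_of_nodup hnd]
      refine Finset.card_le_card_of_injOn (t := Finset.univ) (fun k v => decide ((k v : ℕ) = k0 v)) (fun _ _ => Finset.mem_coe.2 (Finset.mem_univ _)) ?_
      intro k hk k' hk' hkk
      rw [Finset.mem_coe, List.mem_toFinset, List.mem_filter] at hk hk'
      have h1 : 0 < lam (fun v => (k v : ℕ)) x := by simpa using hk.2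
      have h2 : 0 < lam (fun v => (k' v : ℕ)) x := by simpa using hk'.2
      funext v
      have h3 := near_floor (hx v) (lam_pos h1 v)
      have h4 := near_floor (hx v) (lam_pos h2 v)
      have h5 : decide ((k v : ℕ) = k0 v) = decide ((k' v : ℕ) = k0 v) := congrFun hkk v
      have h6 : (k v : ℕ) = k0 v ↔ (k' v : ℕ) = k0 v := by simpa using h5
      have h7 : k0 v = ⌊x v⌋₊ := by rw [hk0]
      apply Fin.ext
      rcases h3 with h3 | h3 <;> rcases h4 with h4 | h4
      · rw [h3, h4]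
      · have := h6.1 (by rw [h3, h7]); omega
      · have := h6.2 (by rw [h4, h7]); omega
      · rw [h3, h4]
    · intro g hg
      obtain ⟨p, hp, rfl⟩ := List.mem_map.1 hg
      rw [hl2] at hp
      obtain ⟨q, hq, rfl⟩ := List.mem_map.1 hp
      rw [hl1, List.mem_filter, hl] at hq
      obtain ⟨k, _, rfl⟩ := List.mem_map.1 hq.1
      have h1 : 0 < lam (fun v => (k v : ℕ)) x := by simpa using hq.2
      rw [hEdef]
      refine ⟨fun v => (r v (k0 v))⁻¹ * r v (k v), fun v => ?_, ?_⟩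
      · have h7 : k0 v = ⌊x v⌋₊ := by rw [hk0]
        rcases near_floor (hx v) (lam_pos h1 v) with h3 | h3
        · left
          show (r v (k0 v))⁻¹ * r v (k v) = 1
          rw [h3, h7, inv_mul_cancel]
        · right
          show (r v (k0 v))⁻¹ * r v (k v) ∈ B
          rw [h3, ← h7]
          exact hB2 v (k0 v)
      · show (List.ofFn fun v => (r v (k0 v))⁻¹ * r v (k v)).prod = (pr r k0)⁻¹ * pr r fun v => (k v : ℕ)
        rw [eq_inv_mul_iff_mul_eq]
        unfold pr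
        rw [prod_ofFn_mul]
        · congr 1
          congr 1
          funext v
          rw [mul_inv_cancel_left]
        · intro i j hij
          by_cases hi : i ∈ σ
          · by_cases hj : j ∈ σ
            · exact ((hr.comm σ hσ j hj i hi hij.symm _ _).inv_right).mul_right (hr.comm σ hσ j hj i hi hij.symm _ _)
            · have h8 : k0 j = 0 := by rw [hk0]; simp [hxσ j hj]
              rw [h8, hr.zero]
              exact Commute.one_left _
          · have h8 : k0 i = 0 := by rw [hk0]; simp [hxσ i hi]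
            have h9 : (k i : ℕ) = 0 := by
              have h10 := lam_pos h1 i
              rw [hxσ i hi, zero_sub, abs_neg, abs_of_nonneg (Nat.cast_nonneg _)] at h10
              have h11 : (k i : ℕ) < 1 := by exact_mod_cast h10
              omega
            rw [h8, h9, hr.zero, inv_one, one_mul]
            exact Commute.one_right _
  · rw [e1, e2, fold_smul K _ hn2 hw2]

/-- the images of far points of the cones over disjoint simplices are different -/
theorem HH_sep (hP : Proper Γ M) {L : Finset (Finset (Fin N))} {r : Fin N → ℕ → Γ} (hr : Rays L r) :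
    ∃ R0 : ℕ, ∀ (R : ℕ), ∀ σ ∈ L, ∀ τ ∈ L, Disjoint σ τ → ∀ x y : Fin N → ℝ, (∀ v, 0 ≤ x v) → (∀ v ∉ σ, x v = 0) →
      (∀ v, x v ≤ R) → (∀ v, 0 ≤ y v) → (∀ v ∉ τ, y v = 0) → (∀ v, y v ≤ R) → HH K r R x = HH K r R y →
      ∀ v, x v < R0 ∧ y v < R0 := by
  obtain ⟨C, hC, hC2⟩ := HH_near K hr
  obtain ⟨R0, hR0⟩ := hr.div _ (hP C hC)
  refine ⟨R0 + 1, ?_⟩
  intro R σ hσ τ hτ hd x y hx hxσ hxR hy hyτ hyR h v
  obtain ⟨m, hm, h1⟩ := hC2 R σ hσ x hx hxσ hxR
  obtain ⟨m', hm', h2⟩ := hC2 R τ hτ y hy hyτ hyR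
  rw [h1, h2] at h
  have h3 := hR0 σ hσ τ hτ hd (fun v => ⌊x v⌋₊) (fun v => ⌊y v⌋₊) (fun v hv => by simp [hxσ v hv])
    (fun v hv => by simp [hyτ v hv]) ⟨m', hm', by rw [mul_smul, ← h, inv_smul_smul]; exact hm⟩ v
  have h4 := Nat.lt_floor_add_one (x v)
  have h5 := Nat.lt_floor_add_one (y v)
  have h6 : ((⌊x v⌋₊ : ℕ) : ℝ) ≤ R0 := by exact_mod_cast h3.1
  have h7 : ((⌊y v⌋₊ : ℕ) : ℝ) ≤ R0 := by exact_mod_cast h3.2
  push_cast
  constructor <;> linarith

end Pool.Agent.H815.TW
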