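import Pool.Agent.H815.TW.Prod
import Pool.Agent.H815.TW.Ray
import Pool.Graph.R_seed8.Y131.KS.Odd

/-!
# Proper actions on contractible spaces and odd maps of deleted joins
-/

set_option autoImplicit false
set_option linter.unusedSectionVars false

namespace Pool.Agent.H815.TW

open Finset Pool.Agent.W555.KS Pool.Agent.Y131.KS Topology

variable {Γ : Type} [Group Γ] {N : ℕ}
variable {M : Type} [TopologicalSpace M] [MulAction Γ M] [ContinuousConstSMul Γ M]

/-- the positive part on the first copy, multiplied by `R` -/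
noncomputable def pL (R : ℝ) (x : Fin (N + N) → ℝ) : Fin N → ℝ := fun i => R * max (x (Fin.castAdd N i)) 0

/-- the positive part on the second copy, multiplied by `R` -/
noncomputable def pR (R : ℝ) (x : Fin (N + N) → ℝ) : Fin N → ℝ := fun i => R * max (x (Fin.natAdd N i)) 0

theorem pL_cont (R : ℝ) : Continuous (pL R : (Fin (N + N) → ℝ) → Fin N → ℝ) := by
  unfold pL
  fun_prop

theorem pR_cont (R : ℝ) : Continuous (pR R : (Fin (N + N) → ℝ) → Fin N → ℝ) := by
  unfold pR
  fun_prop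

theorem pL_nonneg {R : ℝ} (hR : 0 ≤ R) (x : Fin (N + N) → ℝ) (v : Fin N) : 0 ≤ pL R x v :=
  mul_nonneg hR (le_max_right _ _)

theorem pR_nonneg {R : ℝ} (hR : 0 ≤ R) (x : Fin (N + N) → ℝ) (v : Fin N) : 0 ≤ pR R x v :=
  mul_nonneg hR (le_max_right _ _)

theorem abs_le_one {x : Fin (N + N) → ℝ} (hx : ∑ i, |x i| = 1) (i : Fin (N + N)) : |x i| ≤ 1 := by
  rw [← hx]
  exact single_le_sum (f := fun i => |x i|) (fun j _ => abs_nonneg _) (mem_univ i)

theorem pL_le {R : ℝ} (hR : 0 ≤ R) {x : Fin (N + N) → ℝ} (hx : ∑ i, |x i| = 1) (v : Fin N) : pL R x v ≤ R := by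
  have h1 := abs_le_one hx (Fin.castAdd N v)
  have h2 : max (x (Fin.castAdd N v)) 0 ≤ 1 := max_le ((le_abs_self _).trans h1) zero_le_one
  calc pL R x v ≤ R * 1 := mul_le_mul_of_nonneg_left h2 hR
    _ = R := mul_one R

theorem pR_le {R : ℝ} (hR : 0 ≤ R) {x : Fin (N + N) → ℝ} (hx : ∑ i, |x i| = 1) (v : Fin N) : pR R x v ≤ R := by
  have h1 := abs_le_one hx (Fin.natAdd N v)
  have h2 : max (x (Fin.natAdd N v)) 0 ≤ 1 := max_le ((le_abs_self _).trans h1) zero_le_one
  calc pR R x v ≤ R * 1 := mul_le_mul_of_nonneg_left h2 hR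
    _ = R := mul_one R

theorem neg_one {x : Fin (N + N) → ℝ} (hx : ∑ i, |x i| = 1) : ∑ i, |(-x) i| = 1 := by
  rw [← hx]
  exact sum_congr rfl fun i _ => abs_neg _

/-- The odd map. -/
theorem odd_of_rays [ContractibleSpace M] (hP : Proper Γ M) {L : Finset (Finset (Fin N))} (hL : IsCx L)
    {r : Fin N → ℕ → Γ} (hr : Rays L r) {d : ℕ} (ι : M × M → (Fin d → ℝ)) (hι : Continuous ι)
    (hι2 : Function.Injective ι) : OddMap (jn L) d := by
  obtain ⟨K⟩ := exists_con M
  obtain ⟨R0, hR0⟩ := HH_sep K hP hr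
  obtain ⟨R, hRdef⟩ : ∃ R : ℕ, R = (N + N) * R0 + 1 := ⟨_, rfl⟩
  have hRn : (0 : ℝ) ≤ (R : ℝ) := Nat.cast_nonneg _
  obtain ⟨f, hf⟩ : ∃ f : (Fin (N + N) → ℝ) → (Fin d → ℝ),
    f = fun x => ι (HH K r R (pL R x), HH K r R (pR R x)) - ι (HH K r R (pL R (-x)), HH K r R (pR R (-x))) := ⟨_, rfl⟩
  refine ⟨f, ?_, fun x hx => ⟨?_, ?_⟩⟩
  · have h1 : ∀ x ∈ dJoin (jn L), ContinuousAt (fun x => ι (HH K r R (pL R x), HH K r R (pR R x))) x := by
      intro x hx
      refine ContinuousAt.comp (g := ι) hι.continuousAt (ContinuousAt.prodMk ?_ ?_)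
      · exact ContinuousAt.comp (g := HH K r R) (HH_cont K r R (pL_nonneg hRn x) (pL_le hRn hx.1)) (pL_cont _).continuousAt
      · exact ContinuousAt.comp (g := HH K r R) (HH_cont K r R (pR_nonneg hRn x) (pR_le hRn hx.1)) (pR_cont _).continuousAt
    intro x hx
    rw [hf]
    refine ContinuousAt.continuousWithinAt ((h1 x hx).sub ?_)
    have hnx : -x ∈ dJoin (jn L) := by
      rw [dJoin_eq (jn_cx hL)] at hx ⊢
      exact X_neg (jn_cx hL) hx
    exact ContinuousAt.comp (g := fun x => ι (HH K r R (pL R x), HH K r R (pR R x))) (h1 (-x) hnx)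
      continuous_neg.continuousAt
  · rw [hf]
    simp only [neg_neg]
    abel
  · intro h0
    rw [hf] at h0
    have h1 := hι2 (sub_eq_zero.1 h0)
    rw [Prod.mk.injEq] at h1
    obtain ⟨hx1, hx2, hx3⟩ := hx
    rw [mem_jn] at hx2 hx3
    have hn1 := neg_one hx1
    have hdis : ∀ (σ τ : Finset (Fin (N + N))), Disjoint σ τ → Disjoint (lfS σ) (lfS τ) ∧ Disjoint (rtS σ) (rtS τ) := by
      intro σ τ hd
      rw [disjoint_left] at hd
      constructor <;> rw [disjoint_left] <;> intro i hi hi'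
      · exact hd (mem_lfS.1 hi) (mem_lfS.1 hi')
      · exact hd (mem_rtS.1 hi) (mem_rtS.1 hi')
    have hd0 : Disjoint (univ.filter fun i => 0 < x i) (univ.filter fun i => x i < 0) := by
      rw [disjoint_left]
      intro i hi hi'
      rw [mem_filter] at hi hi'
      exact lt_asymm hi.2 hi'.2
    have a1 := hR0 R _ hx2.1 _ hx3.1 (hdis _ _ hd0).1 (pL R x) (pL R (-x)) (pL_nonneg hRn x) (by
        intro v hv
        rw [mem_lfS, mem_filter, not_and] at hv
        unfold pL
        rw [max_eq_right (not_lt.1 (hv (mem_univ _))), mul_zero]) (pL_le hRn hx1) (pL_nonneg hRn _) (by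
        intro v hv
        rw [mem_lfS, mem_filter, not_and] at hv
        unfold pL
        have h2 := not_lt.1 (hv (mem_univ _))
        rw [Pi.neg_apply, max_eq_right (by linarith), mul_zero]) (pL_le hRn hn1) h1.1
    have a2 := hR0 R _ hx2.2 _ hx3.2 (hdis _ _ hd0).2 (pR R x) (pR R (-x)) (pR_nonneg hRn x) (by
        intro v hv
        rw [mem_rtS, mem_filter, not_and] at hv
        unfold pR
        rw [max_eq_right (not_lt.1 (hv (mem_univ _))), mul_zero]) (pR_le hRn hx1) (pR_nonneg hRn _) (by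
        intro v hv
        rw [mem_rtS, mem_filter, not_and] at hv
        unfold pR
        have h2 := not_lt.1 (hv (mem_univ _))
        rw [Pi.neg_apply, max_eq_right (by linarith), mul_zero]) (pR_le hRn hn1) h1.2
    have key : ∀ a : ℝ, (R : ℝ) * max a 0 < R0 → (R : ℝ) * max (-a) 0 < R0 → (R : ℝ) * |a| ≤ R0 := by
      intro a h2 h3
      rcases le_total 0 a with h4 | h4
      · rw [abs_of_nonneg h4]
        rw [max_eq_left h4] at h2
        exact h2.le
      · rw [abs_of_nonpos h4]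
        rw [max_eq_left (by linarith)] at h3
        exact h3.le
    have h5 : (R : ℝ) ≤ (N + N) * R0 := by
      calc (R : ℝ) = R * ∑ i, |x i| := by rw [hx1, mul_one]
        _ = ∑ i, (R : ℝ) * |x i| := by rw [mul_sum]
        _ ≤ ∑ _i : Fin (N + N), (R0 : ℝ) := by
          refine sum_le_sum fun i _ => ?_
          refine Fin.addCases (fun j => ?_) (fun j => ?_) i
          · exact key _ (a1 j).1 (a1 j).2
          · exact key _ (a2 j).1 (a2 j).2
        _ = (N + N) * R0 := by
          rw [sum_const, card_univ, Fintype.card_fin, nsmul_eq_mul]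
          push_cast
          ring
    rw [hRdef] at h5
    push_cast at h5
    linarith

/-- the obstruction vanishes -/
theorem vk2_of_rays [ContractibleSpace M] (hP : Proper Γ M) {L : Finset (Finset (Fin N))} (hL : IsCx L)
    {r : Fin N → ℕ → Γ} (hr : Rays L r) {d : ℕ} (ι : M × M → (Fin d → ℝ)) (hι : Continuous ι)
    (hι2 : Function.Injective ι) : VK2 (jn L) (d + 1) :=
  vk2_of_odd (jn_cx hL) (odd_of_rays hP hL hr ι hι hι2)

end Pool.Agent.H815.TW
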