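import Pool.Agent.H815.TW.Dbl

/-!
# Products of symmetric cycles
-/

set_option autoImplicit false

namespace Pool.Agent.H815.TW

open Finset Pool.Agent.W555.KS Pool.Agent.Y131.KS

variable {N : ℕ}

/-- the part in the first copy of the vertex set -/
def lfS (σ : Finset (Fin (N + N))) : Finset (Fin N) := univ.filter fun i => Fin.castAdd N i ∈ σ

/-- the part in the second copy of the vertex set -/
def rtS (σ : Finset (Fin (N + N))) : Finset (Fin N) := univ.filter fun i => Fin.natAdd N i ∈ σ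

/-- the join of `L` with itself -/
def jn (L : Finset (Finset (Fin N))) : Finset (Finset (Fin (N + N))) := univ.filter fun σ => lfS σ ∈ L ∧ rtS σ ∈ L

theorem mem_lfS {σ : Finset (Fin (N + N))} {i : Fin N} : i ∈ lfS σ ↔ Fin.castAdd N i ∈ σ := by simp [lfS]

theorem mem_rtS {σ : Finset (Fin (N + N))} {i : Fin N} : i ∈ rtS σ ↔ Fin.natAdd N i ∈ σ := by simp [rtS]

theorem mem_jn {L : Finset (Finset (Fin N))} {σ : Finset (Fin (N + N))} : σ ∈ jn L ↔ lfS σ ∈ L ∧ rtS σ ∈ L := by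
  simp [jn]

theorem jn_cx {L : Finset (Finset (Fin N))} (hL : IsCx L) : IsCx (jn L) := by
  constructor
  · rw [mem_jn]
    have e1 : lfS (∅ : Finset (Fin (N + N))) = ∅ := by ext i; simp [mem_lfS]
    have e2 : rtS (∅ : Finset (Fin (N + N))) = ∅ := by ext i; simp [mem_rtS]
    rw [e1, e2]
    exact ⟨hL.1, hL.1⟩
  · intro σ hσ τ hτ
    rw [mem_jn] at hσ ⊢
    exact ⟨hL.2 _ hσ.1 _ fun i hi => mem_lfS.2 (hτ (mem_lfS.1 hi)),
      hL.2 _ hσ.2 _ fun i hi => mem_rtS.2 (hτ (mem_rtS.1 hi))⟩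

theorem lfS_insL (i : Fin N) (σ : Finset (Fin (N + N))) : lfS (insert (Fin.castAdd N i) σ) = insert i (lfS σ) := by
  ext j
  simp [mem_lfS]

theorem rtS_insL (i : Fin N) (σ : Finset (Fin (N + N))) : rtS (insert (Fin.castAdd N i) σ) = rtS σ := by
  ext j
  rw [mem_rtS, mem_rtS, mem_insert]
  constructor
  · rintro (h | h)
    · exfalso
      have := congrArg Fin.val h
      simp at this
      omega
    · exact h
  · exact Or.inr

theorem lfS_insR (i : Fin N) (σ : Finset (Fin (N + N))) : lfS (insert (Fin.natAdd N i) σ) = lfS σ := by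
  ext j
  rw [mem_lfS, mem_lfS, mem_insert]
  constructor
  · rintro (h | h)
    · exfalso
      have := congrArg Fin.val h
      simp at this
      omega
    · exact h
  · exact Or.inr

theorem rtS_insR (i : Fin N) (σ : Finset (Fin (N + N))) : rtS (insert (Fin.natAdd N i) σ) = insert i (rtS σ) := by
  ext j
  simp [mem_rtS]

/-- sums over the vertices outside of a set -/
theorem sum_split (ρ : Finset (Fin (N + N))) (f : Fin (N + N) → ZMod 2) :
    ∑ v ∈ ρᶜ, f v = ∑ i ∈ (lfS ρ)ᶜ, f (Fin.castAdd N i) + ∑ i ∈ (rtS ρ)ᶜ, f (Fin.natAdd N i) := by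
  have h : ∀ {m : ℕ} (s : Finset (Fin m)) (g : Fin m → ZMod 2), ∑ v ∈ sᶜ, g v = ∑ v, if v ∈ s then 0 else g v := by
    intro m s g
    have h1 : ∀ v, (if v ∈ s then 0 else g v) = if v ∈ sᶜ then g v else 0 := by
      intro v
      by_cases h2 : v ∈ s <;> simp [h2]
    rw [sum_congr rfl fun v _ => h1 v, ← sum_filter]
    refine sum_congr ?_ fun _ _ => rfl
    ext v
    simp
  rw [h, h, h, Fin.sum_univ_add]
  congr 1
  · refine sum_congr rfl fun i _ => ?_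
    simp only [mem_lfS]
  · refine sum_congr rfl fun i _ => ?_
    simp only [mem_rtS]

theorem card_split (ρ : Finset (Fin (N + N))) : ρ.card = (lfS ρ).card + (rtS ρ).card := by
  rw [card_eq_sum_ones, card_eq_sum_ones, card_eq_sum_ones]
  have h : ∀ {m : ℕ} (s : Finset (Fin m)), ∑ v ∈ s, 1 = ∑ v, if v ∈ s then 1 else 0 := by
    intro m s
    rw [← sum_filter]
    refine sum_congr ?_ fun _ _ => rfl
    ext v
    simp
  rw [h, h, h, Fin.sum_univ_add]
  congr 1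
  · refine sum_congr rfl fun i _ => ?_
    simp only [mem_lfS]
  · refine sum_congr rfl fun i _ => ?_
    simp only [mem_rtS]

/-- the product -/
def tp (Z Z' : PC N) : PC (N + N) := fun σ τ => Z (lfS σ) (lfS τ) * Z' (rtS σ) (rtS τ)

theorem dd_tp (Z Z' : PC N) : dd (tp Z Z') = tp (dd Z) Z' + tp Z (dd Z') := by
  funext ρ τ
  show ∑ v ∈ (ρ ∪ τ)ᶜ, (tp Z Z' (insert v ρ) τ + tp Z Z' ρ (insert v τ)) = _
  rw [sum_split]
  have e1 : lfS (ρ ∪ τ) = lfS ρ ∪ lfS τ := by ext i; simp [mem_lfS]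
  have e2 : rtS (ρ ∪ τ) = rtS ρ ∪ rtS τ := by ext i; simp [mem_rtS]
  rw [e1, e2]
  show _ = (∑ v ∈ (lfS ρ ∪ lfS τ)ᶜ, (Z (insert v (lfS ρ)) (lfS τ) + Z (lfS ρ) (insert v (lfS τ)))) * Z' (rtS ρ) (rtS τ) +
    Z (lfS ρ) (lfS τ) * ∑ v ∈ (rtS ρ ∪ rtS τ)ᶜ, (Z' (insert v (rtS ρ)) (rtS τ) + Z' (rtS ρ) (insert v (rtS τ)))
  rw [sum_mul, mul_sum]
  congr 1
  · refine sum_congr rfl fun v _ => ?_
    unfold tp
    rw [lfS_insL, lfS_insL, rtS_insL, rtS_insL]
    ring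
  · refine sum_congr rfl fun v _ => ?_
    unfold tp
    rw [lfS_insR, lfS_insR, rtS_insR, rtS_insR]
    ring

theorem sw_tp (Z Z' : PC N) : sw (tp Z Z') = tp (sw Z) (sw Z') := rfl

theorem tp_add_left (A B Z' : PC N) : tp (A + B) Z' = tp A Z' + tp B Z' := by
  funext σ τ
  exact add_mul _ _ _

theorem tp_add_right (Z A B : PC N) : tp Z (A + B) = tp Z A + tp Z B := by
  funext σ τ
  exact mul_add _ _ _

theorem tp_zero_left (Z' : PC N) : tp 0 Z' = 0 := by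
  funext σ τ
  exact zero_mul _

theorem tp_zero_right (Z : PC N) : tp Z 0 = 0 := by
  funext σ τ
  exact mul_zero _

/-- symmetric cycles of the deleted join of the full simplex -/
structure Sy (D : ℕ) (Z : PC N) : Prop where
  sym : sw Z = Z
  cyc : dd Z = 0
  dis : ∀ σ τ, Z σ τ ≠ 0 → Disjoint σ τ
  deg : ∀ σ τ, Z σ τ ≠ 0 → σ.card + τ.card = D

theorem dd_dd (W : PC N) : dd (dd W) = 0 := by
  funext ρ τ
  show ∑ v ∈ (ρ ∪ τ)ᶜ, (∑ w ∈ (insert v ρ ∪ τ)ᶜ, (W (insert w (insert v ρ)) τ + W (insert v ρ) (insert w τ)) +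
    ∑ w ∈ (ρ ∪ insert v τ)ᶜ, (W (insert w ρ) (insert v τ) + W ρ (insert w (insert v τ)))) = 0
  have e1 : ∀ v, (insert v ρ ∪ τ)ᶜ = (ρ ∪ τ)ᶜ.erase v := by
    intro v; ext w; simp only [mem_compl, mem_union, mem_insert, mem_erase]; tauto
  have e2 : ∀ v, (ρ ∪ insert v τ)ᶜ = (ρ ∪ τ)ᶜ.erase v := by
    intro v; ext w; simp only [mem_compl, mem_union, mem_insert, mem_erase]; tauto
  have e3 : ∀ v ∈ (ρ ∪ τ)ᶜ, (∑ w ∈ (insert v ρ ∪ τ)ᶜ, (W (insert w (insert v ρ)) τ + W (insert v ρ) (insert w τ)) +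
    ∑ w ∈ (ρ ∪ insert v τ)ᶜ, (W (insert w ρ) (insert v τ) + W ρ (insert w (insert v τ)))) =
    ∑ w ∈ (ρ ∪ τ)ᶜ.erase v, (W (insert w (insert v ρ)) τ + W (insert v ρ) (insert w τ) +
      (W (insert w ρ) (insert v τ) + W ρ (insert w (insert v τ)))) := by
    intro v _
    rw [e1, e2, ← sum_add_distrib]
  rw [sum_congr rfl e3, sum_sigma']
  refine sum_involution (fun (x : Σ _ : Fin N, Fin N) _ => ⟨x.2, x.1⟩) ?_ ?_ ?_ ?_
  · rintro ⟨v, w⟩ _
    simp only
    rw [Finset.insert_comm v w ρ, Finset.insert_comm v w τ]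
    have h2 : ∀ x y z t : ZMod 2, x + y + (z + t) + (x + z + (y + t)) = 0 := by decide
    exact h2 _ _ _ _
  · rintro ⟨v, w⟩ h2 _ h3
    simp only [mem_sigma, mem_erase] at h2
    simp only [Sigma.mk.injEq, heq_eq_eq] at h3
    exact h2.2.1 h3.1
  · rintro ⟨v, w⟩ h2
    simp only [mem_sigma, mem_erase] at h2 ⊢
    exact ⟨h2.2.2, fun e => h2.2.1 e.symm, h2.1⟩
  · rintro ⟨v, w⟩ _
    rfl

/-- the half and its boundary -/
theorem Sy.half {D : ℕ} {Z : PC N} (h : Sy (D + 1) Z) : ∃ A : PC N, A + sw A = Z ∧ Sy D (dd A) := by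
  obtain ⟨A, hA, hA2⟩ := TW.half h.sym (fun σ τ h1 e => by
      have h2 := h.dis σ τ h1
      have h3 := h.deg σ τ h1
      rw [e, disjoint_self, bot_eq_empty] at h2
      rw [e, h2] at h3
      simp at h3) (fun _ => True) (fun _ _ _ => Or.inl trivial)
  have key : ∀ σ τ, dd A σ τ ≠ 0 → ∃ σ' τ', σ ⊆ σ' ∧ τ ⊆ τ' ∧ A σ' τ' ≠ 0 ∧ σ.card + τ.card + 1 = σ'.card + τ'.card := by
    intro σ τ h1
    obtain ⟨v, hv1, hv2, h2 | h2⟩ := dd_ne h1
    · exact ⟨_, _, subset_insert _ _, Subset.refl _, h2, by rw [card_insert_of_notMem hv1]; omega⟩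
    · exact ⟨_, _, Subset.refl _, subset_insert _ _, h2, by rw [card_insert_of_notMem hv2]; omega⟩
  refine ⟨A, hA, ?_, dd_dd A, ?_, ?_⟩
  · have h1 := congrArg dd hA
    rw [h.cyc, dd_add, dd_sw] at h1
    funext σ τ
    have h3 : dd A σ τ + sw (dd A) σ τ = 0 := congrFun (congrFun h1 σ) τ
    exact (CharTwo.add_eq_zero.1 h3).symm
  · intro σ τ h1
    obtain ⟨σ', τ', h2, h3, h4, _⟩ := key σ τ h1
    exact disjoint_of_subset_left h2 (disjoint_of_subset_right h3 (h.dis _ _ (hA2 _ _ h4).1))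
  · intro σ τ h1
    obtain ⟨σ', τ', _, _, h4, h5⟩ := key σ τ h1
    have := h.deg _ _ (hA2 _ _ h4).1
    omega

theorem ev_deg0 {Z : PC N} : ev 0 Z = Z ∅ ∅ := by
  unfold ev
  rw [powersetCard_zero, sum_singleton]
  rfl

/-- the evaluation of a product -/
theorem ev_tp : ∀ (D D' : ℕ) (Z Z' : PC N), Sy D Z → Sy D' Z' → ev (D + D') (tp Z Z') = ev D Z * ev D' Z' := by
  intro D
  induction D with
  | zero =>
    intro D'
    induction D' with
    | zero =>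
      intro Z Z' _ _
      have e1 : lfS (∅ : Finset (Fin (N + N))) = ∅ := by ext i; simp [mem_lfS]
      have e2 : rtS (∅ : Finset (Fin (N + N))) = ∅ := by ext i; simp [mem_rtS]
      rw [ev_deg0, ev_deg0, ev_deg0]
      unfold tp
      rw [e1, e2]
    | succ D' ih =>
      intro Z Z' hZ hZ'
      obtain ⟨A, hA, hA2⟩ := hZ'.half
      have h1 : tp Z A + sw (tp Z A) = tp Z Z' := by
        rw [sw_tp, hZ.sym, ← tp_add_right, hA]
      have e1 : 0 + (D' + 1) = (0 + D') + 1 := rfl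
      rw [e1, ev_half _ h1, dd_tp, hZ.cyc, tp_zero_left, zero_add (tp Z (dd A)), ih Z (dd A) hZ hA2, ev_half D' hA]
  | succ D ih =>
    intro D' Z Z' hZ hZ'
    obtain ⟨A, hA, hA2⟩ := hZ.half
    have h1 : tp A Z' + sw (tp A Z') = tp Z Z' := by
      rw [sw_tp, hZ'.sym, ← tp_add_left, hA]
    have e1 : (D + 1) + D' = (D + D') + 1 := by omega
    rw [e1, ev_half _ h1, dd_tp, hZ'.cyc, tp_zero_right, add_zero, ih D' (dd A) Z' hA2 hZ', ev_half D hA]

theorem SC.sy {G : SimpleGraph (Fin N)} {B : Finset (Fin N)} {D : ℕ} {Z : PC N} (h : SC G B D Z) : Sy D Z :=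
  ⟨h.sym, h.cyc, h.dis, h.deg⟩

/-- the obstruction for the complex gives the obstruction for its join with itself -/
theorem not_vk2_jn {L : Finset (Finset (Fin N))} {G : SimpleGraph (Fin N)}
    (hL : ∀ σ : Finset (Fin N), G.IsClique (σ : Set (Fin N)) → σ ∈ L) {B : Finset (Fin N)} {D : ℕ} {Z : PC N}
    (h : SC G B D Z) (he : ev D Z = 1) : ¬ VK2 (jn L) (D + D) := by
  intro hV
  have h1 := hV (tp Z Z) (fun σ τ => ?_) (fun σ τ hne => ?_) (fun ρ τ _ _ => ?_)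
  · have h2 := ev_tp D D Z Z h.sy h.sy
    have h3 : ev (D + D) (tp Z Z) = 0 := h1
    rw [h3, he] at h2
    simp at h2
  · have h2 := congrFun (congrFun (show sw (tp Z Z) = tp Z Z by rw [sw_tp, h.sym]) τ) σ
    exact h2
  · have h2 : Z (lfS σ) (lfS τ) ≠ 0 := fun h3 => hne (by unfold tp; rw [h3, zero_mul])
    have h3 : Z (rtS σ) (rtS τ) ≠ 0 := fun h3 => hne (by unfold tp; rw [h3, mul_zero])
    exact ⟨mem_jn.2 ⟨hL _ (h.cl _ _ h2), hL _ (h.cl _ _ h3)⟩, mem_jn.2 ⟨hL _ (h.cl' _ _ h2), hL _ (h.cl' _ _ h3)⟩⟩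
  · have h2 : dd (tp Z Z) = 0 := by
      rw [dd_tp, h.cyc, tp_zero_left, tp_zero_right, add_zero]
    exact congrFun (congrFun h2 ρ) τ

end Pool.Agent.H815.TW
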