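import Pool.Agent.H815.TW.Hom

/-!
# Extension of a cocycle to larger cliques
-/

set_option autoImplicit false

namespace Pool.Agent.H815.TW

open Finset

variable {n : ℕ}

/-- cancellation in pairs in the power set of `K` -/
theorem sum_toggle {K : Finset (Fin n)} {x : Fin n} (hx : x ∈ K) (F : Finset (Fin n) → ZMod 2)
    (hF : ∀ S ⊆ K, F (symmDiff S {x}) = F S) : ∑ S ∈ K.powerset, F S = 0 := by
  refine sum_involution (fun S _ => symmDiff S {x}) ?_ ?_ ?_ ?_
  · intro S hS
    rw [hF S (mem_powerset.1 hS)]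
    exact two_zero _
  · intro S _ _ h
    have h1 : x ∈ symmDiff S {x} ↔ x ∈ S := by rw [h]
    rw [mem_symmDiff, mem_singleton] at h1
    tauto
  · intro S hS
    rw [mem_powerset] at hS ⊢
    intro y hy
    rw [mem_symmDiff, mem_singleton] at hy
    rcases hy with hy | hy
    · exact hS hy.1
    · exact hy.1 ▸ hx
  · intro S _
    exact symmDiff_symmDiff_cancel_right _ _

/-- the number of the sets between two sets -/
theorem interval_sum (A B : Finset (Fin n)) (c : ZMod 2) :
    ∑ Y : Finset (Fin n), (if A ⊆ Y ∧ Y ⊆ B then c else 0) = if A = B then c else 0 := by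
  by_cases h : A = B
  · subst h
    rw [if_pos rfl, sum_eq_single A]
    · rw [if_pos ⟨Subset.refl _, Subset.refl _⟩]
    · intro Y _ hY
      exact if_neg fun h => hY (Subset.antisymm h.2 h.1)
    · intro h; exact absurd (mem_univ _) h
  · rw [if_neg h]
    by_cases hAB : A ⊆ B
    · obtain ⟨x, hxB, hxA⟩ : ∃ x ∈ B, x ∉ A := by
        by_contra hc; push Not at hc
        exact h (Subset.antisymm hAB hc)
      have h1 : (univ : Finset (Finset (Fin n))) = (univ : Finset (Fin n)).powerset := by ext; simp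
      rw [h1]
      refine sum_toggle (mem_univ x) _ fun S _ => ?_
      have h2 : (A ⊆ symmDiff S {x} ∧ symmDiff S {x} ⊆ B) ↔ (A ⊆ S ∧ S ⊆ B) := by
        simp only [subset_iff, mem_symmDiff, mem_singleton]
        constructor
        · rintro ⟨h3, h4⟩
          refine ⟨fun y hy => ?_, fun y hy => ?_⟩
          · rcases h3 hy with h5 | h5
            · exact h5.1
            · exact absurd (h5.1 ▸ hy) hxA
          · by_cases hyx : y = x
            · exact hyx ▸ hxB
            · exact h4 (Or.inl ⟨hy, hyx⟩)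
        · rintro ⟨h3, h4⟩
          refine ⟨fun y hy => ?_, fun y hy => ?_⟩
          · exact Or.inl ⟨h3 hy, fun e => hxA (e ▸ hy)⟩
          · rcases hy with h5 | h5
            · exact h4 h5.1
            · exact h5.1 ▸ hxB
      simp only [h2]
    · refine sum_eq_zero fun Y _ => if_neg fun h1 => hAB (h1.1.trans h1.2)

/-- duality -/
theorem dual_sum {ψ : Finset (Fin n) → ZMod 2} {E C : Finset (Fin n)} (hC : C ⊆ E)
    (hψ : ∀ X ⊆ E, (∑ K : Finset (Fin n), if K ⊆ X then ψ K else 0) = ψ X) :
    (∑ K : Finset (Fin n), if C ⊆ K ∧ K ⊆ E then ψ K else 0) =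
      ∑ K : Finset (Fin n), if E \ C ⊆ K ∧ K ⊆ E then ψ K else 0 := by
  have h1 : ∀ K : Finset (Fin n), (if C ⊆ K ∧ K ⊆ E then ψ K else 0) =
      ∑ Y : Finset (Fin n), if Y ⊆ C ∧ K ⊆ E \ Y then ψ K else 0 := by
    intro K
    have h2 := interval_sum ∅ (C \ K) (if K ⊆ E then ψ K else 0)
    have h3 : (∅ = C \ K) ↔ C ⊆ K := by
      rw [eq_comm, sdiff_eq_empty_iff_subset]
    have h4 : (if C ⊆ K ∧ K ⊆ E then ψ K else 0) = if ∅ = C \ K then (if K ⊆ E then ψ K else 0) else 0 := by
      by_cases h5 : C ⊆ K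
      · by_cases h6 : K ⊆ E
        · rw [if_pos ⟨h5, h6⟩, if_pos (h3.2 h5), if_pos h6]
        · rw [if_neg fun h => h6 h.2, if_pos (h3.2 h5), if_neg h6]
      · rw [if_neg fun h => h5 h.1, if_neg fun h => h5 (h3.1 h)]
    rw [h4, ← h2]
    refine sum_congr rfl fun Y _ => ?_
    have h5 : (Y ⊆ C ∧ K ⊆ E \ Y) ↔ ((∅ ⊆ Y ∧ Y ⊆ C \ K) ∧ K ⊆ E) := by
      simp only [subset_iff, mem_sdiff]
      constructor
      · rintro ⟨h6, h7⟩
        exact ⟨⟨fun y hy => absurd hy (notMem_empty y), fun y hy => ⟨h6 hy, fun hK => (h7 hK).2 hy⟩⟩,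
          fun y hy => (h7 hy).1⟩
      · rintro ⟨⟨_, h6⟩, h7⟩
        exact ⟨fun y hy => (h6 hy).1, fun y hy => ⟨h7 hy, fun hY => (h6 hY).2 hy⟩⟩
    by_cases h6 : Y ⊆ C ∧ K ⊆ E \ Y
    · rw [if_pos h6, if_pos (h5.1 h6).1, if_pos (h5.1 h6).2]
    · rw [if_neg h6]
      by_cases h7 : ∅ ⊆ Y ∧ Y ⊆ C \ K
      · rw [if_pos h7, if_neg fun h8 => h6 (h5.2 ⟨h7, h8⟩)]
      · rw [if_neg h7]
  rw [sum_congr rfl fun K _ => h1 K, sum_comm]
  have h2 : ∀ Y : Finset (Fin n), (∑ K : Finset (Fin n), if Y ⊆ C ∧ K ⊆ E \ Y then ψ K else 0) =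
      if Y ⊆ C then ψ (E \ Y) else 0 := by
    intro Y
    by_cases hY : Y ⊆ C
    · rw [if_pos hY, ← hψ _ (sdiff_subset)]
      refine sum_congr rfl fun K _ => ?_
      simp only [hY, true_and]
    · rw [if_neg hY]
      exact sum_eq_zero fun K _ => if_neg fun h => hY h.1
  rw [sum_congr rfl fun Y _ => h2 Y, ← sum_filter, ← sum_filter]
  refine sum_nbij' (fun Y => E \ Y) (fun K => E \ K) ?_ ?_ ?_ ?_ ?_
  · intro Y hY
    rw [mem_filter] at hY ⊢
    exact ⟨mem_univ _, sdiff_subset_sdiff (Subset.refl _) hY.2, sdiff_subset⟩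
  · intro K hK
    rw [mem_filter] at hK ⊢
    refine ⟨mem_univ _, fun y hy => ?_⟩
    rw [mem_sdiff] at hy
    by_contra h3
    exact hy.2 (hK.2.1 (mem_sdiff.2 ⟨hy.1, h3⟩))
  · intro Y hY
    rw [mem_filter] at hY
    exact Finset.sdiff_sdiff_eq_self (hY.2.trans hC)
  · intro K hK
    rw [mem_filter] at hK
    exact Finset.sdiff_sdiff_eq_self hK.2.2
  · intro Y _
    rfl

/-- an alternating count -/
theorem alt_count (p : Fin n → Prop) [DecidablePred p] (W : Finset (Fin n)) :
    (∑ v ∈ W, if ∀ g ∈ W, (v < g → p g) ∧ (g < v → ¬ p g) then (1 : ZMod 2) else 0) =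
      (if ∀ g ∈ W, p g then 1 else 0) + if ∀ g ∈ W, ¬ p g then 1 else 0 := by
  induction W using Finset.induction_on_max with
  | empty =>
    simp only [sum_empty, notMem_empty, false_imp_iff, implies_true, if_true]
    exact (two_zero 1).symm
  | insert a W ha ih =>
    have haW : a ∉ W := fun h => lt_irrefl a (ha a h)
    rw [sum_insert haW]
    have h1 : (∀ g ∈ insert a W, (a < g → p g) ∧ (g < a → ¬ p g)) ↔ ∀ g ∈ W, ¬ p g := by
      constructor
      · intro h g hg
        exact (h g (mem_insert_of_mem hg)).2 (ha g hg)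
      · intro h g hg
        rcases mem_insert.1 hg with rfl | hg
        · exact ⟨fun h => absurd h (lt_irrefl _), fun h => absurd h (lt_irrefl _)⟩
        · exact ⟨fun h2 => absurd (ha g hg) (not_lt.2 h2.le), fun _ => h g hg⟩
    have h2 : ∀ v ∈ W, ((∀ g ∈ insert a W, (v < g → p g) ∧ (g < v → ¬ p g)) ↔
        (p a ∧ ∀ g ∈ W, (v < g → p g) ∧ (g < v → ¬ p g))) := by
      intro v hv
      rw [forall_mem_insert]
      constructor
      · rintro ⟨h3, h4⟩
        exact ⟨h3.1 (ha v hv), h4⟩
      · rintro ⟨h3, h4⟩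
        exact ⟨⟨fun _ => h3, fun h5 => absurd (ha v hv) (not_lt.2 h5.le)⟩, h4⟩
    rw [if_congr h1 rfl rfl, sum_congr rfl fun v hv => by rw [if_congr (h2 v hv) rfl rfl]]
    have h3 : (∀ g ∈ insert a W, p g) ↔ (p a ∧ ∀ g ∈ W, p g) := forall_mem_insert _ _ _
    have h4 : (∀ g ∈ insert a W, ¬ p g) ↔ (¬ p a ∧ ∀ g ∈ W, ¬ p g) := forall_mem_insert _ _ _
    rw [if_congr h3 rfl rfl, if_congr h4 rfl rfl]
    by_cases hp : p a
    · simp only [hp, true_and, not_true_eq_false, false_and, if_false, add_zero]
      rw [ih]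
      have h3 : ∀ x y : ZMod 2, x + (y + x) = y := by decide
      exact h3 _ _
    · simp only [hp, false_and, not_false_eq_true, true_and, if_false, sum_const_zero, add_zero, zero_add]

/-- the elements of `K` which are not in `F` have an odd number of predecessors in `F` -/
def Gd (F K : Finset (Fin n)) : Prop := ∀ g ∈ K, g ∉ F → ¬ Even (F.filter (· < g)).card

/-- the elements of `K` which are not in `F` have an even number of predecessors in `F` -/
def Gv (F K : Finset (Fin n)) : Prop := ∀ g ∈ K, g ∉ F → Even (F.filter (· < g)).card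

open Classical in
/-- **Extension of a cocycle.** -/
theorem exists_psi (H : SimpleGraph (Fin n)) (A : Finset (Fin n)) (i : ℕ) (φ : Finset (Fin n) → ZMod 2)
    (hφ : ∀ F, φ F ≠ 0 → F.card = i)
    (hc : ∀ X : Finset (Fin n), X ⊆ A → H.IsClique (X : Set (Fin n)) → X.card = i + 1 → ∑ v ∈ X, φ (X.erase v) = 0) :
    ∃ ψ : Finset (Fin n) → ZMod 2, (∀ K, ψ K ≠ 0 → K ⊆ A ∧ H.IsClique (K : Set (Fin n)) ∧ i ≤ K.card) ∧
      (∀ K, K ⊆ A → H.IsClique (K : Set (Fin n)) → K.card = i → ψ K = φ K) ∧
      ∀ X, X ⊆ A → H.IsClique (X : Set (Fin n)) → (∑ K : Finset (Fin n), if K ⊆ X then ψ K else 0) = ψ X := by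
  obtain ⟨ψ, hψ⟩ : ∃ ψ : Finset (Fin n) → ZMod 2, ψ = fun K => if K ⊆ A ∧ H.IsClique (K : Set (Fin n)) then
    ∑ F : Finset (Fin n), (if F ⊆ K ∧ Gd F K then φ F else 0) else 0 := ⟨_, rfl⟩
  refine ⟨ψ, ?_, ?_, ?_⟩
  · intro K hK
    rw [hψ] at hK
    simp only at hK
    split_ifs at hK with h1
    · refine ⟨h1.1, h1.2, ?_⟩
      obtain ⟨F, _, hF⟩ := exists_ne_zero_of_sum_ne_zero hK
      split_ifs at hF with h2
      · rw [← hφ F hF]
        exact card_le_card h2.1
      · exact absurd rfl hF
    · exact absurd rfl hK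
  · intro K hK1 hK2 hK3
    rw [hψ]
    simp only
    rw [if_pos ⟨hK1, hK2⟩, sum_eq_single K]
    · exact if_pos ⟨Subset.refl _, fun g hg hg' => absurd hg hg'⟩
    · intro F _ hF
      by_contra h1
      rw [ite_eq_right_iff, Classical.not_imp] at h1
      refine hF (eq_of_subset_of_card_le h1.1.1 ?_)
      rw [hK3, hφ F h1.2]
    · intro h; exact absurd (mem_univ _) h
  · intro X hX1 hX2
    have hcl : ∀ K ⊆ X, K ⊆ A ∧ H.IsClique (K : Set (Fin n)) := fun K hK =>
      ⟨hK.trans hX1, hX2.subset (by exact_mod_cast hK)⟩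
    -- the sum over the subsets
    have h1 : (∑ K : Finset (Fin n), if K ⊆ X then ψ K else 0) =
        ∑ F : Finset (Fin n), if F ⊆ X ∧ Gv F X then φ F else 0 := by
      have e1 : ∀ K : Finset (Fin n), (if K ⊆ X then ψ K else 0) =
          ∑ F : Finset (Fin n), if F ⊆ K ∧ K ⊆ X ∧ Gd F K then φ F else 0 := by
        intro K
        by_cases hK : K ⊆ X
        · rw [if_pos hK, hψ]
          simp only
          rw [if_pos (hcl K hK)]
          simp only [hK, true_and]
        · rw [if_neg hK]
          exact (sum_eq_zero fun F _ => if_neg fun h => hK h.2.1).symm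
      rw [sum_congr rfl fun K _ => e1 K, sum_comm]
      refine sum_congr rfl fun F _ => ?_
      by_cases hF : F ⊆ X
      · have e2 := interval_sum F (F ∪ X.filter fun g => ¬ Even (F.filter (· < g)).card) (φ F)
        have e3 : (F ⊆ X ∧ Gv F X) ↔ F = F ∪ X.filter fun g => ¬ Even (F.filter (· < g)).card := by
          rw [eq_comm, union_eq_left]
          constructor
          · rintro ⟨_, h⟩ g hg
            rw [mem_filter] at hg
            by_contra h2
            exact hg.2 (h g hg.1 h2)
          · intro h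
            refine ⟨hF, fun g hg hg' => ?_⟩
            by_contra h2
            exact hg' (h (mem_filter.2 ⟨hg, h2⟩))
        rw [if_congr e3 rfl rfl, ← e2]
        refine sum_congr rfl fun K _ => if_congr ?_ rfl rfl
        constructor
        · rintro ⟨h2, h3, h4⟩
          refine ⟨h2, fun g hg => ?_⟩
          rw [mem_union, mem_filter]
          by_cases h5 : g ∈ F
          · exact Or.inl h5
          · exact Or.inr ⟨h3 hg, h4 g hg h5⟩
        · rintro ⟨h2, h3⟩
          refine ⟨h2, h3.trans (union_subset hF (filter_subset _ _)), fun g hg hg' => ?_⟩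
          have := h3 hg
          rw [mem_union, mem_filter] at this
          rcases this with h5 | h5
          · exact absurd h5 hg'
          · exact h5.2
      · rw [if_neg fun h => hF h.1]
        exact sum_eq_zero fun K _ => if_neg fun h => hF (h.1.trans h.2.1)
    -- the coboundary
    have h2 : ∑ F : Finset (Fin n), (if F ⊆ X then φ F * ∑ v ∈ X \ F, (if Gd (insert v F) X then 1 else 0) else 0) = 0 := by
      have e1 : ∀ G : Finset (Fin n), (if G ⊆ X ∧ G.card = i + 1 ∧ Gd G X then ∑ v ∈ G, φ (G.erase v) else 0) = 0 := by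
        intro G
        split_ifs with h
        · exact hc G (h.1.trans hX1) (hX2.subset (by exact_mod_cast h.1)) h.2.1
        · rfl
      have e2 : ∑ G : Finset (Fin n), (if G ⊆ X ∧ G.card = i + 1 ∧ Gd G X then ∑ v ∈ G, φ (G.erase v) else 0) = 0 :=
        sum_eq_zero fun G _ => e1 G
      refine Eq.trans ?_ e2
      have e3 : ∀ F : Finset (Fin n), (if F ⊆ X then φ F * ∑ v ∈ X \ F, (if Gd (insert v F) X then 1 else 0) else 0) =
          ∑ v : Fin n, if v ∉ F ∧ insert v F ⊆ X ∧ (insert v F).card = i + 1 ∧ Gd (insert v F) X then φ F else 0 := by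
        intro F
        by_cases hF : F ⊆ X
        · rw [if_pos hF, mul_sum, ← sum_filter_add_sum_filter_not univ (fun v => v ∈ X \ F)]
          have e4 : ∑ v ∈ univ.filter (fun v => v ∉ X \ F),
              (if v ∉ F ∧ insert v F ⊆ X ∧ (insert v F).card = i + 1 ∧ Gd (insert v F) X then φ F else 0) = 0 := by
            refine sum_eq_zero fun v hv => if_neg fun h => ?_
            rw [mem_filter, mem_sdiff] at hv
            exact hv.2 ⟨h.2.1 (mem_insert_self _ _), h.1⟩
          rw [e4, add_zero]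
          refine sum_congr (by ext; simp) fun v hv => ?_
          rw [mem_filter, mem_sdiff] at hv
          replace hv := hv.2
          by_cases h0 : φ F = 0
          · rw [h0, zero_mul]
            split_ifs <;> rfl
          · have e5 : (insert v F).card = i + 1 := by rw [card_insert_of_notMem hv.2, hφ F h0]
            by_cases h3 : Gd (insert v F) X
            · rw [if_pos h3, mul_one, if_pos ⟨hv.2, insert_subset hv.1 hF, e5, h3⟩]
            · rw [if_neg h3, mul_zero, if_neg fun h => h3 h.2.2.2]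
        · rw [if_neg hF]
          exact (sum_eq_zero fun v _ => if_neg fun h => hF ((subset_insert _ _).trans h.2.1)).symm
      rw [sum_congr rfl fun F _ => e3 F]
      have e4 : ∀ G : Finset (Fin n), (if G ⊆ X ∧ G.card = i + 1 ∧ Gd G X then ∑ v ∈ G, φ (G.erase v) else 0) =
          ∑ v : Fin n, if v ∈ G ∧ G ⊆ X ∧ G.card = i + 1 ∧ Gd G X then φ (G.erase v) else 0 := by
        intro G
        by_cases hG : G ⊆ X ∧ G.card = i + 1 ∧ Gd G X
        · rw [if_pos hG]
          simp only [hG, and_true]
          rw [← sum_filter]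
          refine sum_congr ?_ fun _ _ => rfl
          ext; simp
        · rw [if_neg hG]
          exact (sum_eq_zero fun v _ => if_neg fun h => hG h.2).symm
      rw [sum_congr rfl fun G _ => e4 G, sum_comm, sum_comm (s := univ) (t := univ) (f := fun G v =>
        if v ∈ G ∧ G ⊆ X ∧ G.card = i + 1 ∧ Gd G X then φ (G.erase v) else 0)]
      refine sum_congr rfl fun v _ => ?_
      rw [← sum_filter, ← sum_filter]
      refine sum_nbij' (fun F => insert v F) (fun G => G.erase v) ?_ ?_ ?_ ?_ ?_
      · intro F hF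
        rw [mem_filter] at hF ⊢
        exact ⟨mem_univ _, mem_insert_self _ _, hF.2.2⟩
      · intro G hG
        rw [mem_filter] at hG ⊢
        refine ⟨mem_univ _, notMem_erase _ _, ?_⟩
        rw [insert_erase hG.2.1]
        exact hG.2.2
      · intro F hF
        rw [mem_filter] at hF
        exact erase_insert hF.2.1
      · intro G hG
        rw [mem_filter] at hG
        exact insert_erase hG.2.1
      · intro F hF
        rw [mem_filter] at hF
        rw [erase_insert hF.2.1]
    -- the alternating count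
    have h3 : ∀ F : Finset (Fin n), ∑ v ∈ X \ F, (if Gd (insert v F) X then (1 : ZMod 2) else 0) =
        (if Gv F X then 1 else 0) + if Gd F X then 1 else 0 := by
      intro F
      have e1 := alt_count (fun g => Even (F.filter (· < g)).card) (X \ F)
      have e2 : (∀ g ∈ X \ F, Even (F.filter (· < g)).card) ↔ Gv F X := by
        unfold Gv
        simp only [mem_sdiff, and_imp]
      have e3 : (∀ g ∈ X \ F, ¬ Even (F.filter (· < g)).card) ↔ Gd F X := by
        unfold Gd
        simp only [mem_sdiff, and_imp]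
      rw [if_congr e2 rfl rfl, if_congr e3 rfl rfl] at e1
      rw [← e1]
      refine sum_congr rfl fun v hv => if_congr ?_ rfl rfl
      rw [mem_sdiff] at hv
      unfold Gd
      have e4 : ∀ g, v < g → ((insert v F).filter (· < g)).card = (F.filter (· < g)).card + 1 := by
        intro g hg
        rw [filter_insert, if_pos hg, card_insert_of_notMem]
        rw [mem_filter]
        exact fun h => hv.2 h.1
      have e5 : ∀ g, ¬ v < g → ((insert v F).filter (· < g)).card = (F.filter (· < g)).card := by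
        intro g hg
        rw [filter_insert, if_neg hg]
      constructor
      · intro h g hg
        rw [mem_sdiff] at hg
        refine ⟨fun h1 => ?_, fun h1 => ?_⟩
        · have h2 := h g hg.1 (by rw [mem_insert, not_or]; exact ⟨h1.ne', hg.2⟩)
          rw [e4 g h1, Nat.even_add_one, not_not] at h2
          exact h2
        · have h2 := h g hg.1 (by rw [mem_insert, not_or]; exact ⟨h1.ne, hg.2⟩)
          rwa [e5 g (not_lt.2 h1.le)] at h2
      · intro h g hg hg'
        rw [mem_insert, not_or] at hg'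
        have h1 := h g (mem_sdiff.2 ⟨hg, hg'.2⟩)
        rcases lt_or_gt_of_ne hg'.1 with h2 | h2
        · rw [e5 g (not_lt.2 h2.le)]
          exact h1.2 h2
        · rw [e4 g h2, Nat.even_add_one, not_not]
          exact h1.1 h2
    have h4 : ∑ F : Finset (Fin n), ((if F ⊆ X ∧ Gv F X then φ F else 0) + if F ⊆ X ∧ Gd F X then φ F else 0) = 0 := by
      refine Eq.trans ?_ h2
      refine sum_congr rfl fun F _ => ?_
      by_cases hF : F ⊆ X
      · rw [if_pos hF, h3 F, mul_add]
        congr 1
        · by_cases h5 : Gv F X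
          · rw [if_pos ⟨hF, h5⟩, if_pos h5, mul_one]
          · rw [if_neg fun h => h5 h.2, if_neg h5, mul_zero]
        · by_cases h5 : Gd F X
          · rw [if_pos ⟨hF, h5⟩, if_pos h5, mul_one]
          · rw [if_neg fun h => h5 h.2, if_neg h5, mul_zero]
      · rw [if_neg fun h => hF h.1, if_neg fun h => hF h.1, if_neg hF, add_zero]
    rw [sum_add_distrib] at h4
    rw [h1, CharTwo.add_eq_zero.1 h4, hψ]
    simp only
    rw [if_pos ⟨hX1, hX2⟩]

end Pool.Agent.H815.TW
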