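import Pool.Agent.H815.TW.Prod

/-!
# Images of symmetric cycles
-/

set_option autoImplicit false

namespace Pool.Agent.H815.TW

open Finset Pool.Agent.W555.KS Pool.Agent.Y131.KS

variable {N n : ℕ}

/-- the image of a function on pairs of sets -/
def pf (g : Fin N → Fin n) (Z : PC N) : PC n := fun σ τ =>
  ∑ S : Finset (Fin N), ∑ T : Finset (Fin N), if S.image g = σ ∧ T.image g = τ then Z S T else 0

/-- `g` is injective on the union of the two sets of each pair in the support -/
def Gs (g : Fin N → Fin n) (Z : PC N) : Prop :=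
  ∀ S T, Z S T ≠ 0 → Disjoint S T ∧ Set.InjOn g ((S ∪ T : Finset (Fin N)) : Set (Fin N))

theorem sw_pf (g : Fin N → Fin n) (Z : PC N) : sw (pf g Z) = pf g (sw Z) := by
  funext σ τ
  show (∑ S : Finset (Fin N), ∑ T : Finset (Fin N), if S.image g = τ ∧ T.image g = σ then Z S T else 0) =
    ∑ S : Finset (Fin N), ∑ T : Finset (Fin N), if S.image g = σ ∧ T.image g = τ then Z T S else 0
  rw [sum_comm]
  refine sum_congr rfl fun S _ => sum_congr rfl fun T _ => if_congr (and_comm) rfl rfl

theorem pf_add (g : Fin N → Fin n) (Z Z' : PC N) : pf g (Z + Z') = pf g Z + pf g Z' := by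
  funext σ τ
  show (∑ S : Finset (Fin N), ∑ T : Finset (Fin N), if S.image g = σ ∧ T.image g = τ then Z S T + Z' S T else 0) =
    (∑ S : Finset (Fin N), ∑ T : Finset (Fin N), if S.image g = σ ∧ T.image g = τ then Z S T else 0) +
    ∑ S : Finset (Fin N), ∑ T : Finset (Fin N), if S.image g = σ ∧ T.image g = τ then Z' S T else 0
  rw [← sum_add_distrib]
  refine sum_congr rfl fun S _ => ?_
  rw [← sum_add_distrib]
  refine sum_congr rfl fun T _ => ?_
  split_ifs
  · rfl
  · rw [add_zero]

theorem pf_zero (g : Fin N → Fin n) : pf g 0 = 0 := by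
  funext σ τ
  refine sum_eq_zero fun S _ => sum_eq_zero fun T _ => ?_
  split_ifs <;> rfl

theorem pf_ne {g : Fin N → Fin n} {Z : PC N} {σ τ : Finset (Fin n)} (h : pf g Z σ τ ≠ 0) :
    ∃ S T, Z S T ≠ 0 ∧ S.image g = σ ∧ T.image g = τ := by
  obtain ⟨S, _, h1⟩ := exists_ne_zero_of_sum_ne_zero h
  obtain ⟨T, _, h2⟩ := exists_ne_zero_of_sum_ne_zero h1
  split_ifs at h2 with h3
  · exact ⟨S, T, h2, h3.1, h3.2⟩
  · exact absurd rfl h2

theorem Gs.sw {g : Fin N → Fin n} {Z : PC N} (h : Gs g Z) : Gs g (sw Z) := fun S T h1 => by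
  have h2 := h T S h1
  exact ⟨h2.1.symm, by rw [union_comm]; exact h2.2⟩

theorem Gs.sub {g : Fin N → Fin n} {Z Z' : PC N} (h : Gs g Z) (h' : ∀ S T, Z' S T ≠ 0 → Z S T ≠ 0) : Gs g Z' :=
  fun S T h1 => h S T (h' S T h1)

theorem Gs.dd {g : Fin N → Fin n} {Z : PC N} (h : Gs g Z) : Gs g (dd Z) := by
  intro S T h1
  obtain ⟨v, hv1, hv2, h2 | h2⟩ := dd_ne h1
  · have h3 := h _ _ h2
    refine ⟨disjoint_of_subset_left (subset_insert _ _) h3.1, h3.2.mono ?_⟩
    exact_mod_cast union_subset_union (subset_insert _ _) (Subset.refl _)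
  · have h3 := h _ _ h2
    refine ⟨disjoint_of_subset_right (subset_insert _ _) h3.1, h3.2.mono ?_⟩
    exact_mod_cast union_subset_union (Subset.refl _) (subset_insert _ _)

theorem pf_part {g : Fin N → Fin n} {Z : PC N} (h : Gs g Z) (ρ τ : Finset (Fin n)) :
    ∑ v ∈ (ρ ∪ τ)ᶜ, pf g Z (insert v ρ) τ =
      ∑ R : Finset (Fin N), ∑ T : Finset (Fin N), if R.image g = ρ ∧ T.image g = τ then
        ∑ x ∈ (R ∪ T)ᶜ, Z (insert x R) T else 0 := by
  have key : ∀ T : Finset (Fin N), T.image g = τ →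
      (∑ v ∈ (ρ ∪ τ)ᶜ, ∑ S : Finset (Fin N), if S.image g = insert v ρ then Z S T else 0) =
      ∑ R : Finset (Fin N), if R.image g = ρ then ∑ x ∈ (R ∪ T)ᶜ, Z (insert x R) T else 0 := by
    intro T hT
    have e1 : (∑ v ∈ (ρ ∪ τ)ᶜ, ∑ S : Finset (Fin N), if S.image g = insert v ρ then Z S T else 0) =
        ∑ p : Fin n × Finset (Fin N), if p.1 ∉ ρ ∪ τ ∧ p.2.image g = insert p.1 ρ then Z p.2 T else 0 := by
      rw [Fintype.sum_prod_type, ← sum_filter_add_sum_filter_not univ (fun v => v ∉ ρ ∪ τ)]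
      have e2 : (∑ v ∈ univ.filter (fun v => ¬ v ∉ ρ ∪ τ), ∑ S : Finset (Fin N),
          if v ∉ ρ ∪ τ ∧ S.image g = insert v ρ then Z S T else 0) = 0 := by
        refine sum_eq_zero fun v hv => sum_eq_zero fun S _ => if_neg fun h1 => ?_
        exact (mem_filter.1 hv).2 h1.1
      rw [e2, add_zero]
      refine sum_congr ?_ fun v hv => sum_congr rfl fun S _ => ?_
      · ext v; simp
      · exact if_congr ⟨fun h1 => ⟨(mem_filter.1 hv).2, h1⟩, fun h1 => h1.2⟩ rfl rfl
    have e3 : (∑ R : Finset (Fin N), if R.image g = ρ then ∑ x ∈ (R ∪ T)ᶜ, Z (insert x R) T else 0) =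
        ∑ p : Fin N × Finset (Fin N), if p.1 ∉ p.2 ∪ T ∧ p.2.image g = ρ then Z (insert p.1 p.2) T else 0 := by
      rw [Fintype.sum_prod_type, sum_comm]
      refine sum_congr rfl fun R _ => ?_
      by_cases hR : R.image g = ρ
      · rw [if_pos hR, ← sum_filter_add_sum_filter_not univ (fun x => x ∉ R ∪ T)]
        have e2 : (∑ x ∈ univ.filter (fun x => ¬ x ∉ R ∪ T),
            if x ∉ R ∪ T ∧ R.image g = ρ then Z (insert x R) T else 0) = 0 := by
          refine sum_eq_zero fun v hv => if_neg fun h1 => ?_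
          exact (mem_filter.1 hv).2 h1.1
        rw [e2, add_zero]
        refine sum_congr ?_ fun v hv => ?_
        · ext v; simp
        · rw [if_pos ⟨(mem_filter.1 hv).2, hR⟩]
      · rw [if_neg hR]
        exact (sum_eq_zero fun x _ => if_neg fun h1 => hR h1.2).symm
    rw [e1, e3]
    symm
    refine sum_bij_ne_zero (fun p _ _ => (g p.1, insert p.1 p.2)) (fun _ _ _ => mem_univ _) ?_ ?_ ?_
    · rintro ⟨x, R⟩ _ h1 ⟨x', R'⟩ _ h1' h2
      simp only at h1 h1' h2
      split_ifs at h1 with h3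
      swap; · exact absurd rfl h1
      split_ifs at h1' with h3'
      swap; · exact absurd rfl h1'
      rw [Prod.mk.injEq] at h2
      have h4 := (h _ _ h1).2
      have h5 : x = x' := by
        refine h4 ?_ ?_ h2.1
        · exact_mod_cast mem_union_left _ (mem_insert_self _ _)
        · rw [h2.2]
          exact_mod_cast mem_union_left _ (mem_insert_self _ _)
      subst h5
      have h6 : x ∉ R := fun h => h3.1 (mem_union_left _ h)
      have h6' : x ∉ R' := fun h => h3'.1 (mem_union_left _ h)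
      rw [← erase_insert h6, h2.2, erase_insert h6']
    · rintro ⟨v, S⟩ _ h1
      simp only at h1
      split_ifs at h1 with h2
      swap; · exact absurd rfl h1
      obtain ⟨h2, h3⟩ := h2
      have h4 := (h _ _ h1)
      have h5 : v ∈ S.image g := by rw [h3]; exact mem_insert_self _ _
      obtain ⟨x, hx, rfl⟩ := mem_image.1 h5
      have hxT : x ∉ T := fun hxT => h2 (mem_union_right _ (hT ▸ mem_image_of_mem g hxT))
      refine ⟨(x, S.erase x), mem_univ _, ?_, ?_⟩
      · simp only
        rw [insert_erase hx, if_pos]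
        · exact h1
        · refine ⟨?_, ?_⟩
          · rw [mem_union, mem_erase]
            tauto
          · ext w
            rw [mem_image]
            constructor
            · rintro ⟨y, hy, rfl⟩
              rw [mem_erase] at hy
              have h6 : g y ∈ insert (g x) ρ := by rw [← h3]; exact mem_image_of_mem g hy.2
              rcases mem_insert.1 h6 with h7 | h7
              · exact absurd (h4.2 (by exact_mod_cast mem_union_left _ hy.2) (by exact_mod_cast mem_union_left _ hx) h7) hy.1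
              · exact h7
            · intro hw
              have h6 : w ∈ S.image g := by rw [h3]; exact mem_insert_of_mem hw
              obtain ⟨y, hy, rfl⟩ := mem_image.1 h6
              refine ⟨y, mem_erase.2 ⟨?_, hy⟩, rfl⟩
              intro e
              rw [e] at hw
              exact h2 (mem_union_left _ hw)
      · simp only
        rw [insert_erase hx]
    · rintro ⟨x, R⟩ _ h1
      simp only at h1 ⊢
      split_ifs at h1 with h3
      swap; · exact absurd rfl h1
      rw [if_pos h3, if_pos]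
      have h4 := (h _ _ h1).2
      refine ⟨?_, by rw [image_insert, h3.2]⟩
      rw [mem_union, not_or]
      constructor
      · intro h5
        rw [← h3.2] at h5
        obtain ⟨y, hy, h6⟩ := mem_image.1 h5
        have h7 := h4 (by exact_mod_cast mem_union_left _ (mem_insert_of_mem hy))
          (by exact_mod_cast mem_union_left _ (mem_insert_self _ _)) h6
        exact h3.1 (mem_union_left _ (h7 ▸ hy))
      · intro h5
        rw [← hT] at h5
        obtain ⟨y, hy, h6⟩ := mem_image.1 h5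
        have h7 := h4 (by exact_mod_cast mem_union_right _ hy)
          (by exact_mod_cast mem_union_left _ (mem_insert_self _ _)) h6
        exact h3.1 (mem_union_right _ (h7 ▸ hy))
  have e1 : ∀ v, pf g Z (insert v ρ) τ = ∑ T : Finset (Fin N), if T.image g = τ then
      (∑ S : Finset (Fin N), if S.image g = insert v ρ then Z S T else 0) else 0 := by
    intro v
    unfold pf
    rw [sum_comm]
    refine sum_congr rfl fun T _ => ?_
    by_cases hT : T.image g = τ
    · rw [if_pos hT]
      exact sum_congr rfl fun S _ => if_congr ⟨fun h1 => h1.1, fun h1 => ⟨h1, hT⟩⟩ rfl rfl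
    · rw [if_neg hT]
      exact sum_eq_zero fun S _ => if_neg fun h1 => hT h1.2
  rw [sum_congr rfl fun v _ => e1 v, sum_comm, sum_comm (s := univ) (t := univ)
    (f := fun (R T : Finset (Fin N)) => if R.image g = ρ ∧ T.image g = τ then
        ∑ x ∈ (R ∪ T)ᶜ, Z (insert x R) T else 0)]
  refine sum_congr rfl fun T _ => ?_
  by_cases hT : T.image g = τ
  · simp only [hT, if_true, and_true]
    exact key T hT
  · simp only [hT, if_false, and_false]
    rw [sum_const_zero, sum_const_zero]

theorem dd_pf {g : Fin N → Fin n} {Z : PC N} (h : Gs g Z) : dd (pf g Z) = pf g (dd Z) := by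
  funext ρ τ
  have e1 : dd (pf g Z) ρ τ = ∑ v ∈ (ρ ∪ τ)ᶜ, pf g Z (insert v ρ) τ + ∑ v ∈ (τ ∪ ρ)ᶜ, pf g (sw Z) (insert v τ) ρ := by
    show ∑ v ∈ (ρ ∪ τ)ᶜ, (pf g Z (insert v ρ) τ + pf g Z ρ (insert v τ)) = _
    rw [sum_add_distrib, union_comm τ ρ, ← sw_pf]
    rfl
  rw [e1, pf_part h, pf_part h.sw, sum_comm (s := univ) (t := univ)
    (f := fun (R T : Finset (Fin N)) => if R.image g = τ ∧ T.image g = ρ then
        ∑ x ∈ (R ∪ T)ᶜ, sw Z (insert x R) T else 0), ← sum_add_distrib]
  refine sum_congr rfl fun R _ => ?_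
  rw [← sum_add_distrib]
  refine sum_congr rfl fun T _ => ?_
  by_cases h1 : R.image g = ρ ∧ T.image g = τ
  · rw [if_pos h1, if_pos h1.symm, if_pos h1, union_comm T R, ← sum_add_distrib]
    rfl
  · rw [if_neg h1, if_neg fun h2 => h1 h2.symm, if_neg h1, add_zero]

theorem Sy.half_supp {D : ℕ} {Z : PC N} (h : Sy (D + 1) Z) :
    ∃ A : PC N, A + TW.sw A = Z ∧ Sy D (Y131.KS.dd A) ∧ ∀ σ τ, A σ τ ≠ 0 → Z σ τ ≠ 0 := by
  obtain ⟨A, hA, hA2⟩ := TW.half h.sym (fun σ τ h1 e => by
      have h2 := h.dis σ τ h1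
      have h3 := h.deg σ τ h1
      rw [e, disjoint_self, bot_eq_empty] at h2
      rw [e, h2] at h3
      simp at h3) (fun _ => True) (fun _ _ _ => Or.inl trivial)
  have key : ∀ σ τ, Y131.KS.dd A σ τ ≠ 0 → ∃ σ' τ', σ ⊆ σ' ∧ τ ⊆ τ' ∧ A σ' τ' ≠ 0 ∧
      σ.card + τ.card + 1 = σ'.card + τ'.card := by
    intro σ τ h1
    obtain ⟨v, hv1, hv2, h2 | h2⟩ := dd_ne h1
    · exact ⟨_, _, subset_insert _ _, Subset.refl _, h2, by rw [card_insert_of_notMem hv1]; omega⟩
    · exact ⟨_, _, Subset.refl _, subset_insert _ _, h2, by rw [card_insert_of_notMem hv2]; omega⟩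
  refine ⟨A, hA, ⟨?_, dd_dd A, ?_, ?_⟩, fun σ τ h1 => (hA2 σ τ h1).1⟩
  · have h1 := congrArg Y131.KS.dd hA
    rw [h.cyc, dd_add, dd_sw] at h1
    funext σ τ
    have h3 : Y131.KS.dd A σ τ + TW.sw (Y131.KS.dd A) σ τ = 0 := congrFun (congrFun h1 σ) τ
    exact (CharTwo.add_eq_zero.1 h3).symm
  · intro σ τ h1
    obtain ⟨σ', τ', h2, h3, h4, _⟩ := key σ τ h1
    exact disjoint_of_subset_left h2 (disjoint_of_subset_right h3 (h.dis _ _ (hA2 _ _ h4).1))
  · intro σ τ h1
    obtain ⟨σ', τ', _, _, h4, h5⟩ := key σ τ h1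
    have := h.deg _ _ (hA2 _ _ h4).1
    omega

/-- the evaluation is invariant -/
theorem ev_pf {g : Fin N → Fin n} : ∀ (D : ℕ) (Z : PC N), Sy D Z → Gs g Z → ev D (pf g Z) = ev D Z := by
  intro D
  induction D with
  | zero =>
    intro Z _ _
    rw [ev_deg0, ev_deg0]
    unfold pf
    rw [sum_eq_single ∅, sum_eq_single ∅]
    · rw [if_pos ⟨image_empty _, image_empty _⟩]
    · intro T _ hT
      exact if_neg fun h => hT (image_eq_empty.1 h.2)
    · intro h; exact absurd (mem_univ _) h
    · intro S _ hS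
      exact sum_eq_zero fun T _ => if_neg fun h => hS (image_eq_empty.1 h.1)
    · intro h; exact absurd (mem_univ _) h
  | succ D ih =>
    intro Z h hg
    obtain ⟨A, hA, hA2, hA3⟩ := h.half_supp
    have h1 : pf g A + TW.sw (pf g A) = pf g Z := by
      rw [sw_pf, ← pf_add, hA]
    have hgA : Gs g A := hg.sub hA3
    rw [ev_half D h1, ev_half D hA, dd_pf hgA]
    exact ih _ hA2 hgA.dd

end Pool.Agent.H815.TW
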