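import Pool.Agent.H815.TW.Dbl
import Pool.Graph.R_seed8.W290.SG.Rank
import Pool.Graph.R_seed8.R703.MO.Defs

/-!
# From exactness modulo 2 to exactness over the reals
-/

set_option autoImplicit false

namespace Pool.Agent.H815.TW

open Finset Pool.Agent.W907.SG Pool.Agent.R703.MO

/-- exactness of integral matrices: from `ZMod 2` to the reals -/
theorem exact_real {m N p : Type} [Fintype m] [Fintype N] [Fintype p] (A : Matrix m N ℤ) (B : Matrix N p ℤ)
    (hAB : ∀ w : p → ℝ, (A.map (Int.cast : ℤ → ℝ)).mulVec ((B.map (Int.cast : ℤ → ℝ)).mulVec w) = 0)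
    (h : ∀ y : N → ZMod 2, (A.map (Int.cast : ℤ → ZMod 2)).mulVec y = 0 →
      ∃ w, (B.map (Int.cast : ℤ → ZMod 2)).mulVec w = y) (y : N → ℝ)
    (hy : (A.map (Int.cast : ℤ → ℝ)).mulVec y = 0) : ∃ w, (B.map (Int.cast : ℤ → ℝ)).mulVec w = y := by
  classical
  have hA := Pool.Agent.W290.SG.rank_modp 2 A
  have hB := Pool.Agent.W290.SG.rank_modp 2 B
  obtain ⟨A2, hA2⟩ : ∃ A2, A2 = A.map (Int.cast : ℤ → ZMod 2) := ⟨_, rfl⟩
  obtain ⟨B2, hB2⟩ : ∃ B2, B2 = B.map (Int.cast : ℤ → ZMod 2) := ⟨_, rfl⟩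
  obtain ⟨AR, hAR⟩ : ∃ AR, AR = A.map (Int.cast : ℤ → ℝ) := ⟨_, rfl⟩
  obtain ⟨BR, hBR⟩ : ∃ BR, BR = B.map (Int.cast : ℤ → ℝ) := ⟨_, rfl⟩
  rw [← hA2, ← hAR] at hA
  rw [← hB2, ← hBR] at hB
  rw [← hAR, ← hBR] at hAB
  rw [← hA2, ← hB2] at h
  rw [← hAR] at hy
  rw [← hBR]
  have h1 : LinearMap.ker A2.mulVecLin ≤ LinearMap.range B2.mulVecLin := by
    intro y hy
    obtain ⟨w, hw⟩ := h y hy
    exact ⟨w, hw⟩
  have h2 := Submodule.finrank_mono h1
  have h3 := LinearMap.finrank_range_add_finrank_ker A2.mulVecLin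
  have h4 := LinearMap.finrank_range_add_finrank_ker AR.mulVecLin
  rw [Module.finrank_fintype_fun_eq_card] at h3 h4
  have hA' : Module.finrank (ZMod 2) (LinearMap.range A2.mulVecLin) ≤ Module.finrank ℝ (LinearMap.range AR.mulVecLin) := hA
  have hB' : Module.finrank (ZMod 2) (LinearMap.range B2.mulVecLin) ≤ Module.finrank ℝ (LinearMap.range BR.mulVecLin) := hB
  have h5 : LinearMap.range BR.mulVecLin ≤ LinearMap.ker AR.mulVecLin := by
    rintro _ ⟨w, rfl⟩
    exact hAB w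
  have h6 : LinearMap.range BR.mulVecLin = LinearMap.ker AR.mulVecLin :=
    Submodule.eq_of_le_of_finrank_le h5 (by omega)
  have h7 : y ∈ LinearMap.range BR.mulVecLin := by
    rw [h6]
    exact hy
  obtain ⟨w, hw⟩ := h7
  exact ⟨w, hw⟩

section

variable {n : ℕ} (G : SimpleGraph (Fin n)) (A : Finset (Fin n))

/-- the cliques with `c` elements in `A` -/
abbrev Idx (c : ℕ) : Type := {σ : Finset (Fin n) // G.IsClique (σ : Set (Fin n)) ∧ σ ⊆ A ∧ σ.card = c}

noncomputable instance (c : ℕ) : Fintype (Idx G A c) := Fintype.ofFinite _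

open Classical in
/-- extension by zero -/
noncomputable def extz {F : Type} [Zero F] {c : ℕ} (x : Idx G A c → F) (σ : Finset (Fin n)) : F :=
  if h : G.IsClique (σ : Set (Fin n)) ∧ σ ⊆ A ∧ σ.card = c then x ⟨σ, h⟩ else 0

open Classical in
/-- the boundary matrix -/
noncomputable def bM (c : ℕ) : Matrix (Finset (Fin n)) (Idx G A c) ℤ :=
  Matrix.of fun ρ σ => ∑ v ∈ ρᶜ, if insert v ρ = σ.1 then sg v ρ else 0

theorem bM_mulVec {F : Type} [Field F] (c : ℕ) (x : Idx G A c → F) (ρ : Finset (Fin n)) :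
    ((bM G A c).map (Int.cast : ℤ → F)).mulVec x ρ = ∑ v ∈ ρᶜ, (sg v ρ : F) * extz G A x (insert v ρ) := by
  classical
  rw [Matrix.mulVec_eq_sum]
  rw [Finset.sum_apply]
  have h1 : ∀ σ : Idx G A c, (MulOpposite.op (x σ) • ((bM G A c).map (Int.cast : ℤ → F)).transpose σ) ρ =
      ∑ v ∈ ρᶜ, if insert v ρ = σ.1 then (sg v ρ : F) * x σ else 0 := by
    intro σ
    rw [Pi.smul_apply, Matrix.transpose_apply, Matrix.map_apply]
    show ((∑ v ∈ ρᶜ, if insert v ρ = σ.1 then sg v ρ else 0 : ℤ) : F) * x σ = _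
    rw [Int.cast_sum, Finset.sum_mul]
    refine Finset.sum_congr rfl fun v _ => ?_
    split_ifs
    · rfl
    · rw [Int.cast_zero, zero_mul]
  rw [Finset.sum_congr rfl fun σ _ => h1 σ, Finset.sum_comm]
  refine Finset.sum_congr rfl fun v _ => ?_
  unfold extz
  split_ifs with h
  · rw [Finset.sum_eq_single (⟨insert v ρ, h⟩ : Idx G A c)]
    · exact if_pos rfl
    · intro σ _ hσ
      refine if_neg fun e => hσ (Subtype.ext e.symm)
    · intro h2
      exact absurd (Finset.mem_univ _) h2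
  · rw [mul_zero]
    refine Finset.sum_eq_zero fun σ _ => if_neg fun e => h ?_
    rw [e]
    exact σ.2

theorem extz_mem {F : Type} [Zero F] {c : ℕ} (x : Idx G A c → F) (σ : Idx G A c) : extz G A x σ.1 = x σ :=
  dif_pos σ.2

/-- **Exactness modulo 2 implies exactness over the reals.** -/
theorem beta_of_ex {c : ℕ} (h : Ex G A c) : beta G (neg ℝ (Fin n)) (A : Set (Fin n)) ∅ c = 0 := by
  classical
  obtain ⟨P, hP⟩ : ∃ P : Matrix (Finset (Fin n)) (Idx G A c) ℤ, P = bM G A c := ⟨_, rfl⟩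
  obtain ⟨Q, hQ⟩ : ∃ Q : Matrix (Idx G A c) (Idx G A (c + 1)) ℤ,
    Q = Matrix.of fun σ κ => bM G A (c + 1) σ.1 κ := ⟨_, rfl⟩
  have hPm : ∀ {F : Type} [Field F] (x : Idx G A c → F) (ρ : Finset (Fin n)),
      (P.map (Int.cast : ℤ → F)).mulVec x ρ = ∑ v ∈ ρᶜ, (sg v ρ : F) * extz G A x (insert v ρ) := by
    intro F _ x ρ
    rw [hP]
    exact bM_mulVec G A c x ρ
  have hQm : ∀ {F : Type} [Field F] (x : Idx G A (c + 1) → F) (σ : Idx G A c),
      (Q.map (Int.cast : ℤ → F)).mulVec x σ = ∑ v ∈ σ.1ᶜ, (sg v σ.1 : F) * extz G A x (insert v σ.1) := by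
    intro F _ x σ
    rw [hQ]
    exact bM_mulVec G A (c + 1) x σ.1
  -- chains
  have hKK : ∀ {j : ℕ} (x : Idx G A j → ℝ), extz G A x ∈ KK G (neg ℝ (Fin n)) (A : Set (Fin n)) ∅ j := by
    intro j x
    refine mem_KK.2 ⟨fun T hT => ?_, fun T t _ => rfl⟩
    refine dif_neg fun h1 => hT ?_
    exact ⟨h1.1, by exact_mod_cast h1.2.1, h1.2.2⟩
  have hbd : ∀ {j : ℕ} (x : Idx G A j → ℝ) (ρ : Finset (Fin n)),
      bd ℝ (extz G A x) ρ = ∑ v ∈ ρᶜ, (sg v ρ : ℝ) * extz G A x (insert v ρ) := by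
    intro j x ρ
    rw [bd_apply]
    refine Finset.sum_congr rfl fun v _ => ?_
    rw [zsmul_eq_mul]
  have hext : ∀ (z : Finset (Fin n) → ℝ), z ∈ KK G (neg ℝ (Fin n)) (A : Set (Fin n)) ∅ c →
      extz G A (fun σ : Idx G A c => z σ.1) = z := by
    intro z hz
    funext σ
    unfold extz
    split_ifs with h1
    · rfl
    · symm
      refine (mem_KK.1 hz).1 σ fun h2 => h1 ?_
      exact ⟨h2.1, by exact_mod_cast h2.2.1, h2.2.2⟩
  have hQe : ∀ (w : Idx G A (c + 1) → ℝ), extz G A ((Q.map (Int.cast : ℤ → ℝ)).mulVec w) = bd ℝ (extz G A w) := by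
    intro w
    rw [← hext (bd ℝ (extz G A w)) (bd_mem_KK (hKK w))]
    congr 1
    funext σ
    rw [hQm, hbd]
  -- the modulo 2 exactness
  have h2 : ∀ y : Idx G A c → ZMod 2, (P.map (Int.cast : ℤ → ZMod 2)).mulVec y = 0 →
      ∃ w, (Q.map (Int.cast : ℤ → ZMod 2)).mulVec w = y := by
    intro y hy
    have hs : ∀ (v : Fin n) (ρ : Finset (Fin n)), ((sg v ρ : ℤ) : ZMod 2) = 1 := by
      intro v ρ
      rcases sg_eq_or v ρ with h3 | h3
      · rw [h3, Int.cast_one]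
      · rw [h3]
        decide
    have h3 : Ch G A c (extz G A y) := by
      intro σ hσ
      by_contra h4
      exact hσ (dif_neg h4)
    have h4 : b1 (extz G A y) = 0 := by
      funext ρ
      have h5 := congrFun hy ρ
      rw [hPm] at h5
      refine Eq.trans ?_ h5
      refine Finset.sum_congr rfl fun v _ => ?_
      rw [hs, one_mul]
    obtain ⟨w, hw, hbw⟩ := h _ h3 h4
    refine ⟨fun κ => w κ.1, ?_⟩
    funext σ
    rw [hQm]
    have h5 : extz G A (fun κ : Idx G A (c + 1) => w κ.1) = w := by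
      funext κ
      unfold extz
      split_ifs with h6
      · rfl
      · by_contra h7
        exact h6 (hw κ fun h8 => h7 h8.symm)
    rw [h5]
    have h6 := congrFun hbw σ.1
    rw [extz_mem] at h6
    rw [← h6]
    refine Finset.sum_congr rfl fun v _ => ?_
    rw [hs, one_mul]
  have h3 := exact_real P Q (by
    intro w
    funext ρ
    rw [hPm, hQe, ← zero_add (0 : Finset (Fin n) → ℝ)]
    have h4 := congrFun (bd_bd (F := ℝ) (extz G A w)) ρ
    rw [bd_apply] at h4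
    rw [zero_add]
    refine Eq.trans ?_ h4
    refine Finset.sum_congr rfl fun v _ => ?_
    rw [zsmul_eq_mul]) h2
  have h4 : ZZ G (neg ℝ (Fin n)) (A : Set (Fin n)) ∅ c ≤ BB G (neg ℝ (Fin n)) (A : Set (Fin n)) ∅ c := by
    intro z hz
    obtain ⟨w, hw⟩ := h3 (fun σ => z σ.1) (by
      funext ρ
      rw [hPm, hext z hz.1]
      have h5 : bd ℝ z ρ = 0 := congrFun (LinearMap.mem_ker.1 hz.2) ρ
      rw [bd_apply] at h5
      refine Eq.trans ?_ h5
      refine Finset.sum_congr rfl fun v _ => ?_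
      rw [zsmul_eq_mul])
    refine ⟨extz G A w, hKK w, ?_⟩
    rw [← hQe, hw, hext z hz.1]
  unfold beta
  have h5 := Submodule.finrank_mono h4
  omega

end

end Pool.Agent.H815.TW
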