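import Pool.Agent.H815.TW.Psi

/-!
# The symmetry identity
-/

set_option autoImplicit false

namespace Pool.Agent.H815.TW

open Finset

variable {n : ℕ}

theorem half_sum {K N T : Finset (Fin n)} (hd : Disjoint K N) (hT : T ⊆ K) (g : Finset (Fin n) → ZMod 2) :
    ∑ S ∈ K.powerset, g (N ∪ symmDiff S T) =
      ∑ E : Finset (Fin n), if K ⊆ E ∧ E ⊆ K ∪ N then ∑ R ∈ E.powerset, g R else 0 := by
  have h1 : ∀ E : Finset (Fin n), (if K ⊆ E ∧ E ⊆ K ∪ N then ∑ R ∈ E.powerset, g R else 0) =
      ∑ R : Finset (Fin n), if K ∪ R ⊆ E ∧ E ⊆ K ∪ N then g R else 0 := by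
    intro E
    by_cases h : K ⊆ E ∧ E ⊆ K ∪ N
    · rw [if_pos h, ← sum_filter]
      refine sum_congr ?_ fun _ _ => rfl
      ext R
      rw [mem_powerset, mem_filter, union_subset_iff]
      exact ⟨fun h' => ⟨mem_univ _, ⟨h.1, h'⟩, h.2⟩, fun h' => h'.2.1.2⟩
    · rw [if_neg h]
      exact (sum_eq_zero fun R _ => if_neg fun h' => h ⟨subset_union_left.trans h'.1, h'.2⟩).symm
  rw [sum_congr rfl fun E _ => h1 E, sum_comm]
  have h2 : ∀ R : Finset (Fin n), (∑ E : Finset (Fin n), if K ∪ R ⊆ E ∧ E ⊆ K ∪ N then g R else 0) =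
      if K ∪ R = K ∪ N then g R else 0 :=
    fun R => interval_sum _ _ _
  rw [sum_congr rfl fun R _ => h2 R, ← sum_filter]
  have hd' : ∀ v, v ∈ N → v ∉ K := fun v hv hK => (disjoint_left.1 hd hK hv)
  refine sum_nbij' (fun S => N ∪ symmDiff S T) (fun R => symmDiff (R ∩ K) T) ?_ ?_ ?_ ?_ ?_
  · intro S hS
    rw [mem_powerset] at hS
    rw [mem_filter]
    refine ⟨mem_univ _, ?_⟩
    ext v
    simp only [mem_union, mem_symmDiff]
    have := @hS v
    have := @hT v
    tauto
  · intro R hR
    rw [mem_powerset]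
    intro v hv
    simp only [mem_symmDiff, mem_inter] at hv
    have := @hT v
    tauto
  · intro S hS
    rw [mem_powerset] at hS
    ext v
    simp only [mem_union, mem_symmDiff, mem_inter]
    have := @hS v
    have := @hT v
    have := hd' v
    tauto
  · intro R hR
    rw [mem_filter] at hR
    ext v
    have h3 : v ∈ K ∪ R ↔ v ∈ K ∪ N := by rw [hR.2]
    simp only [mem_union, mem_symmDiff, mem_inter] at h3 ⊢
    have := @hT v
    have := hd' v
    tauto
  · intro S _
    rfl

open Classical in
/-- the common neighbours of the elements of `K` -/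
noncomputable def nK (H : SimpleGraph (Fin n)) (K : Finset (Fin n)) : Finset (Fin n) :=
  univ.filter fun v => ∀ u ∈ K, H.Adj v u

open Classical in
theorem mem_nK {H : SimpleGraph (Fin n)} {K : Finset (Fin n)} {v : Fin n} : v ∈ nK H K ↔ ∀ u ∈ K, H.Adj v u := by
  unfold nK
  rw [mem_filter]
  exact ⟨fun h => h.2, fun h => ⟨mem_univ _, h⟩⟩

theorem nK_notMem {H : SimpleGraph (Fin n)} {K : Finset (Fin n)} {v : Fin n} (h : v ∈ nK H K) : v ∉ K :=
  fun hK => H.loopless.irrefl v (mem_nK.1 h v hK)

/-- **The symmetry identity.** -/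
theorem sym_identity {H : SimpleGraph (Fin n)} {A : Finset (Fin n)} {ψ : Finset (Fin n) → ZMod 2}
    (h0 : ∀ K, ψ K ≠ 0 → H.IsClique (K : Set (Fin n)))
    (hψ : ∀ X, X ⊆ A → H.IsClique (X : Set (Fin n)) → (∑ K : Finset (Fin n), if K ⊆ X then ψ K else 0) = ψ X)
    {σ τ : Finset (Fin n)} (hσ : σ ⊆ A) (hτ : τ ⊆ A) (cσ : H.IsClique (σ : Set (Fin n)))
    (cτ : H.IsClique (τ : Set (Fin n))) (F : Finset (Fin n) → Finset (Fin n) → ZMod 2) :
    ∑ K : Finset (Fin n), ψ K * ∑ S ∈ K.powerset, F (S ∩ σ) ((K \ S ∪ nK H K) ∩ τ) =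
      ∑ K : Finset (Fin n), ψ K * ∑ S ∈ K.powerset, F ((K \ S ∪ nK H K) ∩ σ) (S ∩ τ) := by
  classical
  obtain ⟨D, hD⟩ : ∃ D : Finset (Fin n) → ZMod 2, D = fun E => ∑ R ∈ E.powerset, F (R ∩ σ) (symmDiff R σ ∩ τ) :=
    ⟨_, rfl⟩
  have adj1 : ∀ u ∈ σ, ∀ v ∈ σ, u ≠ v → H.Adj u v := fun u hu v hv h => cσ hu hv h
  have adj2 : ∀ u ∈ τ, ∀ v ∈ τ, u ≠ v → H.Adj u v := fun u hu v hv h => cτ hu hv h
  have hL : ∀ K : Finset (Fin n), ψ K * ∑ S ∈ K.powerset, F (S ∩ σ) ((K \ S ∪ nK H K) ∩ τ) =
      ∑ E : Finset (Fin n), if H.IsClique (E : Set (Fin n)) ∧ E ⊆ σ ∪ τ then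
        D E * (if E ∩ σ ⊆ K ∧ K ⊆ E then ψ K else 0) else 0 := by
    intro K
    by_cases hK0 : ψ K = 0
    · rw [hK0, zero_mul]
      exact (sum_eq_zero fun E _ => by simp).symm
    by_cases hK : K ⊆ σ ∪ τ
    · have hnb : ∀ v, v ∈ σ → v ∈ τ → v ∉ K → v ∈ nK H K := by
        intro v h1 h2 h3
        rw [mem_nK]
        intro u hu
        have huv : v ≠ u := fun e => h3 (e ▸ hu)
        rcases mem_union.1 (hK hu) with h4 | h4
        · exact adj1 v h1 u h4 huv
        · exact adj2 v h2 u h4 huv
      have e1 : ∀ S ∈ K.powerset, F (S ∩ σ) ((K \ S ∪ nK H K) ∩ τ) =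
          (fun R => F (R ∩ σ) (symmDiff R σ ∩ τ)) (((τ \ σ) ∩ nK H K) ∪ symmDiff S (K \ σ)) := by
        intro S hS
        rw [mem_powerset] at hS
        simp only
        congr 1
        · ext v
          simp only [mem_inter, mem_union, mem_symmDiff, mem_sdiff]
          tauto
        · ext v
          simp only [mem_inter, mem_union, mem_symmDiff, mem_sdiff]
          have h1 := @hS v
          have h2 := hnb v
          have h3 := @nK_notMem n H K v
          tauto
      rw [sum_congr rfl e1, half_sum (N := (τ \ σ) ∩ nK H K) (T := K \ σ) ?_ sdiff_subset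
        (fun R => F (R ∩ σ) (symmDiff R σ ∩ τ)), mul_sum]
      · refine sum_congr rfl fun E _ => ?_
        have e2 : (K ⊆ E ∧ E ⊆ K ∪ ((τ \ σ) ∩ nK H K)) ↔
            ((H.IsClique (E : Set (Fin n)) ∧ E ⊆ σ ∪ τ) ∧ (E ∩ σ ⊆ K ∧ K ⊆ E)) := by
          constructor
          · rintro ⟨h1, h2⟩
            refine ⟨⟨?_, ?_⟩, ?_, h1⟩
            · intro u hu v hv huv
              have hu' := h2 hu
              have hv' := h2 hv
              simp only [mem_union, mem_inter, mem_sdiff] at hu' hv'
              rcases hu' with hu' | hu' <;> rcases hv' with hv' | hv'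
              · exact h0 K hK0 hu' hv' huv
              · exact (mem_nK.1 hv'.2 u hu').symm
              · exact mem_nK.1 hu'.2 v hv'
              · exact adj2 u hu'.1.1 v hv'.1.1 huv
            · intro v hv
              have hv' := h2 hv
              rw [mem_union] at hv'
              rcases hv' with hv' | hv'
              · exact hK hv'
              · exact mem_union_right _ (mem_sdiff.1 (mem_inter.1 hv').1).1
            · intro v hv
              rw [mem_inter] at hv
              have hv' := h2 hv.1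
              simp only [mem_union, mem_inter, mem_sdiff] at hv'
              tauto
          · rintro ⟨⟨h1, h2⟩, h3, h4⟩
            refine ⟨h4, fun v hv => ?_⟩
            by_cases hvK : v ∈ K
            · exact mem_union_left _ hvK
            · refine mem_union_right _ (mem_inter.2 ⟨?_, ?_⟩)
              · have h5 := h2 hv
                rw [mem_union] at h5
                rw [mem_sdiff]
                have h6 : v ∉ σ := fun h => hvK (h3 (mem_inter.2 ⟨hv, h⟩))
                exact ⟨h5.resolve_left h6, h6⟩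
              · rw [mem_nK]
                exact fun u hu => h1 hv (h4 hu) fun e => hvK (e ▸ hu)
        by_cases h5 : H.IsClique (E : Set (Fin n)) ∧ E ⊆ σ ∪ τ
        · rw [if_pos h5]
          by_cases h6 : E ∩ σ ⊆ K ∧ K ⊆ E
          · rw [if_pos h6, if_pos (e2.2 ⟨h5, h6⟩), hD, mul_comm]
          · rw [if_neg h6, if_neg fun h => h6 (e2.1 h).2, mul_zero, mul_zero]
        · rw [if_neg h5, if_neg fun h => h5 (e2.1 h).1, mul_zero]
      · rw [disjoint_left]
        intro v hv hv'
        exact nK_notMem (mem_inter.1 hv').2 hv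
    · obtain ⟨x, hx, hx'⟩ := not_subset.1 hK
      rw [mem_union, not_or] at hx'
      rw [sum_toggle hx, mul_zero]
      · refine (sum_eq_zero fun E _ => ?_).symm
        by_cases h5 : H.IsClique (E : Set (Fin n)) ∧ E ⊆ σ ∪ τ
        · rw [if_pos h5, if_neg fun h => hK (h.2.trans h5.2), mul_zero]
        · rw [if_neg h5]
      · intro S _
        congr 1
        · ext v
          simp only [mem_inter, mem_symmDiff, mem_singleton]
          by_cases hv : v = x
          · subst hv; tauto
          · tauto
        · ext v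
          simp only [mem_inter, mem_union, mem_sdiff, mem_symmDiff, mem_singleton]
          by_cases hv : v = x
          · subst hv; tauto
          · tauto
  have hR : ∀ K : Finset (Fin n), ψ K * ∑ S ∈ K.powerset, F ((K \ S ∪ nK H K) ∩ σ) (S ∩ τ) =
      ∑ E : Finset (Fin n), if H.IsClique (E : Set (Fin n)) ∧ E ⊆ σ ∪ τ then
        D E * (if E \ (E ∩ σ) ⊆ K ∧ K ⊆ E then ψ K else 0) else 0 := by
    intro K
    by_cases hK0 : ψ K = 0
    · rw [hK0, zero_mul]
      exact (sum_eq_zero fun E _ => by simp).symm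
    by_cases hK : K ⊆ σ ∪ τ
    · have hnb : ∀ v, v ∈ σ → v ∈ τ → v ∉ K → v ∈ nK H K := by
        intro v h1 h2 h3
        rw [mem_nK]
        intro u hu
        have huv : v ≠ u := fun e => h3 (e ▸ hu)
        rcases mem_union.1 (hK hu) with h4 | h4
        · exact adj1 v h1 u h4 huv
        · exact adj2 v h2 u h4 huv
      have e1 : ∀ S ∈ K.powerset, F ((K \ S ∪ nK H K) ∩ σ) (S ∩ τ) =
          (fun R => F (R ∩ σ) (symmDiff R σ ∩ τ)) ((σ ∩ nK H K) ∪ symmDiff S (K ∩ σ)) := by
        intro S hS
        rw [mem_powerset] at hS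
        simp only
        congr 1
        · ext v
          simp only [mem_inter, mem_union, mem_symmDiff, mem_sdiff]
          have h1 := @hS v
          tauto
        · ext v
          simp only [mem_inter, mem_union, mem_symmDiff]
          have h1 := @hS v
          have h2 := hnb v
          have h3 := @nK_notMem n H K v
          tauto
      rw [sum_congr rfl e1, half_sum (N := σ ∩ nK H K) (T := K ∩ σ) ?_ inter_subset_left
        (fun R => F (R ∩ σ) (symmDiff R σ ∩ τ)), mul_sum]
      · refine sum_congr rfl fun E _ => ?_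
        have e2 : (K ⊆ E ∧ E ⊆ K ∪ (σ ∩ nK H K)) ↔
            ((H.IsClique (E : Set (Fin n)) ∧ E ⊆ σ ∪ τ) ∧ (E \ (E ∩ σ) ⊆ K ∧ K ⊆ E)) := by
          constructor
          · rintro ⟨h1, h2⟩
            refine ⟨⟨?_, ?_⟩, ?_, h1⟩
            · intro u hu v hv huv
              have hu' := h2 hu
              have hv' := h2 hv
              simp only [mem_union, mem_inter] at hu' hv'
              rcases hu' with hu' | hu' <;> rcases hv' with hv' | hv'
              · exact h0 K hK0 hu' hv' huv
              · exact (mem_nK.1 hv'.2 u hu').symm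
              · exact mem_nK.1 hu'.2 v hv'
              · exact adj1 u hu'.1 v hv'.1 huv
            · intro v hv
              have hv' := h2 hv
              rw [mem_union] at hv'
              rcases hv' with hv' | hv'
              · exact hK hv'
              · exact mem_union_left _ (mem_inter.1 hv').1
            · intro v hv
              rw [mem_sdiff, mem_inter] at hv
              have hv' := h2 hv.1
              simp only [mem_union, mem_inter] at hv'
              tauto
          · rintro ⟨⟨h1, h2⟩, h3, h4⟩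
            refine ⟨h4, fun v hv => ?_⟩
            by_cases hvK : v ∈ K
            · exact mem_union_left _ hvK
            · refine mem_union_right _ (mem_inter.2 ⟨?_, ?_⟩)
              · by_contra h6
                exact hvK (h3 (mem_sdiff.2 ⟨hv, fun h => h6 (mem_inter.1 h).2⟩))
              · rw [mem_nK]
                exact fun u hu => h1 hv (h4 hu) fun e => hvK (e ▸ hu)
        by_cases h5 : H.IsClique (E : Set (Fin n)) ∧ E ⊆ σ ∪ τ
        · rw [if_pos h5]
          by_cases h6 : E \ (E ∩ σ) ⊆ K ∧ K ⊆ E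
          · rw [if_pos h6, if_pos (e2.2 ⟨h5, h6⟩), hD, mul_comm]
          · rw [if_neg h6, if_neg fun h => h6 (e2.1 h).2, mul_zero, mul_zero]
        · rw [if_neg h5, if_neg fun h => h5 (e2.1 h).1, mul_zero]
      · rw [disjoint_left]
        intro v hv hv'
        exact nK_notMem (mem_inter.1 hv').2 hv
    · obtain ⟨x, hx, hx'⟩ := not_subset.1 hK
      rw [mem_union, not_or] at hx'
      rw [sum_toggle hx, mul_zero]
      · refine (sum_eq_zero fun E _ => ?_).symm
        by_cases h5 : H.IsClique (E : Set (Fin n)) ∧ E ⊆ σ ∪ τ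
        · rw [if_pos h5, if_neg fun h => hK (h.2.trans h5.2), mul_zero]
        · rw [if_neg h5]
      · intro S _
        congr 1
        · ext v
          simp only [mem_inter, mem_union, mem_sdiff, mem_symmDiff, mem_singleton]
          by_cases hv : v = x
          · subst hv; tauto
          · tauto
        · ext v
          simp only [mem_inter, mem_symmDiff, mem_singleton]
          by_cases hv : v = x
          · subst hv; tauto
          · tauto
  rw [sum_congr rfl fun K _ => hL K, sum_congr rfl fun K _ => hR K, sum_comm, sum_comm (s := univ) (t := univ)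
    (f := fun (K E : Finset (Fin n)) => if H.IsClique (E : Set (Fin n)) ∧ E ⊆ σ ∪ τ then
        D E * (if E \ (E ∩ σ) ⊆ K ∧ K ⊆ E then ψ K else 0) else 0)]
  refine sum_congr rfl fun E _ => ?_
  by_cases h5 : H.IsClique (E : Set (Fin n)) ∧ E ⊆ σ ∪ τ
  · simp only [if_pos h5]
    rw [← mul_sum, ← mul_sum]
    congr 1
    exact dual_sum inter_subset_left fun X hX => hψ X (hX.trans (h5.2.trans (union_subset hσ hτ)))
      (h5.1.subset (by exact_mod_cast hX))
  · simp only [if_neg h5]

end Pool.Agent.H815.TW
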