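import Pool.Agent.H815.TW.Sym
import Pool.Agent.H815.TW.Push

/-!
# The universal symmetric cycle
-/

set_option autoImplicit false

namespace Pool.Agent.H815.TW

open Finset Pool.Agent.W555.KS Pool.Agent.Y131.KS

variable {n m : ℕ}

/-- the image of a chain -/
def pc (h : Fin n → Fin m) (c : Finset (Fin n) → ZMod 2) : Finset (Fin m) → ZMod 2 :=
  fun σ => ∑ S : Finset (Fin n), if S.image h = σ then c S else 0

theorem pc_zero (h : Fin n → Fin m) : pc h 0 = 0 := by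
  funext σ
  refine sum_eq_zero fun S _ => ?_
  split_ifs <;> rfl

theorem b1_pc {h : Fin n → Fin m} (hh : Function.Injective h) (z : Finset (Fin n) → ZMod 2) :
    b1 (pc h z) = pc h (b1 z) := by
  funext ρ
  have e1 : b1 (pc h z) ρ = ∑ p : Fin m × Finset (Fin n), if p.1 ∉ ρ ∧ p.2.image h = insert p.1 ρ then z p.2 else 0 := by
    show (∑ v ∈ ρᶜ, ∑ S : Finset (Fin n), if S.image h = insert v ρ then z S else 0) = _
    rw [Fintype.sum_prod_type, ← sum_filter_add_sum_filter_not univ (fun v => v ∉ ρ)]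
    have e2 : (∑ v ∈ univ.filter (fun v => ¬ v ∉ ρ), ∑ S : Finset (Fin n),
        if v ∉ ρ ∧ S.image h = insert v ρ then z S else 0) = 0 := by
      refine sum_eq_zero fun v hv => sum_eq_zero fun S _ => if_neg fun h1 => ?_
      exact (mem_filter.1 hv).2 h1.1
    rw [e2, add_zero]
    refine sum_congr ?_ fun v hv => sum_congr rfl fun S _ => ?_
    · ext v; simp
    · exact if_congr ⟨fun h1 => ⟨(mem_filter.1 hv).2, h1⟩, fun h1 => h1.2⟩ rfl rfl
  have e3 : pc h (b1 z) ρ = ∑ p : Fin n × Finset (Fin n), if p.1 ∉ p.2 ∧ p.2.image h = ρ then z (insert p.1 p.2) else 0 := by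
    show (∑ R : Finset (Fin n), if R.image h = ρ then ∑ x ∈ Rᶜ, z (insert x R) else 0) = _
    rw [Fintype.sum_prod_type, sum_comm]
    refine sum_congr rfl fun R _ => ?_
    by_cases hR : R.image h = ρ
    · rw [if_pos hR, ← sum_filter_add_sum_filter_not univ (fun x => x ∉ R)]
      have e2 : (∑ x ∈ univ.filter (fun x => ¬ x ∉ R),
          if x ∉ R ∧ R.image h = ρ then z (insert x R) else 0) = 0 := by
        refine sum_eq_zero fun v hv => if_neg fun h1 => ?_
        exact (mem_filter.1 hv).2 h1.1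
      rw [e2, add_zero]
      refine sum_congr ?_ fun v hv => ?_
      · ext v; simp
      · rw [if_pos ⟨(mem_filter.1 hv).2, hR⟩]
    · rw [if_neg hR]
      exact (sum_eq_zero fun x _ => if_neg fun h1 => hR h1.2).symm
  rw [e1, e3]
  symm
  refine sum_bij_ne_zero (fun p _ _ => (h p.1, insert p.1 p.2)) (fun _ _ _ => mem_univ _) ?_ ?_ ?_
  · rintro ⟨x, R⟩ _ h1 ⟨x', R'⟩ _ h1' h2
    simp only at h1 h1' h2
    split_ifs at h1 with h3
    swap; · exact absurd rfl h1
    split_ifs at h1' with h3'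
    swap; · exact absurd rfl h1'
    rw [Prod.mk.injEq] at h2
    have h5 : x = x' := hh h2.1
    subst h5
    rw [← erase_insert h3.1, h2.2, erase_insert h3'.1]
  · rintro ⟨v, S⟩ _ h1
    simp only at h1
    split_ifs at h1 with h2
    swap; · exact absurd rfl h1
    obtain ⟨h2, h3⟩ := h2
    have h5 : v ∈ S.image h := by rw [h3]; exact mem_insert_self _ _
    obtain ⟨x, hx, rfl⟩ := mem_image.1 h5
    refine ⟨(x, S.erase x), mem_univ _, ?_, ?_⟩
    · simp only
      rw [insert_erase hx, if_pos]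
      · exact h1
      · refine ⟨notMem_erase _ _, ?_⟩
        rw [image_erase hh, h3, erase_insert h2]
    · simp only
      rw [insert_erase hx]
  · rintro ⟨x, R⟩ _ h1
    simp only at h1 ⊢
    split_ifs at h1 with h3
    swap; · exact absurd rfl h1
    rw [if_pos h3, if_pos]
    refine ⟨?_, by rw [image_insert, h3.2]⟩
    intro h5
    rw [← h3.2] at h5
    obtain ⟨y, hy, h6⟩ := mem_image.1 h5
    exact h3.1 (hh h6 ▸ hy)

/-- the first copy of a vertex -/
def v0 (v : Fin n) : Fin (2 * n) := ⟨2 * v, by omega⟩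

/-- the second copy of a vertex -/
def v1 (v : Fin n) : Fin (2 * n) := ⟨2 * v + 1, by omega⟩

/-- the second copies of the elements of `S`, the first copies of the other vertices -/
def lv (S : Finset (Fin n)) (v : Fin n) : Fin (2 * n) := if v ∈ S then v1 v else v0 v

theorem lv_val (S : Finset (Fin n)) (v : Fin n) : (lv S v : ℕ) = 2 * v + if v ∈ S then 1 else 0 := by
  unfold lv
  split_ifs <;> rfl

theorem lv_inj (S : Finset (Fin n)) : Function.Injective (lv S) := by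
  intro u v h
  have h1 : (lv S u : ℕ) = lv S v := by rw [h]
  rw [lv_val, lv_val] at h1
  refine Fin.ext ?_
  split_ifs at h1 <;> omega

theorem lv_eq {S T : Finset (Fin n)} {u v : Fin n} : lv S u = lv T v ↔ u = v ∧ (u ∈ S ↔ v ∈ T) := by
  rw [Fin.ext_iff, lv_val, lv_val, Fin.ext_iff]
  by_cases h1 : u ∈ S <;> by_cases h2 : v ∈ T <;> simp only [h1, h2, if_true, if_false,
    not_true_eq_false, and_true, and_false, iff_false, iff_true] <;> omega

theorem lv_lt {S T : Finset (Fin n)} {u v : Fin n} : lv T u < lv S v ↔ u < v ∨ (u = v ∧ v ∉ T ∧ v ∈ S) := by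
  rw [Fin.lt_def, lv_val, lv_val, Fin.lt_def]
  constructor
  · intro h
    by_cases h1 : (u : ℕ) < v
    · exact Or.inl h1
    · right
      have h2 : u = v := by
        refine Fin.ext ?_
        split_ifs at h <;> omega
      subst h2
      refine ⟨rfl, ?_, ?_⟩
      · intro h3
        rw [if_pos h3] at h
        split_ifs at h <;> omega
      · by_contra h3
        rw [if_neg h3] at h
        omega
  · rintro (h | ⟨rfl, h1, h2⟩)
    · split_ifs <;> omega
    · rw [if_neg h1, if_pos h2]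
      omega

/-- the universal chain -/
noncomputable def uZ (H : SimpleGraph (Fin n)) (ψ z : Finset (Fin n) → ZMod 2) : PC (2 * n) := fun σ τ =>
  ∑ K : Finset (Fin n), ψ K * ∑ S ∈ K.powerset, pc (lv S) z σ * pc (lv (K \ S ∪ nK H K)) z τ

theorem image_lv {S T σ : Finset (Fin n)} (h : ∀ v ∈ σ, v ∈ S ↔ v ∈ T) : σ.image (lv S) = σ.image (lv T) := by
  refine image_congr fun v hv => ?_
  exact lv_eq.2 ⟨rfl, h v hv⟩

section

variable {H : SimpleGraph (Fin n)} {A : Finset (Fin n)} {i : ℕ} {ψ z : Finset (Fin n) → ZMod 2}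

theorem uZ_eq (σ' τ' : Finset (Fin (2 * n))) : uZ H ψ z σ' τ' = ∑ σ : Finset (Fin n), ∑ τ : Finset (Fin n), z σ * z τ *
    ∑ K : Finset (Fin n), ψ K * ∑ S ∈ K.powerset,
      if σ.image (lv S) = σ' ∧ τ.image (lv (K \ S ∪ nK H K)) = τ' then 1 else 0 := by
  have e0 : ∀ K S : Finset (Fin n), pc (lv S) z σ' * pc (lv (K \ S ∪ nK H K)) z τ' =
      ∑ σ : Finset (Fin n), ∑ τ : Finset (Fin n), z σ * z τ *
        (if σ.image (lv S) = σ' ∧ τ.image (lv (K \ S ∪ nK H K)) = τ' then 1 else 0) := by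
    intro K S
    unfold pc
    rw [sum_mul]
    refine sum_congr rfl fun σ _ => ?_
    rw [mul_sum]
    refine sum_congr rfl fun τ _ => ?_
    by_cases h1 : σ.image (lv S) = σ' <;> by_cases h2 : τ.image (lv (K \ S ∪ nK H K)) = τ' <;>
      simp [h1, h2]
  have e1 : ∀ K : Finset (Fin n), ψ K * ∑ S ∈ K.powerset, pc (lv S) z σ' * pc (lv (K \ S ∪ nK H K)) z τ' =
      ∑ σ : Finset (Fin n), ∑ τ : Finset (Fin n), z σ * z τ * (ψ K * ∑ S ∈ K.powerset,
        if σ.image (lv S) = σ' ∧ τ.image (lv (K \ S ∪ nK H K)) = τ' then 1 else 0) := by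
    intro K
    rw [sum_congr rfl fun S _ => e0 K S, sum_comm, mul_sum]
    refine sum_congr rfl fun σ _ => ?_
    rw [sum_comm, mul_sum]
    refine sum_congr rfl fun τ _ => ?_
    rw [← mul_sum]
    ring
  unfold uZ
  rw [sum_congr rfl fun K _ => e1 K, sum_comm]
  refine sum_congr rfl fun σ _ => ?_
  rw [sum_comm]
  refine sum_congr rfl fun τ _ => ?_
  rw [mul_sum]

/-- the support of the universal chain -/
theorem uZ_ne (h0 : ∀ K, ψ K ≠ 0 → H.IsClique (K : Set (Fin n))) {σ' τ' : Finset (Fin (2 * n))}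
    (h : uZ H ψ z σ' τ' ≠ 0) : ∃ σ τ K S : Finset (Fin n), z σ ≠ 0 ∧ z τ ≠ 0 ∧ H.IsClique (K : Set (Fin n)) ∧
      K ⊆ σ ∪ τ ∧ S ⊆ K ∧ σ.image (lv S) = σ' ∧ τ.image (lv (K \ S ∪ nK H K)) = τ' := by
  rw [uZ_eq] at h
  obtain ⟨σ, _, h1⟩ := exists_ne_zero_of_sum_ne_zero h
  obtain ⟨τ, _, h2⟩ := exists_ne_zero_of_sum_ne_zero h1
  have h3 := left_ne_zero_of_mul h2
  obtain ⟨K, _, h4⟩ := exists_ne_zero_of_sum_ne_zero (right_ne_zero_of_mul h2)
  have h5 := right_ne_zero_of_mul h4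
  obtain ⟨S, hS, h6⟩ := exists_ne_zero_of_sum_ne_zero h5
  rw [mem_powerset] at hS
  split_ifs at h6 with h7
  swap; · exact absurd rfl h6
  refine ⟨σ, τ, K, S, left_ne_zero_of_mul h3, right_ne_zero_of_mul h3, h0 K (left_ne_zero_of_mul h4), ?_, hS, h7⟩
  by_contra hK
  obtain ⟨x, hx, hx'⟩ := not_subset.1 hK
  rw [mem_union, not_or] at hx'
  refine h5 (sum_toggle hx _ fun S _ => ?_)
  rw [image_lv (S := symmDiff S {x}) (T := S) (σ := σ), image_lv (S := K \ symmDiff S {x} ∪ nK H K)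
    (T := K \ S ∪ nK H K) (σ := τ)]
  · intro v hv
    have hvx : v ≠ x := fun e => hx'.2 (e ▸ hv)
    simp only [mem_union, mem_sdiff, mem_symmDiff, mem_singleton]
    tauto
  · intro v hv
    have hvx : v ≠ x := fun e => hx'.1 (e ▸ hv)
    simp only [mem_symmDiff, mem_singleton]
    tauto

theorem uZ_disj (h0 : ∀ K, ψ K ≠ 0 → H.IsClique (K : Set (Fin n))) (hz : Ch H A i z) {σ' τ' : Finset (Fin (2 * n))}
    (h : uZ H ψ z σ' τ' ≠ 0) : Disjoint σ' τ' := by
  obtain ⟨σ, τ, K, S, hσ, hτ, hK, hKs, hS, rfl, rfl⟩ := uZ_ne h0 h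
  rw [disjoint_left]
  intro x hx hx'
  obtain ⟨u, hu, rfl⟩ := mem_image.1 hx
  obtain ⟨v, hv, h1⟩ := mem_image.1 hx'
  rw [lv_eq] at h1
  obtain ⟨rfl, h1⟩ := h1
  rw [mem_union, mem_sdiff] at h1
  by_cases hvK : v ∈ K
  · have h2 : v ∉ nK H K := fun h => nK_notMem h hvK
    tauto
  · have h2 : v ∉ S := fun h => hvK (hS h)
    have h3 : v ∈ nK H K := by
      rw [mem_nK]
      intro w hw
      have hvw : v ≠ w := fun e => hvK (e ▸ hw)
      rcases mem_union.1 (hKs hw) with h4 | h4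
      · exact (hz σ hσ).1 hu h4 hvw
      · exact (hz τ hτ).1 hv h4 hvw
    tauto

theorem uZ_deg (h0 : ∀ K, ψ K ≠ 0 → H.IsClique (K : Set (Fin n))) (hz : Ch H A i z) {σ' τ' : Finset (Fin (2 * n))}
    (h : uZ H ψ z σ' τ' ≠ 0) : σ'.card + τ'.card = 2 * i := by
  obtain ⟨σ, τ, K, S, hσ, hτ, hK, hKs, hS, rfl, rfl⟩ := uZ_ne h0 h
  rw [card_image_of_injective _ (lv_inj _), card_image_of_injective _ (lv_inj _), (hz σ hσ).2.2, (hz τ hτ).2.2]
  ring

theorem dd_disj {N : ℕ} {Z : PC N} (h : ∀ σ τ, Z σ τ ≠ 0 → Disjoint σ τ) (ρ τ : Finset (Fin N)) :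
    dd Z ρ τ = ∑ v ∈ ρᶜ, Z (insert v ρ) τ + ∑ v ∈ τᶜ, Z ρ (insert v τ) := by
  show ∑ v ∈ (ρ ∪ τ)ᶜ, (Z (insert v ρ) τ + Z ρ (insert v τ)) = _
  rw [sum_add_distrib]
  congr 1
  · refine sum_subset ?_ fun v hv hv' => ?_
    · intro v hv
      rw [mem_compl, mem_union] at hv
      rw [mem_compl]
      tauto
    · by_contra h1
      rw [mem_compl] at hv
      rw [mem_compl, mem_union, not_not] at hv'
      exact disjoint_left.1 (h _ _ h1) (mem_insert_self _ _) (hv'.resolve_left hv)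
  · refine sum_subset ?_ fun v hv hv' => ?_
    · intro v hv
      rw [mem_compl, mem_union] at hv
      rw [mem_compl]
      tauto
    · by_contra h1
      rw [mem_compl] at hv
      rw [mem_compl, mem_union, not_not] at hv'
      exact disjoint_left.1 (h _ _ h1) (hv'.resolve_right hv) (mem_insert_self _ _)

theorem uZ_cyc (h0 : ∀ K, ψ K ≠ 0 → H.IsClique (K : Set (Fin n))) (hz : Ch H A i z) (hb : b1 z = 0) :
    dd (uZ H ψ z) = 0 := by
  funext ρ τ
  rw [dd_disj (fun σ τ h => uZ_disj h0 hz h)]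
  have e0 : ∀ (S : Finset (Fin n)) (ρ : Finset (Fin (2 * n))), ∑ v ∈ ρᶜ, pc (lv S) z (insert v ρ) = 0 := by
    intro S ρ
    have h1 := b1_pc (lv_inj S) z
    rw [hb, pc_zero] at h1
    exact congrFun h1 ρ
  have e1 : ∑ v ∈ ρᶜ, uZ H ψ z (insert v ρ) τ = 0 := by
    unfold uZ
    rw [sum_comm]
    refine sum_eq_zero fun K _ => ?_
    rw [← mul_sum, sum_comm]
    rw [sum_eq_zero, mul_zero]
    intro S _
    rw [← sum_mul, e0, zero_mul]
  have e2 : ∑ v ∈ τᶜ, uZ H ψ z ρ (insert v τ) = 0 := by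
    unfold uZ
    rw [sum_comm]
    refine sum_eq_zero fun K _ => ?_
    rw [← mul_sum, sum_comm]
    rw [sum_eq_zero, mul_zero]
    intro S _
    rw [← mul_sum, e0, mul_zero]
  rw [e1, e2, add_zero]
  rfl

theorem uZ_sym (h0 : ∀ K, ψ K ≠ 0 → H.IsClique (K : Set (Fin n)))
    (hψ : ∀ X, X ⊆ A → H.IsClique (X : Set (Fin n)) → (∑ K : Finset (Fin n), if K ⊆ X then ψ K else 0) = ψ X)
    (hz : Ch H A i z) : sw (uZ H ψ z) = uZ H ψ z := by
  funext σ' τ'
  show uZ H ψ z τ' σ' = uZ H ψ z σ' τ'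
  rw [uZ_eq, uZ_eq, sum_comm]
  refine sum_congr rfl fun σ _ => sum_congr rfl fun τ _ => ?_
  by_cases hσ : z σ = 0
  · rw [hσ, mul_zero, zero_mul, zero_mul, zero_mul]
  by_cases hτ : z τ = 0
  · rw [hτ, mul_zero, zero_mul, zero_mul, zero_mul]
  rw [mul_comm (z τ) (z σ)]
  congr 1
  have h1 := sym_identity h0 hψ (hz σ hσ).2.1 (hz τ hτ).2.1 (hz σ hσ).1 (hz τ hτ).1
    (fun X Y => if σ.image (lv X) = σ' ∧ τ.image (lv Y) = τ' then 1 else 0)
  have e1 : ∀ (X σ : Finset (Fin n)), σ.image (lv (X ∩ σ)) = σ.image (lv X) := by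
    intro X σ
    refine image_lv fun v hv => ?_
    rw [mem_inter]
    exact ⟨fun h => h.1, fun h => ⟨h, hv⟩⟩
  simp only [e1] at h1
  rw [h1]
  refine sum_congr rfl fun K _ => ?_
  congr 1
  exact sum_congr rfl fun S _ => if_congr and_comm rfl rfl

theorem uZ_sy (h0 : ∀ K, ψ K ≠ 0 → H.IsClique (K : Set (Fin n)))
    (hψ : ∀ X, X ⊆ A → H.IsClique (X : Set (Fin n)) → (∑ K : Finset (Fin n), if K ⊆ X then ψ K else 0) = ψ X)
    (hz : Ch H A i z) (hb : b1 z = 0) : Sy (2 * i) (uZ H ψ z) :=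
  ⟨uZ_sym h0 hψ hz, uZ_cyc h0 hz hb, fun _ _ h => uZ_disj h0 hz h, fun _ _ h => uZ_deg h0 hz h⟩

end

end Pool.Agent.H815.TW
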