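import Pool.Agent.H815.TW.Uni

/-!
# The evaluation of the universal symmetric cycle
-/

set_option autoImplicit false

namespace Pool.Agent.H815.TW

open Finset Pool.Agent.W555.KS Pool.Agent.Y131.KS

variable {n : ℕ}

theorem lt_count (S T τ : Finset (Fin n)) (v : Fin n) :
    ((τ.image (lv T)).filter (· < lv S v)).card =
      (τ.filter (· < v)).card + if v ∈ τ ∧ v ∉ T ∧ v ∈ S then 1 else 0 := by
  rw [filter_image, card_image_of_injective _ (lv_inj T)]
  by_cases h : v ∈ τ ∧ v ∉ T ∧ v ∈ S
  · rw [if_pos h]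
    have e1 : τ.filter (fun u => lv T u < lv S v) = insert v (τ.filter (· < v)) := by
      ext u
      rw [mem_filter, mem_insert, mem_filter, lv_lt]
      constructor
      · rintro ⟨h1, h2 | h2⟩
        · exact Or.inr ⟨h1, h2⟩
        · exact Or.inl h2.1
      · rintro (h2 | ⟨h1, h2⟩)
        · subst h2; exact ⟨h.1, Or.inr ⟨rfl, h.2⟩⟩
        · exact ⟨h1, Or.inl h2⟩
    rw [e1, card_insert_of_notMem]
    rw [mem_filter]
    exact fun h => lt_irrefl _ h.2
  · rw [if_neg h, add_zero]
    congr 1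
    refine filter_congr fun u hu => ?_
    rw [lv_lt]
    constructor
    · rintro (h1 | ⟨rfl, h1⟩)
      · exact h1
      · exact absurd ⟨hu, h1⟩ h
    · exact Or.inl

/-- alternating pairs -/
theorem alt_iff {N : ℕ} {σ τ : Finset (Fin N)} (hd : Disjoint σ τ) :
    (evenPart (σ ∪ τ) = σ ∧ oddPart (σ ∪ τ) = τ) ↔
      (∀ x ∈ σ, Even ((σ.filter (· < x)).card + (τ.filter (· < x)).card)) ∧
      ∀ x ∈ τ, ¬ Even ((σ.filter (· < x)).card + (τ.filter (· < x)).card) := by
  have h1 : ∀ x, ((σ ∪ τ).filter (· < x)).card = (σ.filter (· < x)).card + (τ.filter (· < x)).card := by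
    intro x
    rw [filter_union, card_union_of_disjoint]
    exact disjoint_filter_filter hd
  unfold evenPart oddPart
  simp only [h1]
  constructor
  · rintro ⟨h2, h3⟩
    constructor
    · intro x hx
      rw [← h2, mem_filter] at hx
      exact hx.2
    · intro x hx
      rw [← h3, mem_filter] at hx
      exact hx.2
  · rintro ⟨h2, h3⟩
    constructor
    · ext x
      rw [mem_filter, mem_union]
      constructor
      · rintro ⟨h4 | h4, h5⟩
        · exact h4
        · exact absurd h5 (h3 x h4)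
      · exact fun h4 => ⟨Or.inl h4, h2 x h4⟩
    · ext x
      rw [mem_filter, mem_union]
      constructor
      · rintro ⟨h4 | h4, h5⟩
        · exact absurd (h2 x h4) h5
        · exact h4
      · exact fun h4 => ⟨Or.inr h4, h3 x h4⟩

theorem ev_pair {N D : ℕ} (a b : Finset (Fin N)) (hD : (a ∪ b).card = D) :
    (∑ U ∈ powersetCard D (univ : Finset (Fin N)), if a = evenPart U ∧ b = oddPart U then (1 : ZMod 2) else 0) =
      if evenPart (a ∪ b) = a ∧ oddPart (a ∪ b) = b then 1 else 0 := by
  rw [sum_eq_single (a ∪ b)]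
  · exact if_congr ⟨fun h => ⟨h.1.symm, h.2.symm⟩, fun h => ⟨h.1.symm, h.2.symm⟩⟩ rfl rfl
  · intro U _ hU
    refine if_neg fun h => hU ?_
    rw [h.1, h.2]
    ext x
    unfold evenPart oddPart
    rw [mem_union, mem_filter, mem_filter]
    tauto
  · intro h
    exact absurd (mem_powersetCard.2 ⟨subset_univ _, hD⟩) h

theorem lv_disj {H : SimpleGraph (Fin n)} {σ τ K S : Finset (Fin n)} (hσ : H.IsClique (σ : Set (Fin n)))
    (hτ : H.IsClique (τ : Set (Fin n))) (hKs : K ⊆ σ ∪ τ) (hS : S ⊆ K) :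
    Disjoint (σ.image (lv S)) (τ.image (lv (K \ S ∪ nK H K))) := by
  rw [disjoint_left]
  intro x hx hx'
  obtain ⟨u, hu, rfl⟩ := mem_image.1 hx
  obtain ⟨v, hv, h1⟩ := mem_image.1 hx'
  rw [lv_eq] at h1
  obtain ⟨rfl, h1⟩ := h1
  rw [mem_union, mem_sdiff] at h1
  by_cases hvK : v ∈ K
  · have h2 : v ∉ nK H K := fun h => nK_notMem h hvK
    tauto
  · have h2 : v ∉ S := fun h => hvK (hS h)
    have h3 : v ∈ nK H K := by
      rw [mem_nK]
      intro w hw
      have hvw : v ≠ w := fun e => hvK (e ▸ hw)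
      rcases mem_union.1 (hKs hw) with h4 | h4
      · exact hσ hu h4 hvw
      · exact hτ hv h4 hvw
    tauto

theorem ev_K {H : SimpleGraph (Fin n)} {i : ℕ} {σ τ K : Finset (Fin n)} (hσ : H.IsClique (σ : Set (Fin n)))
    (hτ : H.IsClique (τ : Set (Fin n))) (cσ : σ.card = i) (cτ : τ.card = i) (hK : i ≤ K.card) :
    (∑ S ∈ K.powerset, ∑ U ∈ powersetCard (2 * i) (univ : Finset (Fin (2 * n))),
      if σ.image (lv S) = evenPart U ∧ τ.image (lv (K \ S ∪ nK H K)) = oddPart U then (1 : ZMod 2) else 0) =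
      if K = σ ∧ K = τ then 1 else 0 := by
  by_cases hKs : K ⊆ σ ∪ τ
  · obtain ⟨P, hP⟩ : ∃ P : Finset (Fin n) → Prop, P = fun S =>
        (∀ v ∈ σ, Even ((σ.filter (· < v)).card + ((τ.filter (· < v)).card + if v ∈ τ ∧ v ∈ S then 1 else 0))) ∧
        ∀ v ∈ τ, ¬ Even ((σ.filter (· < v)).card + (if v ∈ σ ∧ v ∉ S then 1 else 0) + (τ.filter (· < v)).card) :=
      ⟨_, rfl⟩
    have hnb : ∀ v, v ∈ σ → v ∈ τ → v ∉ K → v ∈ nK H K := by
      intro v h1 h2 h3
      rw [mem_nK]
      intro w hw
      have hvw : v ≠ w := fun e => h3 (e ▸ hw)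
      rcases mem_union.1 (hKs hw) with h4 | h4
      · exact hσ h1 h4 hvw
      · exact hτ h2 h4 hvw
    classical
    have e1 : ∀ S ∈ K.powerset, (∑ U ∈ powersetCard (2 * i) (univ : Finset (Fin (2 * n))),
        if σ.image (lv S) = evenPart U ∧ τ.image (lv (K \ S ∪ nK H K)) = oddPart U then (1 : ZMod 2) else 0) =
        if P S then 1 else 0 := by
      intro S hS
      rw [mem_powerset] at hS
      have hd := lv_disj hσ hτ hKs hS
      rw [ev_pair]
      · refine if_congr ?_ rfl rfl
        rw [alt_iff hd, hP]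
        simp only [forall_mem_image, lt_count]
        have h3 : ∀ v, (v ∈ K \ S ∪ nK H K ↔ (v ∈ K ∧ v ∉ S) ∨ v ∈ nK H K) := fun v => by
          rw [mem_union, mem_sdiff]
        have h4 : ∀ v, v ∈ nK H K → v ∉ K := fun v => nK_notMem
        have h5 : ∀ v, v ∈ S → v ∈ K := fun v hv => hS hv
        have c1 : ∀ v, (v ∈ τ ∧ v ∉ K \ S ∪ nK H K ∧ v ∈ S) ↔ (v ∈ τ ∧ v ∈ S) := by
          intro v
          have := h3 v; have := h4 v; have := h5 v
          tauto
        have c2 : ∀ v ∈ τ, ((v ∈ σ ∧ v ∉ S ∧ v ∈ K \ S ∪ nK H K) ↔ (v ∈ σ ∧ v ∉ S)) := by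
          intro v hv
          have := h3 v; have := h4 v; have := h5 v; have := hnb v
          tauto
        have c3 : ∀ v, ¬ (v ∈ σ ∧ v ∉ S ∧ v ∈ S) := fun v h => h.2.1 h.2.2
        have c4 : ∀ v, ¬ (v ∈ τ ∧ v ∉ K \ S ∪ nK H K ∧ v ∈ K \ S ∪ nK H K) := fun v h => h.2.1 h.2.2
        constructor
        · rintro ⟨h6, h7⟩
          refine ⟨fun v hv => ?_, fun v hv => ?_⟩
          · have h8 := h6 hv
            rw [if_neg (c3 v), add_zero, if_congr (c1 v) rfl rfl] at h8
            exact h8
          · have h8 := h7 hv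
            rw [if_neg (c4 v), add_zero, if_congr (c2 v hv) rfl rfl] at h8
            exact h8
        · rintro ⟨h6, h7⟩
          refine ⟨fun v hv => ?_, fun v hv => ?_⟩
          · rw [if_neg (c3 v), add_zero, if_congr (c1 v) rfl rfl]
            exact h6 v hv
          · rw [if_neg (c4 v), add_zero, if_congr (c2 v hv) rfl rfl]
            exact h7 v hv
      · rw [card_union_of_disjoint hd, card_image_of_injective _ (lv_inj _), card_image_of_injective _ (lv_inj _),
          cσ, cτ]
        ring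
    rw [sum_congr rfl e1]
    by_cases hKi : K ⊆ σ ∩ τ
    · have h1 : K = σ := eq_of_subset_of_card_le (hKi.trans inter_subset_left) (by omega)
      have h2 : K = τ := eq_of_subset_of_card_le (hKi.trans inter_subset_right) (by omega)
      rw [if_pos ⟨h1, h2⟩]
      subst h1
      subst h2
      have e2 : ∀ S ∈ K.powerset, (if P S then (1 : ZMod 2) else 0) = if S = ∅ then 1 else 0 := by
        intro S hS
        rw [mem_powerset] at hS
        refine if_congr ?_ rfl rfl
        rw [hP]
        constructor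
        · rintro ⟨h1, _⟩
          rw [eq_empty_iff_forall_notMem]
          intro v hv
          have h2 := h1 v (hS hv)
          rw [if_pos ⟨hS hv, hv⟩, ← add_assoc, Nat.even_add_one] at h2
          exact h2 (by rw [← two_mul]; exact even_two_mul _)
        · rintro rfl
          refine ⟨fun v hv => ?_, fun v hv => ?_⟩
          · rw [if_neg (by simp), add_zero, ← two_mul]
            exact even_two_mul _
          · rw [if_pos ⟨hv, notMem_empty _⟩, add_right_comm, Nat.even_add_one, not_not, ← two_mul]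
            exact even_two_mul _
      rw [sum_congr rfl e2, sum_ite_eq' K.powerset ∅ (fun _ => (1 : ZMod 2)), if_pos (empty_mem_powerset _)]
    · obtain ⟨x, hx, hx'⟩ := not_subset.1 hKi
      rw [mem_inter] at hx'
      rw [sum_toggle hx]
      · rw [if_neg]
        rintro ⟨h1, h2⟩
        exact hx' ⟨h1 ▸ hx, h2 ▸ hx⟩
      · intro S _
        refine if_congr ?_ rfl rfl
        rw [hP]
        have c1 : ∀ v ∈ σ, ((v ∈ τ ∧ v ∈ symmDiff S {x}) ↔ (v ∈ τ ∧ v ∈ S)) := by
          intro v hv
          rw [mem_symmDiff, mem_singleton]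
          by_cases h : v = x
          · subst h; tauto
          · tauto
        have c2 : ∀ v ∈ τ, ((v ∈ σ ∧ v ∉ symmDiff S {x}) ↔ (v ∈ σ ∧ v ∉ S)) := by
          intro v hv
          rw [mem_symmDiff, mem_singleton]
          by_cases h : v = x
          · subst h; tauto
          · tauto
        constructor
        · rintro ⟨h6, h7⟩
          refine ⟨fun v hv => ?_, fun v hv => ?_⟩
          · have h8 := h6 v hv
            rw [if_congr (c1 v hv) rfl rfl] at h8
            exact h8
          · have h8 := h7 v hv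
            rw [if_congr (c2 v hv) rfl rfl] at h8
            exact h8
        · rintro ⟨h6, h7⟩
          refine ⟨fun v hv => ?_, fun v hv => ?_⟩
          · rw [if_congr (c1 v hv) rfl rfl]
            exact h6 v hv
          · rw [if_congr (c2 v hv) rfl rfl]
            exact h7 v hv
  · obtain ⟨x, hx, hx'⟩ := not_subset.1 hKs
    rw [mem_union, not_or] at hx'
    rw [sum_toggle hx]
    · rw [if_neg]
      rintro ⟨h1, h2⟩
      exact hx'.1 (h1 ▸ hx)
    · intro S _
      rw [image_lv (S := symmDiff S {x}) (T := S) (σ := σ), image_lv (S := K \ symmDiff S {x} ∪ nK H K)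
        (T := K \ S ∪ nK H K) (σ := τ)]
      · intro v hv
        have hvx : v ≠ x := fun e => hx'.2 (e ▸ hv)
        simp only [mem_union, mem_sdiff, mem_symmDiff, mem_singleton]
        tauto
      · intro v hv
        have hvx : v ≠ x := fun e => hx'.1 (e ▸ hv)
        simp only [mem_symmDiff, mem_singleton]
        tauto

theorem ev_uZ {H : SimpleGraph (Fin n)} {A : Finset (Fin n)} {i : ℕ} {ψ z : Finset (Fin n) → ZMod 2}
    (hz : Ch H A i z) (hc : ∀ K, ψ K ≠ 0 → i ≤ K.card) : ev (2 * i) (uZ H ψ z) = ∑ K, ψ K * z K := by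
  unfold ev
  simp only [uZ_eq]
  have e1 : ∀ (σ τ : Finset (Fin n)), (∑ U ∈ powersetCard (2 * i) (univ : Finset (Fin (2 * n))), z σ * z τ *
      ∑ K : Finset (Fin n), ψ K * ∑ S ∈ K.powerset,
        if σ.image (lv S) = evenPart U ∧ τ.image (lv (K \ S ∪ nK H K)) = oddPart U then 1 else 0) =
      ∑ K : Finset (Fin n), if K = σ ∧ K = τ then ψ K * z K else 0 := by
    intro σ τ
    by_cases hσ : z σ = 0
    · rw [sum_eq_zero fun U _ => by rw [hσ, zero_mul, zero_mul]]
      refine (sum_eq_zero fun K _ => ?_).symm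
      split_ifs with h
      · rw [h.1, hσ, mul_zero]
      · rfl
    by_cases hτ : z τ = 0
    · rw [sum_eq_zero fun U _ => by rw [hτ, mul_zero, zero_mul]]
      refine (sum_eq_zero fun K _ => ?_).symm
      split_ifs with h
      · rw [h.2, hτ, mul_zero]
      · rfl
    rw [← mul_sum, sum_comm, mul_sum]
    refine sum_congr rfl fun K _ => ?_
    rw [← mul_sum, sum_comm]
    by_cases hK : ψ K = 0
    · rw [hK, zero_mul, mul_zero, zero_mul]
      split_ifs <;> rfl
    · rw [ev_K (hz σ hσ).1 (hz τ hτ).1 (hz σ hσ).2.2 (hz τ hτ).2.2 (hc K hK)]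
      split_ifs with h
      · rw [← h.1, ← h.2]
        have h2 : ∀ a b : ZMod 2, a * a * (b * 1) = b * a := by decide
        exact h2 _ _
      · rw [mul_zero, mul_zero]
  rw [sum_comm]
  have e2 : ∀ σ : Finset (Fin n), (∑ U ∈ powersetCard (2 * i) (univ : Finset (Fin (2 * n))), ∑ τ : Finset (Fin n),
      z σ * z τ * ∑ K : Finset (Fin n), ψ K * ∑ S ∈ K.powerset,
        if σ.image (lv S) = evenPart U ∧ τ.image (lv (K \ S ∪ nK H K)) = oddPart U then 1 else 0) = ψ σ * z σ := by
    intro σ
    rw [sum_comm, sum_congr rfl fun τ _ => e1 σ τ, sum_comm, sum_eq_single σ, sum_eq_single σ]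
    · exact if_pos ⟨rfl, rfl⟩
    · intro τ _ h
      exact if_neg fun h1 => h h1.2.symm
    · intro h; exact absurd (mem_univ _) h
    · intro K _ h
      exact sum_eq_zero fun τ _ => if_neg fun h1 => h h1.1
    · intro h; exact absurd (mem_univ _) h
  exact sum_congr rfl fun σ _ => e2 σ

end Pool.Agent.H815.TW
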